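import Mathlib

set_option autoImplicit false

namespace Pool.Agent.H31.CR

open Finset Pointwise

section lemmaF
variable {A : Type*} [CommGroup A] [DecidableEq A] {d : ℕ}

/-- monomial -/
def mon (v : Fin d → A) (t : Fin d → ℕ) : A := ∏ i, v i ^ t i

omit [DecidableEq A] in
lemma mon_add_single (v : Fin d → A) (t : Fin d → ℕ) (i : Fin d) :
    mon v (t + Pi.single i 1) = mon v t * v i := by
  unfold mon
  simp only [Pi.add_apply, pow_add, Finset.prod_mul_distrib]
  congr 1
  rw [Finset.prod_eq_single i]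
  · simp
  · intro j _ hj
    simp [Pi.single_eq_of_ne hj]
  · simp

/-- types of an element -/
def Ty (P : Finset A) (v : Fin d → A) (j : ℕ) (z : A) : Finset (Fin d → ℕ) :=
  (finAntidiagonal d j).filter (fun t => z * (mon v t)⁻¹ ∈ P)

/-- elements which are a point of `P` times a monomial of degree `j` -/
def E (P : Finset A) (v : Fin d → A) (j : ℕ) : Finset A :=
  (P ×ˢ finAntidiagonal d j).image (fun x => x.1 * mon v x.2)

lemma mem_E {P : Finset A} {v : Fin d → A} {j : ℕ} {z : A} : z ∈ E P v j ↔ (Ty P v j z).Nonempty := by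
  unfold E Ty
  constructor
  · intro h
    obtain ⟨⟨p, t⟩, h1, h2⟩ := Finset.mem_image.mp h
    rw [Finset.mem_product] at h1
    refine ⟨t, Finset.mem_filter.mpr ⟨h1.2, ?_⟩⟩
    rw [← h2]
    simpa using h1.1
  · rintro ⟨t, ht⟩
    rw [Finset.mem_filter] at ht
    refine Finset.mem_image.mpr ⟨(z * (mon v t)⁻¹, t), ?_, by simp⟩
    rw [Finset.mem_product]
    exact ⟨ht.2, ht.1⟩

/-- the minimal type -/
noncomputable def tau (P : Finset A) (v : Fin d → A) (j : ℕ) (z : A) : Fin d → ℕ :=
  if h : (Ty P v j z).Nonempty then (exists_min_image (Ty P v j z) toLex h).choose else 0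

lemma tau_spec {P : Finset A} {v : Fin d → A} {j : ℕ} {z : A} (h : z ∈ E P v j) :
    tau P v j z ∈ Ty P v j z ∧ ∀ t ∈ Ty P v j z, toLex (tau P v j z) ≤ toLex t := by
  rw [mem_E] at h
  unfold tau
  rw [dif_pos h]
  exact (exists_min_image (Ty P v j z) toLex h).choose_spec

lemma Ty_succ {P : Finset A} {v : Fin d → A} {j : ℕ} {z : A} {i : Fin d} {t : Fin d → ℕ} :
    t + Pi.single i 1 ∈ Ty P v (j + 1) z ↔ t ∈ Ty P v j (z * (v i)⁻¹) := by
  unfold Ty
  rw [Finset.mem_filter, Finset.mem_filter, mem_finAntidiagonal, mem_finAntidiagonal,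
    mon_add_single]
  have h1 : ∑ k, (t + Pi.single i 1 : Fin d → ℕ) k = (∑ k, t k) + 1 := by
    simp [Finset.sum_add_distrib]
  have h2 : z * (mon v t * v i)⁻¹ = z * (v i)⁻¹ * (mon v t)⁻¹ := by
    rw [mul_inv_rev, mul_assoc]
  rw [h1, h2]
  constructor
  · rintro ⟨h3, h4⟩; exact ⟨by omega, h4⟩
  · rintro ⟨h3, h4⟩; exact ⟨by omega, h4⟩

lemma tau_dec {P : Finset A} {v : Fin d → A} {j : ℕ} {z : A} (h : z ∈ E P v (j + 1)) {i : Fin d}
    (hi : 0 < tau P v (j + 1) z i) :
    z * (v i)⁻¹ ∈ E P v j ∧ tau P v (j + 1) z = tau P v j (z * (v i)⁻¹) + Pi.single i 1 := by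
  obtain ⟨h1, h2⟩ := tau_spec h
  set t := tau P v (j + 1) z with ht
  obtain ⟨s, hs⟩ : ∃ s : Fin d → ℕ, t = s + Pi.single i 1 := by
    refine ⟨t - Pi.single i 1, ?_⟩
    ext k
    simp only [Pi.add_apply, Pi.sub_apply]
    by_cases hk : k = i
    · subst hk; simp; omega
    · simp [Pi.single_eq_of_ne hk]
  rw [hs, Ty_succ] at h1
  have hmem : z * (v i)⁻¹ ∈ E P v j := mem_E.mpr ⟨s, h1⟩
  refine ⟨hmem, ?_⟩
  obtain ⟨h3, h4⟩ := tau_spec hmem
  have h5 : toLex (tau P v j (z * (v i)⁻¹)) ≤ toLex s := h4 s h1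
  have h6 : toLex t ≤ toLex (tau P v j (z * (v i)⁻¹) + Pi.single i 1) := h2 _ (Ty_succ.mpr h3)
  have h7 : toLex (tau P v j (z * (v i)⁻¹) + Pi.single i 1) ≤ toLex t := by
    rw [hs]
    change toLex (tau P v j (z * (v i)⁻¹)) + toLex (Pi.single i 1) ≤ toLex s + toLex (Pi.single i 1)
    exact add_le_add_left h5 _
  have h8 := le_antisymm h6 h7
  exact toLex.injective h8

lemma sum_tau {P : Finset A} {v : Fin d → A} {j : ℕ} {z : A} (h : z ∈ E P v j) :
    ∑ i, tau P v j z i = j := by
  have := (tau_spec h).1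
  unfold Ty at this
  rw [Finset.mem_filter, mem_finAntidiagonal] at this
  exact this.1

lemma stepE (P : Finset A) (v : Fin d → A) (j : ℕ) :
    (j + 1) * (E P v (j + 1)).card ≤ (j + d) * (E P v j).card := by
  have h1 : (j + 1) * (E P v (j + 1)).card = ∑ z ∈ E P v (j + 1), ∑ i, tau P v (j + 1) z i := by
    rw [Finset.sum_congr rfl (fun z hz => sum_tau hz), Finset.sum_const, smul_eq_mul, mul_comm]
  have h2 : (j + d) * (E P v j).card = ∑ i : Fin d, ∑ y ∈ E P v j, (tau P v j y i + 1) := by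
    rw [Finset.sum_comm]
    have : ∀ y ∈ E P v j, ∑ i : Fin d, (tau P v j y i + 1) = j + d := by
      intro y hy
      rw [Finset.sum_add_distrib, sum_tau hy]
      simp
    rw [Finset.sum_congr rfl this, Finset.sum_const, smul_eq_mul, mul_comm]
  rw [h1, h2, Finset.sum_comm]
  apply Finset.sum_le_sum
  intro i _
  have h3 : ∑ z ∈ E P v (j + 1), tau P v (j + 1) z i =
      ∑ z ∈ (E P v (j + 1)).filter (fun z => 0 < tau P v (j + 1) z i),
        (tau P v j (z * (v i)⁻¹) i + 1) := by
    rw [← Finset.sum_filter_add_sum_filter_not (E P v (j + 1))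
      (fun z => 0 < tau P v (j + 1) z i)]
    have h4 : ∑ x ∈ (E P v (j + 1)).filter (fun z => ¬ 0 < tau P v (j + 1) z i),
        tau P v (j + 1) x i = 0 := by
      apply Finset.sum_eq_zero
      intro x hx
      have := (Finset.mem_filter.mp hx).2
      omega
    rw [h4, add_zero]
    apply Finset.sum_congr rfl
    intro z hz
    rw [Finset.mem_filter] at hz
    obtain ⟨_, h5⟩ := tau_dec hz.1 hz.2
    rw [h5]
    simp
  rw [h3]
  rw [← Finset.sum_image (f := fun y => tau P v j y i + 1) (g := fun z => z * (v i)⁻¹)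
    (s := (E P v (j + 1)).filter (fun z => 0 < tau P v (j + 1) z i))
    (fun a _ b _ hab => mul_right_cancel hab)]
  apply Finset.sum_le_sum_of_subset
  intro y hy
  obtain ⟨z, hz, rfl⟩ := Finset.mem_image.mp hy
  rw [Finset.mem_filter] at hz
  exact (tau_dec hz.1 hz.2).1

lemma E_eq (P : Finset A) (v : Fin d → A) (j : ℕ) :
    E P v j = P * (Finset.univ.image v) ^ j := by
  have hmon : ∀ (t : Fin d → ℕ) (s : Finset (Fin d)),
      ∏ i ∈ s, v i ^ t i ∈ (Finset.univ.image v) ^ (∑ i ∈ s, t i) := by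
    intro t s
    induction s using Finset.induction_on with
    | empty => simp
    | insert a s ha ih =>
      rw [Finset.prod_insert ha, Finset.sum_insert ha, pow_add]
      exact Finset.mul_mem_mul (Finset.pow_mem_pow (Finset.mem_image_of_mem _ (Finset.mem_univ _))) ih
  have hpow : ∀ j : ℕ, ∀ z ∈ (Finset.univ.image v) ^ j, ∃ t : Fin d → ℕ, ∑ i, t i = j ∧
      z = mon v t := by
    intro j
    induction j with
    | zero =>
      intro z hz
      rw [pow_zero, Finset.mem_one] at hz
      exact ⟨0, by simp, by simp [hz, mon]⟩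
    | succ j ih =>
      intro z hz
      rw [pow_succ] at hz
      obtain ⟨a, ha, b, hb, rfl⟩ := Finset.mem_mul.mp hz
      obtain ⟨t, ht, rfl⟩ := ih a ha
      obtain ⟨i, _, rfl⟩ := Finset.mem_image.mp hb
      refine ⟨t + Pi.single i 1, ?_, (mon_add_single v t i).symm⟩
      simp [Finset.sum_add_distrib, ht]
  ext z
  unfold E
  rw [Finset.mem_image, Finset.mem_mul]
  constructor
  · rintro ⟨⟨p, t⟩, h1, rfl⟩
    rw [Finset.mem_product, mem_finAntidiagonal] at h1
    refine ⟨p, h1.1, mon v t, ?_, rfl⟩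
    have := hmon t Finset.univ
    rw [h1.2] at this
    exact this
  · rintro ⟨p, hp, q, hq, rfl⟩
    obtain ⟨t, ht, rfl⟩ := hpow j q hq
    exact ⟨(p, t), by rw [Finset.mem_product, mem_finAntidiagonal]; exact ⟨hp, ht⟩, rfl⟩

/-- One step of the growth bound for `P D^j` in a commutative group. -/
theorem step_card (P D : Finset A) (j : ℕ) :
    (j + 1) * (P * D ^ (j + 1)).card ≤ (j + D.card) * (P * D ^ j).card := by
  classical
  let e := D.equivFin
  let v : Fin D.card → A := fun i => (e.symm i : A)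
  have hv : Finset.univ.image v = D := by
    ext x
    rw [Finset.mem_image]
    constructor
    · rintro ⟨i, _, rfl⟩; exact (e.symm i).2
    · intro hx
      exact ⟨e ⟨x, hx⟩, Finset.mem_univ _, by simp [v]⟩
  have := stepE P v j
  rwa [E_eq, E_eq, hv] at this

/-- Growth bound between two levels. -/
theorem level_card (P D : Finset A) (i j : ℕ) (hij : i ≤ j) :
    (i + 1) ^ D.card * (P * D ^ j).card ≤ (j + 1) ^ D.card * (P * D ^ i).card := by
  induction j, hij using Nat.le_induction with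
  | base => exact le_rfl
  | succ j hij ih =>
    have h1 := step_card P D j
    have h2 : (j + 1) ^ D.card * (j + D.card) ≤ (j + 2) ^ D.card * (j + 1) := by
      have hb : (1 + (D.card : ℝ) * (1 / ((j : ℝ) + 1))) ≤ (1 + 1 / ((j : ℝ) + 1)) ^ D.card :=
        one_add_mul_le_pow (by have : (0:ℝ) ≤ 1 / ((j:ℝ) + 1) := by positivity
                               linarith) _
      have hj : (0 : ℝ) < (j : ℝ) + 1 := by positivity
      have h3 : ((j : ℝ) + 1) ^ D.card * ((j : ℝ) + D.card) ≤ ((j : ℝ) + 2) ^ D.card * ((j : ℝ) + 1) := by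
        have h4 : ((j : ℝ) + 2) ^ D.card = ((j : ℝ) + 1) ^ D.card * (1 + 1 / ((j : ℝ) + 1)) ^ D.card := by
          rw [← mul_pow]
          congr 1
          field_simp
          ring
        rw [h4, mul_assoc]
        apply mul_le_mul_of_nonneg_left _ (by positivity)
        calc ((j : ℝ) + D.card) ≤ (1 + (D.card : ℝ) * (1 / ((j : ℝ) + 1))) * ((j : ℝ) + 1) := by
              have : (1 + (D.card : ℝ) * (1 / ((j : ℝ) + 1))) * ((j : ℝ) + 1) =
                  (j : ℝ) + 1 + D.card := by field_simp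
              rw [this]; linarith
          _ ≤ _ := mul_le_mul_of_nonneg_right hb hj.le
      exact_mod_cast h3
    have h5 : (j + 1) * ((i + 1) ^ D.card * (P * D ^ (j + 1)).card) * (j + 1) ^ D.card ≤
        (j + 1) * ((j + 2) ^ D.card * (P * D ^ i).card) * (j + 1) ^ D.card := by
      calc (j + 1) * ((i + 1) ^ D.card * (P * D ^ (j + 1)).card) * (j + 1) ^ D.card
          = ((i + 1) ^ D.card * (j + 1) ^ D.card) * ((j + 1) * (P * D ^ (j + 1)).card) := by ring
        _ ≤ ((i + 1) ^ D.card * (j + 1) ^ D.card) * ((j + D.card) * (P * D ^ j).card) :=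
            Nat.mul_le_mul_left _ h1
        _ = ((j + 1) ^ D.card * (j + D.card)) * ((i + 1) ^ D.card * (P * D ^ j).card) := by ring
        _ ≤ ((j + 2) ^ D.card * (j + 1)) * ((j + 1) ^ D.card * (P * D ^ i).card) :=
            Nat.mul_le_mul h2 ih
        _ = (j + 1) * ((j + 2) ^ D.card * (P * D ^ i).card) * (j + 1) ^ D.card := by ring
    have h6 := Nat.le_of_mul_le_mul_right h5 (by positivity)
    exact Nat.le_of_mul_le_mul_left h6 (by positivity)

/-- The same for a group whose elements commute. -/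
theorem level_card' {A : Type*} [Group A] [DecidableEq A] (hc : ∀ a b : A, a * b = b * a)
    (P D : Finset A) (i j : ℕ) (hij : i ≤ j) :
    (i + 1) ^ D.card * (P * D ^ j).card ≤ (j + 1) ^ D.card * (P * D ^ i).card := by
  letI : CommGroup A := { (inferInstance : Group A) with mul_comm := hc }
  exact level_card P D i j hij

end lemmaF

end Pool.Agent.H31.CR
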