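import Mathlib
import Pool.Agent.H31.CR.LemmaF

set_option autoImplicit false

namespace Pool.Agent.H31.CR

open Finset Pointwise

section cosets
variable {G : Type*} [Group G] [DecidableEq G] (S : Finset G) (Z : Subgroup G)

open Classical in
/-- number of left cosets of `Z` meeting `S^j b⁻¹` -/
noncomputable def nu (b : G) (j : ℕ) : ℕ :=
  ((S ^ j).image (fun p => ((p * b⁻¹ : G) : G ⧸ Z))).card

lemma coset_bound (b w : G) (i j : ℕ) (Y : Finset G) (hY : Y ⊆ S ^ i)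
    (hc : ∀ y ∈ Y, ∃ z ∈ Z, y = b⁻¹ * z * w) :
    nu S Z b j * Y.card ≤ (S ^ (j + i)).card := by
  classical
  unfold nu
  set C := (S ^ j).image (fun p => ((p * b⁻¹ : G) : G ⧸ Z)) with hC
  have hrep : ∀ q ∈ C, ∃ p ∈ S ^ j, ((p * b⁻¹ : G) : G ⧸ Z) = q := by
    intro q hq
    exact Finset.mem_image.mp hq
  choose! rep hrep1 hrep2 using hrep
  rw [← Finset.card_product]
  apply Finset.card_le_card_of_injOn (fun x => rep x.1 * x.2)
  · rintro ⟨q, y⟩ hqy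
    rw [Finset.mem_coe, Finset.mem_product] at hqy
    rw [pow_add]
    exact Finset.mul_mem_mul (hrep1 q hqy.1) (hY hqy.2)
  · rintro ⟨q, y⟩ hqy ⟨q', y'⟩ hqy' heq
    rw [Finset.mem_coe, Finset.mem_product] at hqy hqy'
    simp only at heq hqy hqy'
    obtain ⟨z, hz, hyz⟩ := hc y hqy.2
    obtain ⟨z', hz', hyz'⟩ := hc y' hqy'.2
    have h1 : rep q * b⁻¹ * z = rep q' * b⁻¹ * z' := by
      have : rep q * b⁻¹ * z * w = rep q' * b⁻¹ * z' * w := by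
        calc rep q * b⁻¹ * z * w = rep q * (b⁻¹ * z * w) := by group
          _ = rep q' * (b⁻¹ * z' * w) := by rw [← hyz, ← hyz']; exact heq
          _ = _ := by group
      exact mul_right_cancel this
    have h2 : q = q' := by
      rw [← hrep2 q hqy.1, ← hrep2 q' hqy'.1]
      rw [QuotientGroup.eq]
      have : (rep q * b⁻¹)⁻¹ * (rep q' * b⁻¹) = z * z'⁻¹ := by
        have h3 : rep q' * b⁻¹ = rep q * b⁻¹ * z * z'⁻¹ := by rw [h1]; group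
        rw [h3]; group
      rw [this]
      exact Z.mul_mem hz (Z.inv_mem hz')
    subst h2
    have h3 : y = y' := mul_left_cancel heq
    rw [h3]

end cosets

section paths
variable {G : Type*} [Group G] [DecidableEq G] (S : Finset G) (K Z : Subgroup G) (Ω : Finset G)
  (k : ℕ)

/-- Block paths with marked copies of a reference block `(a0, v0, b0)`. -/
inductive RPath (a0 b0 v0 : G) : ℕ → ℕ → G → G → Prop
  | nil : RPath a0 b0 v0 0 0 1 1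
  | step {N i : ℕ} {a u b v : G} : RPath a0 b0 v0 N i a u → v ∈ S ^ k → a * v * b⁻¹ ∈ K → b ∈ Ω →
      RPath a0 b0 v0 (N + 1) i b (u * v)
  | ref {N i : ℕ} {u : G} : RPath a0 b0 v0 N i a0 u → RPath a0 b0 v0 (N + 1) (i + 1) b0 (u * v0)

/-- Block paths with marked blocks in the class of `(a0, v0, b0)`. -/
inductive CPath (a0 b0 v0 : G) : ℕ → ℕ → G → G → Prop
  | nil : CPath a0 b0 v0 0 0 1 1
  | step {N i : ℕ} {a u b v : G} : CPath a0 b0 v0 N i a u → v ∈ S ^ k → a * v * b⁻¹ ∈ K → b ∈ Ω →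
      CPath a0 b0 v0 (N + 1) i b (u * v)
  | mark {N i : ℕ} {u v : G} : CPath a0 b0 v0 N i a0 u → v ∈ S ^ k →
      (a0 * v0 * b0⁻¹)⁻¹ * (a0 * v * b0⁻¹) ∈ Z → CPath a0 b0 v0 (N + 1) (i + 1) b0 (u * v)

variable {S K Z Ω k} {a0 b0 v0 : G}

lemma RPath.mem_K (hv0 : a0 * v0 * b0⁻¹ ∈ K) {N i : ℕ} {a u : G} (h : RPath S K Ω k a0 b0 v0 N i a u) :
    u * a⁻¹ ∈ K := by
  induction h with
  | nil => simp
  | @step N i a u b v _ _ h2 _ ih =>
    have : u * v * b⁻¹ = (u * a⁻¹) * (a * v * b⁻¹) := by group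
    rw [this]; exact K.mul_mem ih h2
  | @ref N i u _ ih =>
    have : u * v0 * b0⁻¹ = (u * a0⁻¹) * (a0 * v0 * b0⁻¹) := by group
    rw [this]; exact K.mul_mem ih hv0

lemma RPath.mem_pow (hv0 : v0 ∈ S ^ k) {N i : ℕ} {a u : G} (h : RPath S K Ω k a0 b0 v0 N i a u) :
    u ∈ S ^ (k * N) := by
  induction h with
  | nil => simp
  | step _ h1 _ _ ih =>
    rw [Nat.mul_succ, pow_add]; exact Finset.mul_mem_mul ih h1
  | ref _ ih =>
    rw [Nat.mul_succ, pow_add]; exact Finset.mul_mem_mul ih hv0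

/-- With a short reference block the product has smaller length. -/
lemma RPath.mem_pow_short (hk : 1 ≤ k) (hv0 : v0 ∈ S ^ (k - 1)) {N i : ℕ} {a u : G}
    (h : RPath S K Ω k a0 b0 v0 N i a u) : i ≤ k * N ∧ u ∈ S ^ (k * N - i) := by
  induction h with
  | nil => simp
  | @step N i a u b v _ h1 _ _ ih =>
    refine ⟨by rw [Nat.mul_succ]; omega, ?_⟩
    have : k * (N + 1) - i = (k * N - i) + k := by rw [Nat.mul_succ]; omega
    rw [this, pow_add]; exact Finset.mul_mem_mul ih.2 h1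
  | @ref N i u _ ih =>
    refine ⟨by rw [Nat.mul_succ]; omega, ?_⟩
    have : k * (N + 1) - (i + 1) = (k * N - i) + (k - 1) := by rw [Nat.mul_succ]; omega
    rw [this, pow_add]; exact Finset.mul_mem_mul ih.2 hv0

/-- Replacing one reference block by another block of the same class. -/
lemma RPath.replace (hZ : ∀ z ∈ Z, ∀ x ∈ K, z * x = x * z) (hZK : Z ≤ K)
    (hv0 : a0 * v0 * b0⁻¹ ∈ K) (hb0 : b0 ∈ Ω) {v : G}
    (hv : v ∈ S ^ k) (hvZ : (a0 * v0 * b0⁻¹)⁻¹ * (a0 * v * b0⁻¹) ∈ Z) {N i : ℕ} {a u : G}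
    (h : RPath S K Ω k a0 b0 v0 N i a u) (hi : 0 < i) :
    ∃ u', RPath S K Ω k a0 b0 v0 N (i - 1) a u' ∧
      u' * a⁻¹ = u * a⁻¹ * ((a0 * v0 * b0⁻¹)⁻¹ * (a0 * v * b0⁻¹)) := by
  set ζ := (a0 * v0 * b0⁻¹)⁻¹ * (a0 * v * b0⁻¹) with hζ
  have hvK : a0 * v * b0⁻¹ ∈ K := by
    have : a0 * v * b0⁻¹ = (a0 * v0 * b0⁻¹) * ζ := by rw [hζ]; group
    rw [this]; exact K.mul_mem hv0 (hZK hvZ)
  induction h with
  | nil => omega
  | @step N i a u b w hp h1 h2 h3 ih =>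
    obtain ⟨u', hu', he⟩ := ih hi
    refine ⟨u' * w, RPath.step hu' h1 h2 h3, ?_⟩
    calc u' * w * b⁻¹ = (u' * a⁻¹) * (a * w * b⁻¹) := by group
      _ = (u * a⁻¹) * (ζ * (a * w * b⁻¹)) := by rw [he]; group
      _ = (u * a⁻¹) * ((a * w * b⁻¹) * ζ) := by rw [hZ ζ hvZ _ h2]
      _ = u * w * b⁻¹ * ζ := by group
  | @ref N i u hp ih =>
    refine ⟨u * v, ?_, ?_⟩
    · exact RPath.step hp hv hvK hb0
    · rw [hζ]; group

/-- Splitting at a reference block. -/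
lemma RPath.split (hv0 : a0 * v0 * b0⁻¹ ∈ K) (hv0k : v0 ∈ S ^ k) {N i : ℕ} {a u : G}
    (h : RPath S K Ω k a0 b0 v0 N i a u) (hi : 0 < i) :
    ∃ (u1 u2 : G) (p q : ℕ), u = u1 * v0 * u2 ∧ u1 ∈ S ^ (k * p) ∧ u2 ∈ S ^ (k * q) ∧
      u1 * a0⁻¹ ∈ K ∧ p + q + 1 = N := by
  induction h with
  | nil => omega
  | @step N i a u b w hp h1 h2 h3 ih =>
    obtain ⟨u1, u2, p, q, e1, e2, e3, e4, e5⟩ := ih hi
    refine ⟨u1, u2 * w, p, q + 1, by rw [e1]; group, e2, ?_, e4, by omega⟩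
    rw [Nat.mul_succ, pow_add]; exact Finset.mul_mem_mul e3 h1
  | @ref N i u hp ih =>
    refine ⟨u, 1, N, 0, by simp, hp.mem_pow hv0k, by simp, hp.mem_K hv0, by omega⟩

lemma CPath.compress (hZ : ∀ z ∈ Z, ∀ x ∈ K, z * x = x * z) (hv0 : a0 * v0 * b0⁻¹ ∈ K)
    {N i : ℕ} {a u : G} (h : CPath S K Z Ω k a0 b0 v0 N i a u) :
    ∃ (u' : G) (l : List G), RPath S K Ω k a0 b0 v0 N i a u' ∧ l.length = i ∧
      (∀ ζ ∈ l, ζ ∈ Z ∧ ∃ v ∈ S ^ k, ζ = (a0 * v0 * b0⁻¹)⁻¹ * (a0 * v * b0⁻¹)) ∧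
      u * a⁻¹ = u' * a⁻¹ * l.prod := by
  induction h with
  | nil => exact ⟨1, [], RPath.nil, rfl, by simp, by simp⟩
  | @step N i a u b w hp h1 h2 h3 ih =>
    obtain ⟨u', l, e1, e2, e3, e4⟩ := ih
    refine ⟨u' * w, l, RPath.step e1 h1 h2 h3, e2, e3, ?_⟩
    have hl : l.prod ∈ Z := Z.list_prod_mem (fun ζ hζ => (e3 ζ hζ).1)
    calc u * w * b⁻¹ = (u * a⁻¹) * (a * w * b⁻¹) := by group
      _ = (u' * a⁻¹) * (l.prod * (a * w * b⁻¹)) := by rw [e4]; group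
      _ = (u' * a⁻¹) * ((a * w * b⁻¹) * l.prod) := by rw [hZ _ hl _ h2]
      _ = u' * w * b⁻¹ * l.prod := by group
  | @mark N i u v hp h1 h2 ih =>
    obtain ⟨u', l, e1, e2, e3, e4⟩ := ih
    refine ⟨u' * v0, l ++ [(a0 * v0 * b0⁻¹)⁻¹ * (a0 * v * b0⁻¹)], RPath.ref e1, by simp [e2], ?_, ?_⟩
    · intro ζ hζ
      rcases List.mem_append.mp hζ with hζ | hζ
      · exact e3 ζ hζ
      · rw [List.mem_singleton] at hζ
        subst hζ
        exact ⟨h2, v, h1, rfl⟩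
    · have hl : l.prod ∈ Z := Z.list_prod_mem (fun ζ hζ => (e3 ζ hζ).1)
      rw [List.prod_append, List.prod_singleton]
      calc u * v * b0⁻¹ = (u * a0⁻¹) * (a0 * v0 * b0⁻¹) *
            ((a0 * v0 * b0⁻¹)⁻¹ * (a0 * v * b0⁻¹)) := by group
        _ = (u' * a0⁻¹) * (l.prod * (a0 * v0 * b0⁻¹)) *
            ((a0 * v0 * b0⁻¹)⁻¹ * (a0 * v * b0⁻¹)) := by rw [e4]; group
        _ = (u' * a0⁻¹) * ((a0 * v0 * b0⁻¹) * l.prod) *
            ((a0 * v0 * b0⁻¹)⁻¹ * (a0 * v * b0⁻¹)) := by rw [hZ _ hl _ hv0]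
        _ = u' * v0 * b0⁻¹ * (l.prod * ((a0 * v0 * b0⁻¹)⁻¹ * (a0 * v * b0⁻¹))) := by group

/-- Forgetting one mark. -/
lemma CPath.unmark (hZK : Z ≤ K) (hv0 : a0 * v0 * b0⁻¹ ∈ K) (hb0 : b0 ∈ Ω)
    {N i : ℕ} {a u : G} (h : CPath S K Z Ω k a0 b0 v0 N i a u) (hi : 0 < i) :
    CPath S K Z Ω k a0 b0 v0 N (i - 1) a u := by
  induction h with
  | nil => omega
  | @step N i a u b w hp h1 h2 h3 ih => exact CPath.step (ih hi) h1 h2 h3
  | @mark N i u v hp h1 h2 ih =>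
    have hvK : a0 * v * b0⁻¹ ∈ K := by
      have : a0 * v * b0⁻¹ = (a0 * v0 * b0⁻¹) * ((a0 * v0 * b0⁻¹)⁻¹ * (a0 * v * b0⁻¹)) := by group
      rw [this]; exact K.mul_mem hv0 (hZK h2)
    exact CPath.step hp h1 hvK hb0

lemma CPath.unmark_le (hZK : Z ≤ K) (hv0 : a0 * v0 * b0⁻¹ ∈ K) (hb0 : b0 ∈ Ω)
    {N i : ℕ} {a u : G} (h : CPath S K Z Ω k a0 b0 v0 N i a u) (T : ℕ) (hT : T ≤ i) :
    CPath S K Z Ω k a0 b0 v0 N T a u := by
  obtain ⟨d, rfl⟩ : ∃ d, i = T + d := ⟨i - T, by omega⟩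
  induction d with
  | zero => exact h
  | succ d ih => exact ih (CPath.unmark hZK hv0 hb0 h (by omega)) (by omega)

end paths

end Pool.Agent.H31.CR
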