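import Mathlib
import Pool.Agent.H31.CR.LemmaF
import Pool.Agent.H31.CR.Paths

set_option autoImplicit false

namespace Pool.Agent.H31.CR

open Finset Pointwise

section est
variable {G : Type*} [Group G] [DecidableEq G] (S : Finset G) (K Z : Subgroup G) (Ω : Finset G)
  (k : ℕ) (a0 b0 v0 : G) (N r : ℕ)

open Classical in
/-- Central elements with a path with `i` marked reference blocks. -/
noncomputable def Qset (i : ℕ) : Finset Z :=
  ((S ^ (k * N + r)).subtype (· ∈ Z)).filter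
    (fun x => ∃ a u w, RPath S K Ω k a0 b0 v0 N i a u ∧ w ∈ S ^ r ∧ a * w ∈ K ∧ (x : G) = u * w)

open Classical in
/-- Central elements with a path with `i` marked blocks of the class. -/
noncomputable def Xset (i : ℕ) : Finset Z :=
  ((S ^ (k * N + r)).subtype (· ∈ Z)).filter
    (fun x => ∃ a u w, CPath S K Z Ω k a0 b0 v0 N i a u ∧ w ∈ S ^ r ∧ a * w ∈ K ∧ (x : G) = u * w)

open Classical in
/-- Differences of blocks of the class. -/
noncomputable def Dset : Finset Z :=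
  ((S ^ k).image (fun v => (a0 * v0 * b0⁻¹)⁻¹ * (a0 * v * b0⁻¹))).subtype (· ∈ Z)

lemma Dset_card : (Dset S Z k a0 b0 v0).card ≤ (S ^ k).card := by
  classical
  unfold Dset
  rw [Finset.card_subtype]
  exact (Finset.card_filter_le _ _).trans Finset.card_image_le

variable {S K Z Ω k a0 b0 v0 N r}

lemma list_prod_mem {A : Type*} [Group A] [DecidableEq A] {Z : Subgroup A} (D : Finset Z)
    (l : List A) (h : ∀ ζ ∈ l, ∃ hz : ζ ∈ Z, (⟨ζ, hz⟩ : Z) ∈ D) :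
    ∃ z : Z, (z : A) = l.prod ∧ z ∈ D ^ l.length := by
  induction l with
  | nil => exact ⟨1, by simp, by simp⟩
  | cons a l ih =>
    obtain ⟨z, hz1, hz2⟩ := ih (fun ζ hζ => h ζ (List.mem_cons_of_mem _ hζ))
    obtain ⟨ha, haD⟩ := h a List.mem_cons_self
    refine ⟨⟨a, ha⟩ * z, by simp [hz1], ?_⟩
    rw [List.length_cons, pow_succ']
    exact Finset.mul_mem_mul haD hz2

lemma Q_mul_D (hZ : ∀ z ∈ Z, ∀ x ∈ K, z * x = x * z) (hZK : Z ≤ K)
    (hv0 : a0 * v0 * b0⁻¹ ∈ K) (hv0k : v0 ∈ S ^ k) (hb0 : b0 ∈ Ω) (i : ℕ) :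
    Qset S K Z Ω k a0 b0 v0 N r (i + 1) * Dset S Z k a0 b0 v0 ⊆
      Qset S K Z Ω k a0 b0 v0 N r i := by
  classical
  intro y hy
  obtain ⟨x, hx, ζ, hζ, rfl⟩ := Finset.mem_mul.mp hy
  unfold Qset at hx ⊢
  rw [Finset.mem_filter] at hx ⊢
  obtain ⟨hx1, a, u, w, hp, hw, haw, hxu⟩ := hx
  unfold Dset at hζ
  rw [Finset.mem_subtype, Finset.mem_image] at hζ
  obtain ⟨v, hv, hvζ⟩ := hζ
  obtain ⟨u', hu', he⟩ := hp.replace hZ hZK hv0 hb0 hv (by rw [hvζ]; exact ζ.2) (by omega)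
  have hxy : ((x * ζ : Z) : G) = u' * w := by
    rw [Subgroup.coe_mul, hxu]
    calc u * w * (ζ : G) = (u * a⁻¹) * ((a * w) * ζ) := by group
      _ = (u * a⁻¹) * (ζ * (a * w)) := by rw [hZ ζ ζ.2 _ haw]
      _ = (u * a⁻¹ * ζ) * (a * w) := by group
      _ = (u' * a⁻¹) * (a * w) := by rw [he, hvζ]
      _ = u' * w := by group
  refine ⟨?_, a, u', w, by simpa using hu', hw, haw, hxy⟩
  rw [Finset.mem_subtype, hxy, pow_add]
  exact Finset.mul_mem_mul (hu'.mem_pow hv0k) hw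

lemma Q_mul_D_pow (hZ : ∀ z ∈ Z, ∀ x ∈ K, z * x = x * z) (hZK : Z ≤ K)
    (hv0 : a0 * v0 * b0⁻¹ ∈ K) (hv0k : v0 ∈ S ^ k) (hb0 : b0 ∈ Ω) (i j : ℕ) :
    Qset S K Z Ω k a0 b0 v0 N r (i + j) * Dset S Z k a0 b0 v0 ^ j ⊆
      Qset S K Z Ω k a0 b0 v0 N r i := by
  classical
  induction j with
  | zero => simp
  | succ j ih =>
    rw [pow_succ', ← mul_assoc]
    refine (Finset.mul_subset_mul_right ?_).trans ih
    have := Q_mul_D (N := N) (r := r) hZ hZK hv0 hv0k hb0 (i + j)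
    rwa [show i + (j + 1) = i + j + 1 by ring]

lemma X_subset (hZ : ∀ z ∈ Z, ∀ x ∈ K, z * x = x * z)
    (hv0 : a0 * v0 * b0⁻¹ ∈ K) (hv0k : v0 ∈ S ^ k) (T : ℕ) :
    Xset S K Z Ω k a0 b0 v0 N r T ⊆
      Qset S K Z Ω k a0 b0 v0 N r T * Dset S Z k a0 b0 v0 ^ T := by
  classical
  intro x hx
  unfold Xset at hx
  rw [Finset.mem_filter] at hx
  obtain ⟨hx1, a, u, w, hp, hw, haw, hxu⟩ := hx
  obtain ⟨u', l, e1, e2, e3, e4⟩ := hp.compress hZ hv0
  obtain ⟨z, hz1, hz2⟩ := list_prod_mem (Dset S Z k a0 b0 v0) l (fun ζ hζ => by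
    obtain ⟨h1, v, hv, hvζ⟩ := e3 ζ hζ
    refine ⟨h1, ?_⟩
    unfold Dset
    rw [Finset.mem_subtype, Finset.mem_image]
    exact ⟨v, hv, hvζ.symm⟩)
  rw [e2] at hz2
  have hxz : ((x * z⁻¹ : Z) : G) = u' * w := by
    have h1 : (x : G) = u' * w * z := by
      rw [hxu, hz1]
      have hl : l.prod ∈ Z := Z.list_prod_mem (fun ζ hζ => (e3 ζ hζ).1)
      calc u * w = (u * a⁻¹) * (a * w) := by group
        _ = (u' * a⁻¹) * (l.prod * (a * w)) := by rw [e4]; group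
        _ = (u' * a⁻¹) * ((a * w) * l.prod) := by rw [hZ _ hl _ haw]
        _ = u' * w * l.prod := by group
    rw [Subgroup.coe_mul, Subgroup.coe_inv, h1]; group
  refine Finset.mem_mul.mpr ⟨x * z⁻¹, ?_, z, hz2, by group⟩
  unfold Qset
  rw [Finset.mem_filter]
  refine ⟨?_, a, u', w, e1, hw, haw, hxz⟩
  rw [Finset.mem_subtype, hxz, pow_add]
  exact Finset.mul_mem_mul (e1.mem_pow hv0k) hw

lemma X_card_le (hZ : ∀ z ∈ Z, ∀ x ∈ K, z * x = x * z) (hZK : Z ≤ K)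
    (hv0 : a0 * v0 * b0⁻¹ ∈ K) (hv0k : v0 ∈ S ^ k) (hb0 : b0 ∈ Ω) (T j : ℕ) (hj : j ≤ T) :
    (T - j + 1) ^ (Dset S Z k a0 b0 v0).card * (Xset S K Z Ω k a0 b0 v0 N r T).card ≤
      (T + 1) ^ (Dset S Z k a0 b0 v0).card * (Qset S K Z Ω k a0 b0 v0 N r j).card := by
  classical
  have hc : ∀ x y : Z, x * y = y * x := fun x y => by
    apply Subtype.ext
    rw [Subgroup.coe_mul, Subgroup.coe_mul]
    exact hZ x x.2 y (hZK y.2)
  have h1 := Finset.card_le_card (X_subset (Ω := Ω) (N := N) (r := r) hZ hv0 hv0k T)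
  have h2 := level_card' hc (Qset S K Z Ω k a0 b0 v0 N r T) (Dset S Z k a0 b0 v0) (T - j) T
    (Nat.sub_le _ _)
  have h3 : Qset S K Z Ω k a0 b0 v0 N r T * Dset S Z k a0 b0 v0 ^ (T - j) ⊆
      Qset S K Z Ω k a0 b0 v0 N r j := by
    have := Q_mul_D_pow (N := N) (r := r) hZ hZK hv0 hv0k hb0 j (T - j)
    rwa [show j + (T - j) = T by omega] at this
  calc _ ≤ (T - j + 1) ^ (Dset S Z k a0 b0 v0).card *
        (Qset S K Z Ω k a0 b0 v0 N r T * Dset S Z k a0 b0 v0 ^ T).card :=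
        Nat.mul_le_mul_left _ h1
    _ ≤ _ := h2
    _ ≤ _ := Nat.mul_le_mul_left _ (Finset.card_le_card h3)

lemma Q_one_card (hZ : ∀ z ∈ Z, ∀ x ∈ K, z * x = x * z)
    (hv0 : a0 * v0 * b0⁻¹ ∈ K) (hv0k : v0 ∈ S ^ k) (hN : 1 ≤ N) :
    nu S Z b0 k * (Qset S K Z Ω k a0 b0 v0 N r 1).card ≤ (S ^ (k * N + r)).card := by
  classical
  set Y : Finset G := (Qset S K Z Ω k a0 b0 v0 N r 1).image
    (fun x : Z => v0⁻¹ * a0⁻¹ * (x : G) * a0) with hY
  have hcard : Y.card = (Qset S K Z Ω k a0 b0 v0 N r 1).card := by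
    apply Finset.card_image_of_injective
    intro x y hxy
    apply Subtype.ext
    simpa using hxy
  rw [← hcard]
  have hNk : k * N + r = k + (k * (N - 1) + r) := by
    obtain ⟨N', rfl⟩ : ∃ N', N = N' + 1 := ⟨N - 1, by omega⟩
    rw [Nat.add_sub_cancel, Nat.mul_succ]; ring
  rw [hNk]
  apply coset_bound S Z b0 ((a0 * v0 * b0⁻¹)⁻¹ * a0)
  · intro y hy
    obtain ⟨x, hx, rfl⟩ := Finset.mem_image.mp hy
    unfold Qset at hx
    rw [Finset.mem_filter] at hx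
    obtain ⟨_, a, u, w, hp, hw, haw, hxu⟩ := hx
    obtain ⟨u1, u2, p, q, e1, e2, e3, e4, e5⟩ := hp.split hv0 hv0k one_pos
    have hcomm := hZ x x.2 _ e4
    have h1 : v0⁻¹ * a0⁻¹ * (x : G) * a0 = u2 * w * u1 := by
      have h2 : (x : G) = (u1 * a0⁻¹)⁻¹ * x * (u1 * a0⁻¹) := by
        rw [mul_assoc, hcomm]; group
      rw [h2, hxu, e1]; group
    rw [h1]
    have h3 : k * (N - 1) + r = k * q + r + k * p := by
      have : N - 1 = p + q := by omega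
      rw [this]; ring
    rw [h3, pow_add, pow_add]
    exact Finset.mul_mem_mul (Finset.mul_mem_mul e3 hw) e2
  · intro y hy
    obtain ⟨x, hx, rfl⟩ := Finset.mem_image.mp hy
    refine ⟨x, x.2, ?_⟩
    have := hZ x x.2 _ (K.inv_mem hv0)
    calc v0⁻¹ * a0⁻¹ * (x : G) * a0 = b0⁻¹ * ((a0 * v0 * b0⁻¹)⁻¹ * x) * a0 := by group
      _ = b0⁻¹ * (x * (a0 * v0 * b0⁻¹)⁻¹) * a0 := by rw [this]
      _ = _ := by group

lemma Q_short_card (hk : 1 ≤ k) (hv0s : v0 ∈ S ^ (k - 1)) (j : ℕ) (hj : j ≤ k * N) :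
    nu S Z 1 j * (Qset S K Z Ω k a0 b0 v0 N r j).card ≤ (S ^ (k * N + r)).card := by
  classical
  set Y : Finset G := (Qset S K Z Ω k a0 b0 v0 N r j).image (fun x : Z => (x : G)) with hY
  have hcard : Y.card = (Qset S K Z Ω k a0 b0 v0 N r j).card := by
    apply Finset.card_image_of_injective
    exact Subtype.coe_injective
  rw [← hcard]
  have hNk : k * N + r = j + (k * N - j + r) := by omega
  rw [hNk]
  apply coset_bound S Z 1 1
  · intro y hy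
    obtain ⟨x, hx, rfl⟩ := Finset.mem_image.mp hy
    unfold Qset at hx
    rw [Finset.mem_filter] at hx
    obtain ⟨_, a, u, w, hp, hw, haw, hxu⟩ := hx
    rw [hxu, pow_add]
    exact Finset.mul_mem_mul (hp.mem_pow_short hk hv0s).2 hw
  · intro y hy
    obtain ⟨x, hx, rfl⟩ := Finset.mem_image.mp hy
    exact ⟨x, x.2, by simp⟩

end est

end Pool.Agent.H31.CR
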