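import Mathlib
import Pool.Agent.H31.CR.LemmaF
import Pool.Agent.H31.CR.Paths
import Pool.Agent.H31.CR.ClassEst

set_option autoImplicit false

namespace Pool.Agent.H31.CR

open Finset Pointwise

section blocks
variable {G : Type*} [Group G] [DecidableEq G] (S : Finset G) (K Z : Subgroup G) (Ω : Finset G)
  (k : ℕ)

/-- Paths of letters with states in `Ω`. -/
inductive LPath : ℕ → G → G → Prop
  | nil : LPath 0 1 1
  | step {n : ℕ} {a u b s : G} : LPath n a u → s ∈ S → a * s * b⁻¹ ∈ K → b ∈ Ω →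
      LPath (n + 1) b (u * s)

/-- The class of a block. -/
def cls (a b v : G) : G × G × (G ⧸ Z) := (a, b, ((a * v * b⁻¹ : G) : G ⧸ Z))

/-- Paths of blocks, with the list of the classes. -/
inductive BPath : List (G × G × (G ⧸ Z)) → G → G → Prop
  | nil : BPath [] 1 1
  | step {l : List (G × G × (G ⧸ Z))} {a u b v : G} : BPath l a u → v ∈ S ^ k →
      a * v * b⁻¹ ∈ K → b ∈ Ω → BPath (cls Z a b v :: l) b (u * v)

open Classical in
/-- The set of classes. -/
noncomputable def Cset : Finset (G × G × (G ⧸ Z)) :=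
  ((Ω ×ˢ Ω ×ˢ (S ^ k)).filter (fun t => t.1 * t.2.2 * t.2.1⁻¹ ∈ K)).image
    (fun t => cls Z t.1 t.2.1 t.2.2)

open Classical in
/-- Central elements with a letter path. -/
noncomputable def Eset (n : ℕ) : Finset Z :=
  ((S ^ n).subtype (· ∈ Z)).filter (fun x => LPath S K Ω n 1 x)

variable {S K Z Ω k}

lemma LPath.cut (hk : 1 ≤ k) {n : ℕ} {a u : G} (h : LPath S K Ω n a u) :
    ∃ (l : List (G × G × (G ⧸ Z))) (a' u' w : G), BPath S K Z Ω k l a' u' ∧ l.length = n / k ∧
      w ∈ S ^ (n % k) ∧ u = u' * w ∧ a' * w * a⁻¹ ∈ K := by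
  induction h with
  | nil => exact ⟨[], 1, 1, 1, BPath.nil, by simp, by simp, by simp, by simp⟩
  | @step n a u b s hp h1 h2 h3 ih =>
    obtain ⟨l, a', u', w, e1, e2, e3, e4, e5⟩ := ih
    have h6 : a' * (w * s) * b⁻¹ ∈ K := by
      have : a' * (w * s) * b⁻¹ = (a' * w * a⁻¹) * (a * s * b⁻¹) := by group
      rw [this]; exact K.mul_mem e5 h2
    have hws : w * s ∈ S ^ (n % k + 1) := by
      rw [pow_succ]; exact Finset.mul_mem_mul e3 h1
    have hdiv := Nat.div_add_mod n k
    have hlt := Nat.mod_lt n (show 0 < k by omega)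
    by_cases hc : n % k + 1 = k
    · refine ⟨cls Z a' b (w * s) :: l, b, u' * (w * s), 1, BPath.step e1 (by rwa [hc] at hws) h6 h3,
        ?_, ?_, by rw [e4]; group, by simp⟩
      · have : n + 1 = k * (n / k + 1) := by rw [Nat.mul_succ]; omega
        rw [List.length_cons, e2, this, Nat.mul_div_cancel_left _ (by omega)]
      · have : n + 1 = k * (n / k + 1) := by rw [Nat.mul_succ]; omega
        rw [this, Nat.mul_mod_right]; simp
    · have h7 : n % k + 1 < k := by omega
      have h8 : n + 1 = (n % k + 1) + k * (n / k) := by omega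
      refine ⟨l, a', u', w * s, e1, ?_, ?_, by rw [e4]; group, h6⟩
      · rw [e2]
        conv_rhs => rw [h8]
        rw [Nat.add_mul_div_left _ _ (by omega), Nat.div_eq_of_lt h7, zero_add]
      · have : (n + 1) % k = n % k + 1 := by
          conv_lhs => rw [h8]
          rw [Nat.add_mul_mod_self_left, Nat.mod_eq_of_lt h7]
        rw [this]; exact hws

lemma BPath.mem_Ω (h1 : (1 : G) ∈ Ω) {l : List (G × G × (G ⧸ Z))} {a u : G}
    (h : BPath S K Z Ω k l a u) : a ∈ Ω := by
  cases h with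
  | nil => exact h1
  | step _ _ _ h3 => exact h3

lemma BPath.mem_Cset (h1 : (1 : G) ∈ Ω) {l : List (G × G × (G ⧸ Z))} {a u : G}
    (h : BPath S K Z Ω k l a u) : ∀ κ ∈ l, κ ∈ Cset S K Z Ω k := by
  classical
  induction h with
  | nil => simp
  | @step l a u b v hp hv h2 h3 ih =>
    intro κ hκ
    rcases List.mem_cons.mp hκ with rfl | hκ
    · unfold Cset
      refine Finset.mem_image.mpr ⟨(a, b, v), ?_, rfl⟩
      rw [Finset.mem_filter, Finset.mem_product, Finset.mem_product]
      exact ⟨⟨hp.mem_Ω h1, h3, hv⟩, h2⟩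
    · exact ih κ hκ

open Classical in
lemma BPath.toC {a0 b0 v0 : G} {l : List (G × G × (G ⧸ Z))} {a u : G}
    (h : BPath S K Z Ω k l a u) :
    CPath S K Z Ω k a0 b0 v0 l.length (l.count (cls Z a0 b0 v0)) a u := by
  induction h with
  | nil => simpa using CPath.nil
  | @step l a u b v hp hv h2 h3 ih =>
    by_cases hc : cls Z a b v = cls Z a0 b0 v0
    · rw [hc, List.length_cons, List.count_cons_self]
      unfold cls at hc
      rw [Prod.mk.injEq, Prod.mk.injEq] at hc
      obtain ⟨rfl, rfl, h4⟩ := hc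
      refine CPath.mark ih hv ?_
      rw [← QuotientGroup.eq]
      exact h4.symm
    · rw [List.length_cons, List.count_cons_of_ne hc]
      exact CPath.step ih hv h2 h3

lemma mem_Cset {κ : G × G × (G ⧸ Z)} (h : κ ∈ Cset S K Z Ω k) :
    ∃ a ∈ Ω, ∃ b ∈ Ω, ∃ v ∈ S ^ k, a * v * b⁻¹ ∈ K ∧ κ = cls Z a b v := by
  classical
  unfold Cset at h
  obtain ⟨⟨a, b, v⟩, h1, rfl⟩ := Finset.mem_image.mp h
  rw [Finset.mem_filter, Finset.mem_product, Finset.mem_product] at h1
  exact ⟨a, h1.1.1, b, h1.1.2.1, v, h1.1.2.2, h1.2, rfl⟩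

end blocks

end Pool.Agent.H31.CR
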