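import Mathlib
import Pool.Agent.H31.CR.LemmaF
import Pool.Agent.H31.CR.Paths
import Pool.Agent.H31.CR.ClassEst
import Pool.Agent.H31.CR.Blocks

set_option autoImplicit false

namespace Pool.Agent.H31.CR

open Finset Pointwise

lemma pow_bound (d j T : ℕ) (hj : j ≤ T) (h : d * j ≤ T - j + 1) :
    (T + 1) ^ d ≤ 3 * (T - j + 1) ^ d := by
  have h1 : ((T : ℝ) + 1) ^ d ≤ 3 * ((T - j : ℕ) + 1 : ℝ) ^ d := by
    set A : ℝ := ((T - j : ℕ) : ℝ) + 1 with hA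
    have hApos : 0 < A := by positivity
    have hT : (T : ℝ) + 1 = A * (1 + (j : ℝ) / A) := by
      have : ((T - j : ℕ) : ℝ) = (T : ℝ) - j := by push_cast [hj]; ring
      field_simp
      rw [hA, this]; ring
    rw [hT, mul_pow]
    have h2 : (1 + (j : ℝ) / A) ^ d ≤ 3 := by
      have h3 : 1 + (j : ℝ) / A ≤ Real.exp ((j : ℝ) / A) := by
        have := Real.add_one_le_exp ((j : ℝ) / A); linarith
      have h4 : (0 : ℝ) ≤ (j : ℝ) / A := by positivity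
      calc (1 + (j : ℝ) / A) ^ d ≤ (Real.exp ((j : ℝ) / A)) ^ d :=
            pow_le_pow_left₀ (by positivity) h3 d
        _ = Real.exp (d * ((j : ℝ) / A)) := by rw [Real.exp_nat_mul]
        _ ≤ Real.exp 1 := by
            apply Real.exp_le_exp.mpr
            rw [← mul_div_assoc, div_le_one hApos, hA]
            exact_mod_cast h
        _ ≤ 3 := by have := Real.exp_one_lt_d9; linarith
    calc A ^ d * (1 + (j : ℝ) / A) ^ d ≤ A ^ d * 3 :=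
          mul_le_mul_of_nonneg_left h2 (by positivity)
      _ = 3 * A ^ d := by ring
  exact_mod_cast h1

section bounds
variable {G : Type*} [Group G] [DecidableEq G] {S : Finset G} {K Z : Subgroup G} {Ω : Finset G}
  {k : ℕ} {a0 b0 v0 : G} {N r : ℕ}

lemma X_le_Q (hZ : ∀ z ∈ Z, ∀ x ∈ K, z * x = x * z) (hZK : Z ≤ K)
    (hv0 : a0 * v0 * b0⁻¹ ∈ K) (hv0k : v0 ∈ S ^ k) (hb0 : b0 ∈ Ω) (T j : ℕ) (hj : j ≤ T)
    (hT : (S ^ k).card * j ≤ T - j + 1) :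
    (Xset S K Z Ω k a0 b0 v0 N r T).card ≤ 3 * (Qset S K Z Ω k a0 b0 v0 N r j).card := by
  have h1 := X_card_le (N := N) (r := r) hZ hZK hv0 hv0k hb0 T j hj
  have h2 := pow_bound (Dset S Z k a0 b0 v0).card j T hj
    ((Nat.mul_le_mul_right _ (Dset_card S Z k a0 b0 v0)).trans hT)
  have h3 : (T - j + 1) ^ (Dset S Z k a0 b0 v0).card * (Xset S K Z Ω k a0 b0 v0 N r T).card ≤
      (T - j + 1) ^ (Dset S Z k a0 b0 v0).card * (3 * (Qset S K Z Ω k a0 b0 v0 N r j).card) := by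
    calc _ ≤ _ := h1
      _ ≤ 3 * (T - j + 1) ^ (Dset S Z k a0 b0 v0).card * (Qset S K Z Ω k a0 b0 v0 N r j).card :=
        Nat.mul_le_mul_right _ h2
      _ = _ := by ring
  exact Nat.le_of_mul_le_mul_left h3 (by positivity)

lemma X_general (hZ : ∀ z ∈ Z, ∀ x ∈ K, z * x = x * z) (hZK : Z ≤ K)
    (hv0 : a0 * v0 * b0⁻¹ ∈ K) (hv0k : v0 ∈ S ^ k) (hb0 : b0 ∈ Ω) (T : ℕ) (hT1 : 1 ≤ T)
    (hT : (S ^ k).card ≤ T) (hN : 1 ≤ N) :
    nu S Z b0 k * (Xset S K Z Ω k a0 b0 v0 N r T).card ≤ 3 * (S ^ (k * N + r)).card := by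
  have h1 := X_le_Q (N := N) (r := r) hZ hZK hv0 hv0k hb0 T 1 hT1 (by omega)
  have h2 := Q_one_card (Ω := Ω) (r := r) hZ hv0 hv0k hN
  calc _ ≤ nu S Z b0 k * (3 * (Qset S K Z Ω k a0 b0 v0 N r 1).card) := Nat.mul_le_mul_left _ h1
    _ = 3 * (nu S Z b0 k * (Qset S K Z Ω k a0 b0 v0 N r 1).card) := by ring
    _ ≤ _ := Nat.mul_le_mul_left _ h2

lemma X_slack (h1S : (1 : G) ∈ S) (hk : 1 ≤ k) (hZ : ∀ z ∈ Z, ∀ x ∈ K, z * x = x * z) (hZK : Z ≤ K)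
    (hv0 : a0 * v0 * b0⁻¹ ∈ K) (hv0s : v0 ∈ S ^ (k - 1)) (hb0 : b0 ∈ Ω) (T j : ℕ)
    (hj : j ≤ T) (hT : (S ^ k).card * j ≤ T - j + 1) (hN : j ≤ k * N) :
    nu S Z 1 j * (Xset S K Z Ω k a0 b0 v0 N r T).card ≤ 3 * (S ^ (k * N + r)).card := by
  have hv0k : v0 ∈ S ^ k := Finset.pow_subset_pow_right h1S (Nat.sub_le k 1) hv0s
  have h1 := X_le_Q (N := N) (r := r) hZ hZK hv0 hv0k hb0 T j hj hT
  have h2 := Q_short_card (K := K) (Z := Z) (Ω := Ω) (a0 := a0) (b0 := b0) (r := r) hk hv0s j hN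
  calc _ ≤ nu S Z 1 j * (3 * (Qset S K Z Ω k a0 b0 v0 N r j).card) := Nat.mul_le_mul_left _ h1
    _ = 3 * (nu S Z 1 j * (Qset S K Z Ω k a0 b0 v0 N r j).card) := by ring
    _ ≤ _ := Nat.mul_le_mul_left _ h2

variable (S K Z Ω k N r)

open Classical in
/-- Central elements with a block path containing at least `T` blocks of class `κ`. -/
noncomputable def XC (κ : G × G × (G ⧸ Z)) (T : ℕ) : Finset Z :=
  ((S ^ (k * N + r)).subtype (· ∈ Z)).filter (fun x => ∃ l a u w, BPath S K Z Ω k l a u ∧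
    l.length = N ∧ T ≤ l.count κ ∧ w ∈ S ^ r ∧ a * w ∈ K ∧ (x : G) = u * w)

variable {S K Z Ω k N r}

lemma XC_subset (hZK : Z ≤ K) (hv0 : a0 * v0 * b0⁻¹ ∈ K) (hb0 : b0 ∈ Ω) (T : ℕ) :
    XC S K Z Ω k N r (cls Z a0 b0 v0) T ⊆ Xset S K Z Ω k a0 b0 v0 N r T := by
  classical
  intro x hx
  unfold XC at hx
  unfold Xset
  rw [Finset.mem_filter] at hx ⊢
  obtain ⟨h1, l, a, u, w, h2, h3, h4, h5, h6, h7⟩ := hx
  refine ⟨h1, a, u, w, ?_, h5, h6, h7⟩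
  have := h2.toC (a0 := a0) (b0 := b0) (v0 := v0)
  rw [h3] at this
  exact this.unmark_le hZK hv0 hb0 T h4

lemma XC_general (hZ : ∀ z ∈ Z, ∀ x ∈ K, z * x = x * z) (hZK : Z ≤ K)
    {κ : G × G × (G ⧸ Z)} (hκ : κ ∈ Cset S K Z Ω k) (T : ℕ) (hT1 : 1 ≤ T)
    (hT : (S ^ k).card ≤ T) (hN : 1 ≤ N) :
    nu S Z κ.2.1 k * (XC S K Z Ω k N r κ T).card ≤ 3 * (S ^ (k * N + r)).card := by
  obtain ⟨a, ha, b, hb, v, hv, hK, rfl⟩ := mem_Cset hκ
  refine (Nat.mul_le_mul_left _ (Finset.card_le_card (XC_subset hZK hK hb T))).trans ?_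
  exact X_general hZ hZK hK hv hb T hT1 hT hN

lemma XC_slack (h1S : (1 : G) ∈ S) (hk : 1 ≤ k) (hZ : ∀ z ∈ Z, ∀ x ∈ K, z * x = x * z) (hZK : Z ≤ K)
    (hv0 : a0 * v0 * b0⁻¹ ∈ K) (hv0s : v0 ∈ S ^ (k - 1)) (hb0 : b0 ∈ Ω) (T j : ℕ)
    (hj : j ≤ T) (hT : (S ^ k).card * j ≤ T - j + 1) (hN : j ≤ k * N) :
    nu S Z 1 j * (XC S K Z Ω k N r (cls Z a0 b0 v0) T).card ≤ 3 * (S ^ (k * N + r)).card := by
  refine (Nat.mul_le_mul_left _ (Finset.card_le_card (XC_subset hZK hv0 hb0 T))).trans ?_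
  exact X_slack h1S hk hZ hZK hv0 hv0s hb0 T j hj hT hN

lemma count_sum {α : Type*} [BEq α] [LawfulBEq α] (l : List α) (C : Finset α) (h : ∀ x ∈ l, x ∈ C) :
    ∑ κ ∈ C, l.count κ = l.length := by
  classical
  induction l with
  | nil => simp
  | cons a l ih =>
    rw [List.length_cons, ← ih (fun x hx => h x (List.mem_cons_of_mem _ hx))]
    have : ∀ κ ∈ C, (a :: l).count κ = l.count κ + if κ = a then 1 else 0 := by
      intro κ _
      rw [List.count_cons]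
      congr 1
      by_cases hc : κ = a
      · subst hc; simp
      · rw [if_neg hc, if_neg (by simpa using fun h => hc h.symm)]
    rw [Finset.sum_congr rfl this, Finset.sum_add_distrib, Finset.sum_ite_eq', if_pos (h a List.mem_cons_self)]

/-- membership in `Eset` gives a block path -/
lemma Eset_path (hk : 1 ≤ k) {n : ℕ} {x : Z} (hx : x ∈ Eset S K Z Ω n) :
    ∃ l a u w, BPath S K Z Ω k l a u ∧ l.length = n / k ∧ w ∈ S ^ (n % k) ∧ a * w ∈ K ∧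
      (x : G) = u * w := by
  classical
  unfold Eset at hx
  rw [Finset.mem_filter] at hx
  obtain ⟨l, a, u, w, h1, h2, h3, h4, h5⟩ := hx.2.cut (Z := Z) hk
  exact ⟨l, a, u, w, h1, h2, h3, by simpa using h5, h4⟩

lemma Eset_subset_biUnion (h1Ω : (1 : G) ∈ Ω) (hk : 1 ≤ k) (T n : ℕ)
    (hn1 : 1 ≤ n / k) (hn : T * (Cset S K Z Ω k).card ≤ n / k) :
    Eset S K Z Ω n ⊆ (Cset S K Z Ω k).biUnion (fun κ => XC S K Z Ω k (n / k) (n % k) κ T) := by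
  classical
  intro x hx
  obtain ⟨l, a, u, w, h1, h2, h3, h4, h5⟩ := Eset_path hk hx
  have h6 := count_sum l (Cset S K Z Ω k) (h1.mem_Cset h1Ω)
  have h7 : ∃ κ ∈ Cset S K Z Ω k, T ≤ l.count κ := by
    by_contra hcon
    push Not at hcon
    rcases (Cset S K Z Ω k).eq_empty_or_nonempty with he | hne
    · rw [he, Finset.sum_empty] at h6
      omega
    · have : ∑ κ ∈ Cset S K Z Ω k, l.count κ < ∑ κ ∈ Cset S K Z Ω k, T :=
        Finset.sum_lt_sum_of_nonempty hne hcon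
      rw [Finset.sum_const, smul_eq_mul, h6, h2, mul_comm] at this
      omega
  obtain ⟨κ, hκ, hT⟩ := h7
  rw [Finset.mem_biUnion]
  refine ⟨κ, hκ, ?_⟩
  unfold XC
  rw [Finset.mem_filter]
  refine ⟨?_, l, a, u, w, h1, h2, hT, h3, h4, h5⟩
  unfold Eset at hx
  rw [Finset.mem_filter] at hx
  rw [Nat.div_add_mod]
  exact hx.1

end bounds

end Pool.Agent.H31.CR
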