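import Mathlib
import Pool.Agent.H31.CR.LemmaF
import Pool.Agent.H31.CR.Paths
import Pool.Agent.H31.CR.ClassEst
import Pool.Agent.H31.CR.Blocks
import Pool.Agent.H31.CR.Counting

set_option autoImplicit false

namespace Pool.Agent.H31.CR

open Finset Pointwise

section caseone
variable {G : Type*} [Group G] [DecidableEq G] {S : Finset G} {K Z : Subgroup G} {Ω : Finset G}
  {k : ℕ}

open Classical in
/-- the set of left cosets counted by `nu` -/
noncomputable def nuset (S : Finset G) (Z : Subgroup G) (b : G) (j : ℕ) : Finset (G ⧸ Z) :=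
  (S ^ j).image (fun p => ((p * b⁻¹ : G) : G ⧸ Z))

lemma nu_eq (b : G) (j : ℕ) : nu S Z b j = (nuset S Z b j).card := rfl

lemma nuset_mono (h1S : (1 : G) ∈ S) (b : G) {i j : ℕ} (hij : i ≤ j) :
    nuset S Z b i ⊆ nuset S Z b j := by
  classical
  unfold nuset
  exact Finset.image_subset_image (Finset.pow_subset_pow_right h1S hij)

lemma nu_mono (h1S : (1 : G) ∈ S) (b : G) {i j : ℕ} (hij : i ≤ j) :
    nu S Z b i ≤ nu S Z b j := by
  rw [nu_eq, nu_eq]; exact Finset.card_le_card (nuset_mono h1S b hij)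

lemma nu_pos (h1S : (1 : G) ∈ S) (b : G) (j : ℕ) : 0 < nu S Z b j := by
  classical
  rw [nu_eq, Finset.card_pos]
  unfold nuset
  exact ⟨_, Finset.mem_image_of_mem _ (Finset.one_mem_pow h1S)⟩

lemma nu_le (b : G) (j : ℕ) : nu S Z b j ≤ (S ^ j).card := by
  classical
  exact Finset.card_image_le

omit [DecidableEq G] in
lemma smul_cls (a b v : G) : a⁻¹ • (cls Z a b v).2.2 = ((v * b⁻¹ : G) : G ⧸ Z) := by
  unfold cls
  rw [MulAction.Quotient.smul_coe]
  congr 1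
  simp only [smul_eq_mul]
  group

/-- a class with a representative of smaller length -/
def slack (S : Finset G) (K Z : Subgroup G) (k : ℕ) (κ : G × G × (G ⧸ Z)) : Prop :=
  ∃ a b v : G, v ∈ S ^ (k - 1) ∧ κ = cls Z a b v ∧ a * v * b⁻¹ ∈ K

lemma smul_mem_nuset {κ : G × G × (G ⧸ Z)} (h : κ ∈ Cset S K Z Ω k) :
    κ.1⁻¹ • κ.2.2 ∈ nuset S Z κ.2.1 k := by
  classical
  obtain ⟨a, ha, b, hb, v, hv, hK, rfl⟩ := mem_Cset h
  have := smul_cls (Z := Z) a b v
  change a⁻¹ • (cls Z a b v).2.2 ∈ nuset S Z b k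
  rw [this]
  exact Finset.mem_image_of_mem _ hv

lemma smul_not_mem (hZK : Z ≤ K) {κ : G × G × (G ⧸ Z)} (h : κ ∈ Cset S K Z Ω k)
    (hs : ¬ slack S K Z k κ) :
    κ.1⁻¹ • κ.2.2 ∉ nuset S Z κ.2.1 (k - 1) := by
  classical
  obtain ⟨a, ha, b, hb, v, hv, hK, rfl⟩ := mem_Cset h
  intro hmem
  apply hs
  have h1 := smul_cls (Z := Z) a b v
  change a⁻¹ • (cls Z a b v).2.2 ∈ nuset S Z b (k - 1) at hmem
  rw [h1] at hmem
  obtain ⟨p, hp, he⟩ := Finset.mem_image.mp hmem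
  rw [QuotientGroup.eq] at he
  have h2 : (a * p * b⁻¹)⁻¹ * (a * v * b⁻¹) ∈ Z := by
    have : (a * p * b⁻¹)⁻¹ * (a * v * b⁻¹) = (p * b⁻¹)⁻¹ * (v * b⁻¹) := by group
    rw [this]; exact he
  refine ⟨a, b, p, hp, ?_, ?_⟩
  · unfold cls
    rw [Prod.mk.injEq, Prod.mk.injEq]
    exact ⟨rfl, rfl, (QuotientGroup.eq.mpr h2).symm⟩
  · have : a * p * b⁻¹ = (a * v * b⁻¹) * ((a * p * b⁻¹)⁻¹ * (a * v * b⁻¹))⁻¹ := by group
    rw [this]
    exact K.mul_mem hK (K.inv_mem (hZK h2))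

open Classical in
lemma fiber_card (a b : G) :
    ((Cset S K Z Ω k).filter (fun κ => (κ.1, κ.2.1) = (a, b))).card ≤ nu S Z b k := by
  rw [nu_eq]
  apply Finset.card_le_card_of_injOn (fun κ => κ.1⁻¹ • κ.2.2)
  · intro κ hκ
    rw [Finset.mem_coe, Finset.mem_filter, Prod.mk.injEq] at hκ
    obtain ⟨h1, h2, h3⟩ := hκ
    have := smul_mem_nuset h1
    rw [← h3]
    exact this
  · intro κ hκ κ' hκ' he
    rw [Finset.mem_coe, Finset.mem_filter, Prod.mk.injEq] at hκ hκ'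
    obtain ⟨h1, h2, h3⟩ := hκ
    obtain ⟨h1', h2', h3'⟩ := hκ'
    simp only at he
    rw [h2, h2'] at he
    have h4 : κ.2.2 = κ'.2.2 := smul_left_cancel _ he
    exact Prod.ext (h2.trans h2'.symm) (Prod.ext (h3.trans h3'.symm) h4)

open Classical in
lemma fiber_card_nonslack (h1S : (1 : G) ∈ S) (hZK : Z ≤ K) (a b : G) :
    (((Cset S K Z Ω k).filter (fun κ => ¬ slack S K Z k κ)).filter
      (fun κ => (κ.1, κ.2.1) = (a, b))).card ≤ nu S Z b k - nu S Z b (k - 1) := by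
  rw [nu_eq, nu_eq, ← Finset.card_sdiff_of_subset (nuset_mono h1S b (Nat.sub_le k 1))]
  apply Finset.card_le_card_of_injOn (fun κ => κ.1⁻¹ • κ.2.2)
  · intro κ hκ
    rw [Finset.mem_coe, Finset.mem_filter, Finset.mem_filter, Prod.mk.injEq] at hκ
    obtain ⟨⟨h1, hs⟩, h2, h3⟩ := hκ
    have h4 := smul_mem_nuset h1
    have h5 := smul_not_mem hZK h1 hs
    rw [Finset.mem_coe, Finset.mem_sdiff, ← h3]
    exact ⟨h4, h5⟩
  · intro κ hκ κ' hκ' he
    rw [Finset.mem_coe, Finset.mem_filter, Finset.mem_filter, Prod.mk.injEq] at hκ hκ'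
    obtain ⟨h1, h2, h3⟩ := hκ
    obtain ⟨h1', h2', h3'⟩ := hκ'
    simp only at he
    rw [h2, h2'] at he
    have h4 : κ.2.2 = κ'.2.2 := smul_left_cancel _ he
    exact Prod.ext (h2.trans h2'.symm) (Prod.ext (h3.trans h3'.symm) h4)

open Classical in
lemma sum_class_le (C : Finset (G × G × (G ⧸ Z))) (hC : C ⊆ Cset S K Z Ω k) (f m : G → ℝ)
    (hf : ∀ b, 0 ≤ f b)
    (hm : ∀ a b : G, ((C.filter (fun κ => (κ.1, κ.2.1) = (a, b))).card : ℝ) ≤ m b) :
    ∑ κ ∈ C, f κ.2.1 ≤ Ω.card * ∑ b ∈ Ω, m b * f b := by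
  have h1 : ∀ κ ∈ C, (κ.1, κ.2.1) ∈ Ω ×ˢ Ω := by
    intro κ hκ
    obtain ⟨a, ha, b, hb, v, hv, hK, rfl⟩ := mem_Cset (hC hκ)
    exact Finset.mem_product.mpr ⟨ha, hb⟩
  rw [← Finset.sum_fiberwise_of_maps_to h1, Finset.sum_product]
  have h2 : ∀ a ∈ Ω, ∑ b ∈ Ω, ∑ κ ∈ C with (κ.1, κ.2.1) = (a, b), f κ.2.1 ≤
      ∑ b ∈ Ω, m b * f b := by
    intro a _
    apply Finset.sum_le_sum
    intro b _
    have h3 : ∀ κ ∈ C.filter (fun κ => (κ.1, κ.2.1) = (a, b)), f κ.2.1 = f b := by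
      intro κ hκ
      rw [Finset.mem_filter, Prod.mk.injEq] at hκ
      rw [hκ.2.2]
    rw [Finset.sum_congr rfl h3, Finset.sum_const, nsmul_eq_mul]
    exact mul_le_mul_of_nonneg_right (hm a b) (hf b)
  refine (Finset.sum_le_sum h2).trans ?_
  rw [Finset.sum_const, nsmul_eq_mul]

theorem case_one (h1S : (1 : G) ∈ S) (h1Ω : (1 : G) ∈ Ω) (hk : 1 ≤ k)
    (hZ : ∀ z ∈ Z, ∀ x ∈ K, z * x = x * z) (hZK : Z ≤ K)
    (hinf : ∀ M : ℕ, ∃ j, M ≤ nu S Z 1 j) (δ : ℝ) (hδ : 0 < δ)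
    (hsum : ∑ b ∈ Ω, ((nu S Z b k : ℝ) - nu S Z b (k - 1)) / nu S Z b k ≤ δ) :
    ∃ n0 : ℕ, ∀ n ≥ n0, ((Eset S K Z Ω n).card : ℝ) ≤
      (3 * Ω.card * δ + 3 * δ) * (S ^ n).card := by
  classical
  obtain ⟨j, hj⟩ := hinf (⌈((Cset S K Z Ω k).card : ℝ) / δ⌉₊)
  have hj' : ((Cset S K Z Ω k).card : ℝ) ≤ δ * nu S Z 1 j := by
    have h1 : ((Cset S K Z Ω k).card : ℝ) / δ ≤ nu S Z 1 j :=
      (Nat.le_ceil _).trans (by exact_mod_cast hj)
    rw [div_le_iff₀ hδ] at h1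
    linarith
  set c := (Cset S K Z Ω k).card with hc
  set T := j + (S ^ k).card * j + (S ^ k).card + 1 with hT
  refine ⟨k * (T * c + j + 1), fun n hn => ?_⟩
  have hN : T * c + j + 1 ≤ n / k := by
    rw [Nat.le_div_iff_mul_le (by omega), mul_comm]; exact hn
  have hnk : k * (n / k) + n % k = n := Nat.div_add_mod n k
  have hsub := Eset_subset_biUnion (S := S) (K := K) (Z := Z) h1Ω hk T n (by omega) (by rw [← hc]; omega)
  have h1 : ((Eset S K Z Ω n).card : ℝ) ≤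
      ∑ κ ∈ Cset S K Z Ω k, ((XC S K Z Ω k (n / k) (n % k) κ T).card : ℝ) := by
    have := (Finset.card_le_card hsub).trans Finset.card_biUnion_le
    exact_mod_cast this
  set s : ℝ := ((S ^ n).card : ℝ) with hs
  have hs0 : 0 ≤ s := by positivity
  have hg : ∀ κ ∈ Cset S K Z Ω k, ((XC S K Z Ω k (n / k) (n % k) κ T).card : ℝ) ≤
      3 * s / nu S Z κ.2.1 k := by
    intro κ hκ
    have h2 := XC_general (N := n / k) (r := n % k) hZ hZK hκ T (by omega) (by omega) (by omega)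
    rw [hnk] at h2
    have h3 : (0 : ℝ) < nu S Z κ.2.1 k := by exact_mod_cast nu_pos h1S _ _
    rw [le_div_iff₀ h3, mul_comm, hs]
    exact_mod_cast h2
  have hsl : ∀ κ ∈ (Cset S K Z Ω k).filter (fun κ => slack S K Z k κ),
      ((XC S K Z Ω k (n / k) (n % k) κ T).card : ℝ) ≤ 3 * s / nu S Z 1 j := by
    intro κ hκ
    rw [Finset.mem_filter] at hκ
    obtain ⟨a, b, v, hv, rfl, hK⟩ := hκ.2
    obtain ⟨a', ha', b', hb', v', hv', hK', he⟩ := mem_Cset hκ.1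
    have hbb : b = b' := by
      have := congrArg (fun t => t.2.1) he
      exact this
    subst hbb
    have hjN : j ≤ k * (n / k) := by
      calc j ≤ n / k := by omega
        _ ≤ k * (n / k) := Nat.le_mul_of_pos_left _ (by omega)
    have h2 := XC_slack (Ω := Ω) (N := n / k) (r := n % k) h1S hk hZ hZK hK hv hb' T j (by omega) (by omega) hjN
    rw [hnk] at h2
    have h3 : (0 : ℝ) < nu S Z 1 j := by exact_mod_cast nu_pos h1S _ _
    rw [le_div_iff₀ h3, mul_comm, hs]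
    exact_mod_cast h2
  have hsplit := Finset.sum_filter_add_sum_filter_not (Cset S K Z Ω k) (fun κ => slack S K Z k κ)
    (fun κ => ((XC S K Z Ω k (n / k) (n % k) κ T).card : ℝ))
  have hA : ∑ κ ∈ (Cset S K Z Ω k).filter (fun κ => slack S K Z k κ),
      ((XC S K Z Ω k (n / k) (n % k) κ T).card : ℝ) ≤ 3 * δ * s := by
    refine (Finset.sum_le_sum hsl).trans ?_
    rw [Finset.sum_const, nsmul_eq_mul]
    have h3 : (0 : ℝ) < nu S Z 1 j := by exact_mod_cast nu_pos h1S _ _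
    have h4 : ((((Cset S K Z Ω k).filter (fun κ => slack S K Z k κ)).card : ℕ) : ℝ) ≤ c := by
      rw [hc]; exact_mod_cast Finset.card_filter_le _ _
    rw [mul_div_assoc', div_le_iff₀ h3]
    calc _ ≤ (c : ℝ) * (3 * s) := mul_le_mul_of_nonneg_right h4 (by positivity)
      _ ≤ (δ * nu S Z 1 j) * (3 * s) := mul_le_mul_of_nonneg_right hj' (by positivity)
      _ = _ := by ring
  have hB : ∑ κ ∈ (Cset S K Z Ω k).filter (fun κ => ¬ slack S K Z k κ),
      ((XC S K Z Ω k (n / k) (n % k) κ T).card : ℝ) ≤ 3 * Ω.card * δ * s := by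
    refine (Finset.sum_le_sum (fun κ hκ => hg κ (Finset.mem_of_mem_filter κ hκ))).trans ?_
    refine (sum_class_le (Ω := Ω) (k := k) (K := K) (S := S) _ (Finset.filter_subset _ _)
      (fun b => 3 * s / nu S Z b k) (fun b => (nu S Z b k : ℝ) - nu S Z b (k - 1))
      (fun b => by positivity) ?_).trans ?_
    · intro a b
      have := fiber_card_nonslack (Ω := Ω) (k := k) h1S hZK a b
      rw [← Nat.cast_sub (nu_mono h1S b (Nat.sub_le k 1))]
      exact_mod_cast this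
    · have : ∑ b ∈ Ω, ((nu S Z b k : ℝ) - nu S Z b (k - 1)) * (3 * s / nu S Z b k) =
          3 * s * ∑ b ∈ Ω, ((nu S Z b k : ℝ) - nu S Z b (k - 1)) / nu S Z b k := by
        rw [Finset.mul_sum]
        apply Finset.sum_congr rfl
        intro b _
        ring
      rw [this]
      calc (Ω.card : ℝ) * (3 * s * ∑ b ∈ Ω, ((nu S Z b k : ℝ) - nu S Z b (k - 1)) / nu S Z b k)
          ≤ Ω.card * (3 * s * δ) := by
            apply mul_le_mul_of_nonneg_left _ (by positivity)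
            exact mul_le_mul_of_nonneg_left hsum (by positivity)
        _ = _ := by ring
  calc ((Eset S K Z Ω n).card : ℝ) ≤ _ := h1
    _ = _ := hsplit.symm
    _ ≤ 3 * δ * s + 3 * Ω.card * δ * s := add_le_add hA hB
    _ = _ := by ring

end caseone

end Pool.Agent.H31.CR
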