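import Mathlib
import Pool.Agent.H31.CR.LemmaF
import Pool.Agent.H31.CR.Paths
import Pool.Agent.H31.CR.ClassEst
import Pool.Agent.H31.CR.Blocks
import Pool.Agent.H31.CR.Counting
import Pool.Agent.H31.CR.CaseOne

set_option autoImplicit false

namespace Pool.Agent.H31.CR

open Finset Pointwise Filter

section lists
variable {α : Type*} [DecidableEq α]

/-- lists of length `N` over `C` with at most `m` entries outside `F` -/
def Lset (C F : Finset α) : ℕ → ℕ → Finset (List α)
  | 0, _ => {[]}
  | N + 1, 0 => (F ×ˢ Lset C F N 0).image (fun x => x.1 :: x.2)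
  | N + 1, m + 1 => (F ×ˢ Lset C F N (m + 1)).image (fun x => x.1 :: x.2) ∪
      (C ×ˢ Lset C F N m).image (fun x => x.1 :: x.2)

lemma mem_Lset (C F : Finset α) (l : List α) (hl : ∀ x ∈ l, x ∈ C) (m : ℕ)
    (hm : l.countP (fun x => decide (x ∉ F)) ≤ m) : l ∈ Lset C F l.length m := by
  induction l generalizing m with
  | nil => simp [Lset]
  | cons a l ih =>
    rw [List.length_cons]
    have hl' : ∀ x ∈ l, x ∈ C := fun x hx => hl x (List.mem_cons_of_mem _ hx)
    rw [List.countP_cons] at hm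
    by_cases ha : a ∈ F
    · have h1 : l.countP (fun x => decide (x ∉ F)) ≤ m := by omega
      have h2 := ih hl' m h1
      cases m with
      | zero =>
        unfold Lset
        exact Finset.mem_image.mpr ⟨(a, l), Finset.mem_product.mpr ⟨ha, h2⟩, rfl⟩
      | succ m =>
        unfold Lset
        exact Finset.mem_union_left _
          (Finset.mem_image.mpr ⟨(a, l), Finset.mem_product.mpr ⟨ha, h2⟩, rfl⟩)
    · rw [if_pos (by simpa using ha)] at hm
      cases m with
      | zero => omega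
      | succ m =>
        unfold Lset
        exact Finset.mem_union_right _ (Finset.mem_image.mpr ⟨(a, l),
          Finset.mem_product.mpr ⟨hl a List.mem_cons_self, ih hl' m (by omega)⟩, rfl⟩)

lemma card_Lset (C F : Finset α) (R c : ℕ) (hR : 1 ≤ R) (hc : 1 ≤ c) (hF : F.card ≤ R)
    (hC : C.card ≤ c) (N m : ℕ) : (Lset C F N m).card ≤ (2 * R) ^ N * c ^ m := by
  induction N generalizing m with
  | zero =>
    unfold Lset
    rw [Finset.card_singleton, pow_zero, one_mul]
    exact Nat.one_le_pow _ _ hc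
  | succ N ih =>
    cases m with
    | zero =>
      unfold Lset
      refine Finset.card_image_le.trans ?_
      rw [Finset.card_product]
      calc F.card * (Lset C F N 0).card ≤ R * ((2 * R) ^ N * c ^ 0) := Nat.mul_le_mul hF (ih 0)
        _ ≤ 2 * (R * ((2 * R) ^ N * c ^ 0)) := by omega
        _ = _ := by rw [pow_succ]; ring
    | succ m =>
      unfold Lset
      refine (Finset.card_union_le _ _).trans ?_
      have h1 : ((F ×ˢ Lset C F N (m + 1)).image (fun x => x.1 :: x.2)).card ≤
          R * ((2 * R) ^ N * c ^ (m + 1)) := by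
        refine Finset.card_image_le.trans ?_
        rw [Finset.card_product]
        exact Nat.mul_le_mul hF (ih _)
      have h2 : ((C ×ˢ Lset C F N m).image (fun x => x.1 :: x.2)).card ≤
          c * ((2 * R) ^ N * c ^ m) := by
        refine Finset.card_image_le.trans ?_
        rw [Finset.card_product]
        exact Nat.mul_le_mul hC (ih _)
      calc _ ≤ R * ((2 * R) ^ N * c ^ (m + 1)) + c * ((2 * R) ^ N * c ^ m) := Nat.add_le_add h1 h2
        _ = (R + 1) * ((2 * R) ^ N * c ^ (m + 1)) := by rw [pow_succ c m]; ring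
        _ ≤ (2 * R) * ((2 * R) ^ N * c ^ (m + 1)) := Nat.mul_le_mul_right _ (by omega)
        _ = _ := by rw [pow_succ (2 * R) N]; ring

lemma countP_rare {α : Type*} [DecidableEq α] [BEq α] [LawfulBEq α] (l : List α) (C : Finset α) (hl : ∀ x ∈ l, x ∈ C) (T : ℕ) :
    l.countP (fun x => decide (x ∉ C.filter (fun κ => T ≤ l.count κ))) ≤ C.card * T := by
  set p : α → Bool := fun x => decide (x ∉ C.filter (fun κ => T ≤ l.count κ)) with hp
  have h1 : (l.filter p).length = l.countP p := List.countP_eq_length_filter.symm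
  rw [← h1, ← count_sum (l.filter p) C (fun x hx => hl x (List.mem_of_mem_filter hx))]
  have h2 : ∀ κ ∈ C, (l.filter p).count κ ≤ T := by
    intro κ hκ
    by_cases hpk : p κ = true
    · rw [List.count_filter hpk]
      rw [hp] at hpk
      simp only [decide_eq_true_eq, Finset.mem_filter, not_and, not_le] at hpk
      exact (hpk hκ).le
    · have : κ ∉ l.filter p := fun hmem => hpk (List.of_mem_filter hmem)
      rw [List.count_eq_zero_of_not_mem this]
      exact Nat.zero_le _
  calc _ ≤ ∑ κ ∈ C, T := Finset.sum_le_sum h2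
    _ = _ := by rw [Finset.sum_const, smul_eq_mul]

end lists

section casetwo
variable {G : Type*} [Group G] [DecidableEq G] {S : Finset G} {K Z : Subgroup G} {Ω : Finset G}
  {k : ℕ}

/-- product of representatives -/
noncomputable def Pr (Z : Subgroup G) : List (G × G × (G ⧸ Z)) → G
  | [] => 1
  | κ :: l => Pr Z l * κ.2.2.out

open Classical in
/-- all differences between blocks and representatives -/
noncomputable def Dall (S : Finset G) (Z : Subgroup G) (Ω : Finset G) (k : ℕ) : Finset Z :=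
  ((Ω ×ˢ Ω ×ˢ (S ^ k)).image (fun t => (cls Z t.1 t.2.1 t.2.2).2.2.out⁻¹ *
    (t.1 * t.2.2 * t.2.1⁻¹))).subtype (· ∈ Z)

omit [DecidableEq G] in
lemma out_spec (a b v : G) : (cls Z a b v).2.2.out⁻¹ * (a * v * b⁻¹) ∈ Z := by
  rw [← QuotientGroup.eq, QuotientGroup.out_eq']
  rfl

lemma BPath.prod (h1Ω : (1 : G) ∈ Ω) (hZ : ∀ z ∈ Z, ∀ x ∈ K, z * x = x * z) (hZK : Z ≤ K)
    {l : List (G × G × (G ⧸ Z))} {a u : G} (h : BPath S K Z Ω k l a u) :
    ∃ z : Z, z ∈ Dall S Z Ω k ^ l.length ∧ u * a⁻¹ = Pr Z l * z := by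
  classical
  induction h with
  | nil => exact ⟨1, by simp, by simp [Pr]⟩
  | @step l a u b v hp hv h2 h3 ih =>
    obtain ⟨z, hz, he⟩ := ih
    set ζ : Z := ⟨(cls Z a b v).2.2.out⁻¹ * (a * v * b⁻¹), out_spec a b v⟩ with hζ
    have hζD : ζ ∈ Dall S Z Ω k := by
      unfold Dall
      rw [Finset.mem_subtype]
      exact Finset.mem_image.mpr ⟨(a, b, v), Finset.mem_product.mpr ⟨hp.mem_Ω h1Ω,
        Finset.mem_product.mpr ⟨h3, hv⟩⟩, rfl⟩
    have houtK : (cls Z a b v).2.2.out ∈ K := by
      have h4 : (cls Z a b v).2.2.out = (a * v * b⁻¹) * (ζ : G)⁻¹ := by rw [hζ]; group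
      rw [h4]
      exact K.mul_mem h2 (K.inv_mem (hZK ζ.2))
    refine ⟨z * ζ, ?_, ?_⟩
    · rw [List.length_cons, pow_succ]
      exact Finset.mul_mem_mul hz hζD
    · have h5 : a * v * b⁻¹ = (cls Z a b v).2.2.out * ζ := by rw [hζ]; simp
      change u * v * b⁻¹ = Pr Z l * (cls Z a b v).2.2.out * ((z * ζ : Z) : G)
      rw [Subgroup.coe_mul]
      calc u * v * b⁻¹ = (u * a⁻¹) * (a * v * b⁻¹) := by group
        _ = Pr Z l * (z * (cls Z a b v).2.2.out) * ζ := by rw [he, h5]; group
        _ = Pr Z l * ((cls Z a b v).2.2.out * z) * ζ := by rw [hZ z z.2 _ houtK]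
        _ = _ := by group

lemma Dall_pow_card (hZ : ∀ z ∈ Z, ∀ x ∈ K, z * x = x * z) (hZK : Z ≤ K) (N : ℕ) :
    (Dall S Z Ω k ^ N).card ≤ (N + 1) ^ (Dall S Z Ω k).card := by
  classical
  have hc : ∀ x y : Z, x * y = y * x := fun x y => by
    apply Subtype.ext
    rw [Subgroup.coe_mul, Subgroup.coe_mul]
    exact hZ x x.2 y (hZK y.2)
  have := level_card' hc {1} (Dall S Z Ω k) 0 N (Nat.zero_le _)
  simpa using this

open Classical in
/-- elements having a path with at least `R` frequent classes -/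
noncomputable def Emany (S : Finset G) (K Z : Subgroup G) (Ω : Finset G) (k T R n : ℕ) : Finset Z :=
  (Eset S K Z Ω n).filter (fun x => ∃ l a u w, BPath S K Z Ω k l a u ∧ l.length = n / k ∧
    w ∈ S ^ (n % k) ∧ a * w ∈ K ∧ (x : G) = u * w ∧
    R ≤ ((Cset S K Z Ω k).filter (fun κ => T ≤ l.count κ)).card)

open Classical in
/-- elements having a path with less than `R` frequent classes -/
noncomputable def Efew (S : Finset G) (K Z : Subgroup G) (Ω : Finset G) (k T R n : ℕ) : Finset Z :=
  (Eset S K Z Ω n).filter (fun x => ∃ l a u w, BPath S K Z Ω k l a u ∧ l.length = n / k ∧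
    w ∈ S ^ (n % k) ∧ a * w ∈ K ∧ (x : G) = u * w ∧
    ((Cset S K Z Ω k).filter (fun κ => T ≤ l.count κ)).card ≤ R)

lemma Eset_card_le (hk : 1 ≤ k) (T R n : ℕ) :
    (Eset S K Z Ω n).card ≤ (Emany S K Z Ω k T R n).card + (Efew S K Z Ω k T R n).card := by
  classical
  refine le_trans (Finset.card_le_card ?_) (Finset.card_union_le _ _)
  intro x hx
  obtain ⟨l, a, u, w, h1, h2, h3, h4, h5⟩ := Eset_path hk hx
  unfold Emany Efew
  rw [Finset.mem_union, Finset.mem_filter, Finset.mem_filter]
  rcases le_total R ((Cset S K Z Ω k).filter (fun κ => T ≤ l.count κ)).card with h | h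
  · left; exact ⟨hx, l, a, u, w, h1, h2, h3, h4, h5, h⟩
  · right; exact ⟨hx, l, a, u, w, h1, h2, h3, h4, h5, h⟩

lemma Emany_card (T R n : ℕ) :
    R * (Emany S K Z Ω k T R n).card ≤
      ∑ κ ∈ Cset S K Z Ω k, (XC S K Z Ω k (n / k) (n % k) κ T).card := by
  classical
  have h1 : R * (Emany S K Z Ω k T R n).card ≤
      ∑ x ∈ Emany S K Z Ω k T R n,
        ((Cset S K Z Ω k).filter (fun κ => x ∈ XC S K Z Ω k (n / k) (n % k) κ T)).card := by
    have : ∀ x ∈ Emany S K Z Ω k T R n, R ≤
        ((Cset S K Z Ω k).filter (fun κ => x ∈ XC S K Z Ω k (n / k) (n % k) κ T)).card := by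
      intro x hx
      unfold Emany at hx
      rw [Finset.mem_filter] at hx
      obtain ⟨hxE, l, a, u, w, h1, h2, h3, h4, h5, h6⟩ := hx
      refine h6.trans (Finset.card_le_card ?_)
      intro κ hκ
      rw [Finset.mem_filter] at hκ ⊢
      refine ⟨hκ.1, ?_⟩
      unfold XC
      rw [Finset.mem_filter]
      refine ⟨?_, l, a, u, w, h1, h2, hκ.2, h3, h4, h5⟩
      unfold Eset at hxE
      rw [Finset.mem_filter] at hxE
      rw [Nat.div_add_mod]
      exact hxE.1
    calc _ = ∑ x ∈ Emany S K Z Ω k T R n, R := by rw [Finset.sum_const, smul_eq_mul, mul_comm]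
      _ ≤ _ := Finset.sum_le_sum this
  refine h1.trans ?_
  have h2 : ∑ x ∈ Emany S K Z Ω k T R n,
        ((Cset S K Z Ω k).filter (fun κ => x ∈ XC S K Z Ω k (n / k) (n % k) κ T)).card =
      ∑ κ ∈ Cset S K Z Ω k, ((Emany S K Z Ω k T R n).filter
        (fun x => x ∈ XC S K Z Ω k (n / k) (n % k) κ T)).card := by
    simp only [Finset.card_filter]
    exact Finset.sum_comm
  rw [h2]
  apply Finset.sum_le_sum
  intro κ _
  apply Finset.card_le_card
  intro x hx
  exact (Finset.mem_filter.mp hx).2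

lemma Efew_card (h1S : (1 : G) ∈ S) (h1Ω : (1 : G) ∈ Ω) (hk : 1 ≤ k)
    (hZ : ∀ z ∈ Z, ∀ x ∈ K, z * x = x * z) (hZK : Z ≤ K) (T R n : ℕ) (hR : 1 ≤ R) :
    (Efew S K Z Ω k T R n).card ≤ 2 ^ (Cset S K Z Ω k).card *
      ((2 * R) ^ (n / k) * ((Cset S K Z Ω k).card + 1) ^ ((Cset S K Z Ω k).card * T)) *
      ((n / k + 1) ^ (Dall S Z Ω k).card * (Ω.card * (S ^ k).card)) := by
  classical
  set C := Cset S K Z Ω k with hC
  set D := Dall S Z Ω k with hD
  set N := n / k with hN
  set LL : Finset (List (G × G × (G ⧸ Z))) :=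
    (C.powerset.filter (fun F => F.card ≤ R)).biUnion (fun F => Lset C F N (C.card * T)) with hLL
  have hLLc : LL.card ≤ 2 ^ C.card * ((2 * R) ^ N * (C.card + 1) ^ (C.card * T)) := by
    refine Finset.card_biUnion_le.trans ?_
    calc ∑ F ∈ C.powerset.filter (fun F => F.card ≤ R), (Lset C F N (C.card * T)).card
        ≤ ∑ F ∈ C.powerset.filter (fun F => F.card ≤ R),
            ((2 * R) ^ N * (C.card + 1) ^ (C.card * T)) := by
          apply Finset.sum_le_sum
          intro F hF
          rw [Finset.mem_filter] at hF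
          exact card_Lset C F R (C.card + 1) hR (by omega) hF.2 (by omega) N _
      _ = (C.powerset.filter (fun F => F.card ≤ R)).card *
            ((2 * R) ^ N * (C.card + 1) ^ (C.card * T)) := by rw [Finset.sum_const, smul_eq_mul]
      _ ≤ _ := by
          apply Nat.mul_le_mul_right
          rw [← Finset.card_powerset]
          exact Finset.card_filter_le _ _
  have hsub : (Efew S K Z Ω k T R n).image (fun x : Z => (x : G)) ⊆
      (LL ×ˢ (D ^ N) ×ˢ Ω ×ˢ (S ^ (n % k))).image
        (fun t => Pr Z t.1 * (t.2.1 : G) * (t.2.2.1 * t.2.2.2)) := by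
    intro y hy
    obtain ⟨x, hx, rfl⟩ := Finset.mem_image.mp hy
    unfold Efew at hx
    rw [Finset.mem_filter] at hx
    obtain ⟨hxE, l, a, u, w, h1, h2, h3, h4, h5, h6⟩ := hx
    obtain ⟨z, hz, he⟩ := h1.prod h1Ω hZ hZK
    rw [h2] at hz
    refine Finset.mem_image.mpr ⟨(l, z, a, w), ?_, ?_⟩
    · rw [Finset.mem_product, Finset.mem_product, Finset.mem_product]
      refine ⟨?_, hz, h1.mem_Ω h1Ω, h3⟩
      rw [hLL, Finset.mem_biUnion]
      refine ⟨C.filter (fun κ => T ≤ l.count κ), ?_, ?_⟩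
      · rw [Finset.mem_filter, Finset.mem_powerset]
        exact ⟨Finset.filter_subset _ _, h6⟩
      · have h7 := mem_Lset C (C.filter (fun κ => T ≤ l.count κ)) l (h1.mem_Cset h1Ω) (C.card * T)
          (countP_rare l C (h1.mem_Cset h1Ω) T)
        rwa [h2] at h7
    · simp only
      rw [h5, ← he]; group
  have hinj : ((Efew S K Z Ω k T R n).image (fun x : Z => (x : G))).card =
      (Efew S K Z Ω k T R n).card := Finset.card_image_of_injective _ Subtype.coe_injective
  rw [← hinj]
  refine (Finset.card_le_card hsub).trans (Finset.card_image_le.trans ?_)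
  rw [Finset.card_product, Finset.card_product, Finset.card_product]
  apply Nat.mul_le_mul hLLc
  apply Nat.mul_le_mul (Dall_pow_card hZ hZK N)
  apply Nat.mul_le_mul le_rfl
  exact Finset.card_le_card (Finset.pow_subset_pow_right h1S (Nat.mod_lt n (by omega)).le)

end casetwo

end Pool.Agent.H31.CR
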