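import Mathlib

set_option autoImplicit false

namespace Pool.Agent.H31.ConjRatio

/-- The ball of radius `n` around the identity for the word metric of `X`: the products of at most
`n` letters from `X ∪ X⁻¹`. -/
def ball {G : Type*} [Group G] (X : Set G) (n : ℕ) : Set G :=
  {g | ∃ l : List G, l.length ≤ n ∧ (∀ s ∈ l, s ∈ X ∨ s⁻¹ ∈ X) ∧ l.prod = g}

/-- The number of conjugacy classes containing an element of the ball of radius `n`, divided by the
number of elements of this ball. -/
noncomputable def ratio {G : Type*} [Group G] (X : Set G) (n : ℕ) : ℝ :=
  ((ConjClasses.mk '' ball X n).ncard : ℝ) / ((ball X n).ncard : ℝ)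

/-- The conjugacy ratio of the group with respect to `X`. -/
noncomputable def conjugacyRatio {G : Type*} [Group G] (X : Set G) : ℝ :=
  Filter.limsup (ratio X) Filter.atTop

end Pool.Agent.H31.ConjRatio
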