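import Mathlib
import Pool.Agent.H31.CR.LemmaF

set_option autoImplicit false

namespace Pool.Agent.H31.CR

open Finset Pointwise Filter Topology

section doubling
variable {G : Type*} [Group G] [DecidableEq G] {S : Finset G}

/-- Doubling of the balls of a virtually abelian group. -/
theorem doubling (h1S : (1 : G) ∈ S) (hgen : ∀ g : G, ∃ j, g ∈ S ^ j)
    (A : Subgroup G) [A.FiniteIndex] (hA : ∀ a ∈ A, ∀ b ∈ A, a * b = b * a) :
    ∃ C : ℕ, 1 ≤ C ∧ ∀ h : ℕ, (S ^ (4 * h)).card ≤ C * (S ^ h).card := by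
  classical
  have : Finite (G ⧸ A) := Subgroup.finite_quotient_of_finiteIndex
  have := Fintype.ofFinite (G ⧸ A)
  set T : Finset G := insert 1 (Finset.univ.image (fun q : G ⧸ A => q.out⁻¹)) with hT
  have hTrep : ∀ g : G, ∃ t ∈ T, g * t⁻¹ ∈ A := by
    intro g
    refine ⟨((g⁻¹ : G) : G ⧸ A).out⁻¹, ?_, ?_⟩
    · rw [hT]
      exact Finset.mem_insert_of_mem (Finset.mem_image_of_mem _ (Finset.mem_univ _))
    · have h1 : (((g⁻¹ : G) : G ⧸ A).out)⁻¹ * g⁻¹ ∈ A := by
        rw [← QuotientGroup.eq, QuotientGroup.out_eq']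
      have h2 := A.inv_mem h1
      simpa using h2
  set D : Finset A := (T * S * T⁻¹).subtype (· ∈ A) with hD
  have h1T : (1 : G) ∈ T := Finset.mem_insert_self _ _
  have h1D : (1 : A) ∈ D := by
    rw [hD, Finset.mem_subtype]
    have : ((1 : A) : G) = 1 * 1 * (1 : G)⁻¹ := by simp
    rw [this]
    exact Finset.mul_mem_mul (Finset.mul_mem_mul h1T h1S) (Finset.inv_mem_inv h1T)
  have hrew : ∀ n : ℕ, ∀ g ∈ S ^ n, ∃ z ∈ D ^ n, ∃ t ∈ T, g = (z : G) * t := by
    intro n
    induction n with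
    | zero =>
      intro g hg
      rw [pow_zero, Finset.mem_one] at hg
      exact ⟨1, by simp, 1, h1T, by simp [hg]⟩
    | succ n ih =>
      intro g hg
      rw [pow_succ] at hg
      obtain ⟨g', hg', s, hs, rfl⟩ := Finset.mem_mul.mp hg
      obtain ⟨z, hz, t, ht, rfl⟩ := ih g' hg'
      obtain ⟨t', ht', ha⟩ := hTrep (t * s)
      refine ⟨z * ⟨t * s * t'⁻¹, ha⟩, ?_, t', ht', ?_⟩
      · rw [pow_succ]
        refine Finset.mul_mem_mul hz ?_
        rw [hD, Finset.mem_subtype]
        exact Finset.mul_mem_mul (Finset.mul_mem_mul ht hs) (Finset.inv_mem_inv ht')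
      · rw [Subgroup.coe_mul]; group
  have hcardS : ∀ n : ℕ, (S ^ n).card ≤ (D ^ n).card * T.card := by
    intro n
    have hsub : S ^ n ⊆ ((D ^ n) ×ˢ T).image (fun x => (x.1 : G) * x.2) := by
      intro g hg
      obtain ⟨z, hz, t, ht, rfl⟩ := hrew n g hg
      exact Finset.mem_image.mpr ⟨(z, t), Finset.mem_product.mpr ⟨hz, ht⟩, rfl⟩
    refine (Finset.card_le_card hsub).trans (Finset.card_image_le.trans ?_)
    rw [Finset.card_product]
  -- `D ⊆ S^r`
  obtain ⟨r, hr1, hr⟩ : ∃ r : ℕ, 1 ≤ r ∧ ∀ d ∈ D, (d : G) ∈ S ^ r := by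
    choose f hf using hgen
    refine ⟨D.sup (fun d => f d) + 1, by omega, fun d hd => ?_⟩
    have h2 : f (d : G) ≤ D.sup (fun d => f (d : G)) := Finset.le_sup (f := fun d : A => f (d : G)) hd
    exact Finset.pow_subset_pow_right h1S (by omega) (hf _)
  have hDS : ∀ q : ℕ, (D ^ q).card ≤ (S ^ (r * q)).card := by
    intro q
    have hmem : ∀ q : ℕ, ∀ d ∈ D ^ q, (d : G) ∈ S ^ (r * q) := by
      intro q
      induction q with
      | zero =>
        intro d hd
        rw [pow_zero, Finset.mem_one] at hd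
        simp [hd]
      | succ q ih =>
        intro d hd
        rw [pow_succ] at hd
        obtain ⟨a, ha, b, hb, rfl⟩ := Finset.mem_mul.mp hd
        rw [Subgroup.coe_mul, Nat.mul_succ, pow_add]
        exact Finset.mul_mem_mul (ih a ha) (hr b hb)
    have h3 : ((D ^ q).image (fun d : A => (d : G))).card = (D ^ q).card :=
      Finset.card_image_of_injective _ Subtype.coe_injective
    rw [← h3]
    apply Finset.card_le_card
    intro x hx
    obtain ⟨d, hd, rfl⟩ := Finset.mem_image.mp hx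
    exact hmem q d hd
  have hc : ∀ x y : A, x * y = y * x := fun x y => Subtype.ext (hA x x.2 y y.2)
  have hDk : ∀ m q : ℕ, 1 ≤ m → (D ^ (m * q)).card ≤ m ^ D.card * (D ^ q).card := by
    intro m q hm
    have h4 := level_card' hc {1} D q (m * q) (Nat.le_mul_of_pos_left _ (by omega))
    rw [show ({1} : Finset A) = 1 from rfl, one_mul, one_mul] at h4
    have h5 : (m * q + 1) ^ D.card ≤ m ^ D.card * (q + 1) ^ D.card := by
      rw [← mul_pow]
      exact Nat.pow_le_pow_left (by nlinarith) _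
    have h6 : (q + 1) ^ D.card * (D ^ (m * q)).card ≤
        (q + 1) ^ D.card * (m ^ D.card * (D ^ q).card) := by
      calc _ ≤ (m * q + 1) ^ D.card * (D ^ q).card := h4
        _ ≤ (m ^ D.card * (q + 1) ^ D.card) * (D ^ q).card := Nat.mul_le_mul_right _ h5
        _ = _ := by ring
    exact Nat.le_of_mul_le_mul_left h6 (by positivity)
  refine ⟨(D ^ (4 * r)).card * (4 * r) ^ D.card * T.card, ?_, fun h => ?_⟩
  · have h1 : 0 < (D ^ (4 * r)).card := Finset.card_pos.mpr ⟨1, Finset.one_mem_pow h1D⟩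
    have h2 : 0 < T.card := Finset.card_pos.mpr ⟨1, h1T⟩
    have h3 : 0 < (4 * r) ^ D.card := by positivity
    exact Nat.mul_pos (Nat.mul_pos h1 h3) h2
  · set q := h / r with hq
    have hqr : r * q ≤ h := Nat.mul_div_le h r
    have hlt : h < r * (q + 1) := by
      rw [hq]; exact Nat.lt_mul_div_succ h (by omega)
    have h7 : (D ^ (4 * h)).card ≤ (D ^ (4 * r)).card * ((4 * r) ^ D.card * (D ^ q).card) := by
      calc (D ^ (4 * h)).card ≤ (D ^ (4 * r + 4 * r * q)).card := by
            apply Finset.card_le_card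
            apply Finset.pow_subset_pow_right h1D
            nlinarith
        _ ≤ (D ^ (4 * r)).card * (D ^ (4 * r * q)).card := by
            rw [pow_add]; exact Finset.card_mul_le
        _ ≤ _ := Nat.mul_le_mul_left _ (hDk (4 * r) q (by omega))
    calc (S ^ (4 * h)).card ≤ (D ^ (4 * h)).card * T.card := hcardS _
      _ ≤ ((D ^ (4 * r)).card * ((4 * r) ^ D.card * (D ^ q).card)) * T.card :=
          Nat.mul_le_mul_right _ h7
      _ ≤ ((D ^ (4 * r)).card * ((4 * r) ^ D.card * (S ^ h).card)) * T.card := by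
          apply Nat.mul_le_mul_right
          apply Nat.mul_le_mul_left
          apply Nat.mul_le_mul_left
          exact (hDS q).trans (Finset.card_le_card (Finset.pow_subset_pow_right h1S hqr))
      _ = _ := by ring

end doubling

section annulus
variable {G : Type*} [Group G] [DecidableEq G] {S : Finset G}

/-- One step of Tessera's argument. -/
lemma annulus_step (h1S : (1 : G) ∈ S) (hinv : S⁻¹ = S) (C : ℕ)
    (hC : ∀ h : ℕ, (S ^ (4 * h)).card ≤ C * (S ^ h).card) (n h : ℕ) (hn : 4 * h ≤ n) :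
    (S ^ n \ S ^ (n - h)).card ≤ C * ((S ^ n \ S ^ (n - 4 * h)).card - (S ^ n \ S ^ (n - h)).card) := by
  classical
  set A := S ^ n \ S ^ (n - h) with hA
  have hy : ∀ x ∈ A, ∃ y, y ∈ S ^ (n - 2 * h) ∧ y⁻¹ * x ∈ S ^ (2 * h) := by
    intro x hx
    rw [hA, Finset.mem_sdiff] at hx
    have h1 : S ^ n = S ^ (n - 2 * h) * S ^ (2 * h) := by rw [← pow_add]; congr 1; omega
    rw [h1] at hx
    obtain ⟨y, hy, w, hw, he⟩ := Finset.mem_mul.mp hx.1
    exact ⟨y, hy, by rw [← he]; simpa using hw⟩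
  choose! y hy1 hy2 using hy
  have hin : ∀ x ∈ A, ∀ v ∈ S ^ h, y x * v ∈ S ^ (n - h) \ S ^ (n - 4 * h) := by
    intro x hx v hv
    rw [Finset.mem_sdiff]
    constructor
    · have h1 : S ^ (n - h) = S ^ (n - 2 * h) * S ^ h := by rw [← pow_add]; congr 1; omega
      rw [h1]
      exact Finset.mul_mem_mul (hy1 x hx) hv
    · intro hmem
      have hv' : v⁻¹ ∈ S ^ h := by
        have := Finset.inv_mem_inv hv
        rwa [← inv_pow, hinv] at this
      have h2 : x = (y x * v) * v⁻¹ * ((y x)⁻¹ * x) := by group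
      have h3 : x ∈ S ^ (n - h) := by
        rw [h2]
        have h4 : S ^ (n - h) = S ^ (n - 4 * h) * S ^ h * S ^ (2 * h) := by
          rw [← pow_add, ← pow_add]; congr 1; omega
        rw [h4]
        exact Finset.mul_mem_mul (Finset.mul_mem_mul hmem hv') (hy2 x hx)
      rw [hA, Finset.mem_sdiff] at hx
      exact hx.2 h3
  -- maximal family
  set P : Finset (Finset G) := A.powerset.filter (fun I => ∀ x ∈ I, ∀ x' ∈ I, x ≠ x' →
    Disjoint ((S ^ h).image (fun v => y x * v)) ((S ^ h).image (fun v => y x' * v))) with hP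
  have hPne : P.Nonempty := ⟨∅, by rw [hP, Finset.mem_filter]; simp⟩
  obtain ⟨I, hI, hmax⟩ := Finset.exists_max_image P Finset.card hPne
  rw [hP, Finset.mem_filter, Finset.mem_powerset] at hI
  obtain ⟨hIA, hdisj⟩ := hI
  have hcov : A ⊆ I.biUnion (fun x => (S ^ (4 * h)).image (fun v => y x * v)) := by
    intro x hx
    rw [Finset.mem_biUnion]
    have hex : ∃ x' ∈ I, ∃ v ∈ S ^ h, ∃ v' ∈ S ^ h, y x * v = y x' * v' := by
      by_contra hcon
      push Not at hcon
      have hxI : x ∉ I := by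
        intro hxI
        exact hcon x hxI 1 (Finset.one_mem_pow h1S) 1 (Finset.one_mem_pow h1S) rfl
      have h1 : insert x I ∈ P := by
        rw [hP, Finset.mem_filter, Finset.mem_powerset]
        have hd : ∀ x' ∈ I, Disjoint ((S ^ h).image (fun v => y x * v))
            ((S ^ h).image (fun v => y x' * v)) := by
          intro x' hx'
          rw [Finset.disjoint_left]
          intro z hz hz'
          obtain ⟨v, hv, rfl⟩ := Finset.mem_image.mp hz
          obtain ⟨v', hv', he⟩ := Finset.mem_image.mp hz'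
          exact hcon x' hx' v hv v' hv' he.symm
        refine ⟨Finset.insert_subset hx hIA, ?_⟩
        intro a ha b hb hab
        rcases Finset.mem_insert.mp ha with hax | haI
        · rcases Finset.mem_insert.mp hb with hbx | hbI
          · exact absurd (hax.trans hbx.symm) hab
          · rw [hax]; exact hd b hbI
        · rcases Finset.mem_insert.mp hb with hbx | hbI
          · rw [hbx]; exact (hd a haI).symm
          · exact hdisj a haI b hbI hab
      have h2 := hmax _ h1
      rw [Finset.card_insert_of_notMem hxI] at h2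
      omega
    obtain ⟨x', hx', v, hv, v', hv', he⟩ := hex
    refine ⟨x', hx', Finset.mem_image.mpr ⟨(y x')⁻¹ * x, ?_, by group⟩⟩
    have hvi : v⁻¹ ∈ S ^ h := by
      have := Finset.inv_mem_inv hv
      rwa [← inv_pow, hinv] at this
    have h3 : (y x')⁻¹ * x = v' * v⁻¹ * ((y x)⁻¹ * x) := by
      have : y x' = y x * v * v'⁻¹ := by rw [he]; group
      rw [this]; group
    rw [h3]
    have h4 : S ^ (4 * h) = S ^ h * S ^ h * S ^ (2 * h) := by
      rw [← pow_add, ← pow_add]; congr 1; omega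
    rw [h4]
    exact Finset.mul_mem_mul (Finset.mul_mem_mul hv' hvi) (hy2 x hx)
  have h5 : A.card ≤ I.card * (S ^ (4 * h)).card := by
    refine (Finset.card_le_card hcov).trans (Finset.card_biUnion_le.trans ?_)
    calc ∑ x ∈ I, ((S ^ (4 * h)).image (fun v => y x * v)).card
        ≤ ∑ x ∈ I, (S ^ (4 * h)).card := Finset.sum_le_sum (fun x _ => Finset.card_image_le)
      _ = _ := by rw [Finset.sum_const, smul_eq_mul]
  have h6 : I.card * (S ^ h).card ≤ (S ^ (n - h) \ S ^ (n - 4 * h)).card := by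
    have h7 : (I.biUnion (fun x => (S ^ h).image (fun v => y x * v))).card =
        I.card * (S ^ h).card := by
      rw [Finset.card_biUnion (fun x hx x' hx' hne => hdisj x hx x' hx' hne)]
      rw [Finset.sum_congr rfl (fun x _ => Finset.card_image_of_injective _ (mul_right_injective _)),
        Finset.sum_const, smul_eq_mul]
    rw [← h7]
    apply Finset.card_le_card
    intro z hz
    obtain ⟨x, hx, hz⟩ := Finset.mem_biUnion.mp hz
    obtain ⟨v, hv, rfl⟩ := Finset.mem_image.mp hz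
    exact hin x (hIA hx) v hv
  have h8 : (S ^ (n - h) \ S ^ (n - 4 * h)).card =
      (S ^ n \ S ^ (n - 4 * h)).card - A.card := by
    have hs1 : S ^ (n - 4 * h) ⊆ S ^ (n - h) := Finset.pow_subset_pow_right h1S (by omega)
    have hs2 : S ^ (n - h) ⊆ S ^ n := Finset.pow_subset_pow_right h1S (by omega)
    rw [hA, Finset.card_sdiff_of_subset hs1, Finset.card_sdiff_of_subset hs2,
      Finset.card_sdiff_of_subset (hs1.trans hs2)]
    have := Finset.card_le_card hs1
    have := Finset.card_le_card hs2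
    omega
  rw [← h8]
  calc A.card ≤ I.card * (S ^ (4 * h)).card := h5
    _ ≤ I.card * (C * (S ^ h).card) := Nat.mul_le_mul_left _ (hC h)
    _ = C * (I.card * (S ^ h).card) := by ring
    _ ≤ _ := Nat.mul_le_mul_left _ h6

/-- Balls of a doubling group have stable growth. -/
theorem stable (h1S : (1 : G) ∈ S) (hinv : S⁻¹ = S) (C : ℕ) (hC1 : 1 ≤ C)
    (hC : ∀ h : ℕ, (S ^ (4 * h)).card ≤ C * (S ^ h).card) (ε : ℝ) (hε : 0 < ε) :
    ∃ n0 : ℕ, ∀ n ≥ n0, ((S ^ n).card : ℝ) - (S ^ (n - 1)).card ≤ ε * (S ^ n).card := by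
  classical
  have hiter : ∀ j n : ℕ, 4 ^ j ≤ n →
      (1 + 1 / (C : ℝ)) ^ j * ((S ^ n \ S ^ (n - 1)).card : ℝ) ≤ ((S ^ n \ S ^ (n - 4 ^ j)).card : ℝ) := by
    intro j
    induction j with
    | zero => intro n _; simp
    | succ j ih =>
      intro n hn
      have h1 : 4 ^ j ≤ n := le_trans (Nat.pow_le_pow_right (by norm_num) (Nat.le_succ j)) hn
      have h2 := ih n h1
      have h3 := annulus_step h1S hinv C hC n (4 ^ j) (by rw [← pow_succ']; exact hn)
      rw [← pow_succ'] at h3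
      have hle : (S ^ n \ S ^ (n - 4 ^ j)).card ≤ (S ^ n \ S ^ (n - 4 ^ (j + 1))).card := by
        apply Finset.card_le_card
        apply Finset.sdiff_subset_sdiff (Finset.Subset.refl _)
        apply Finset.pow_subset_pow_right h1S
        have : 4 ^ j ≤ 4 ^ (j + 1) := Nat.pow_le_pow_right (by norm_num) (Nat.le_succ j)
        omega
      have h4 : ((S ^ n \ S ^ (n - 4 ^ j)).card : ℝ) ≤ C * (((S ^ n \ S ^ (n - 4 ^ (j + 1))).card : ℝ) -
          (S ^ n \ S ^ (n - 4 ^ j)).card) := by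
        rw [← Nat.cast_sub hle]
        exact_mod_cast h3
      have hCpos : (0 : ℝ) < C := by exact_mod_cast hC1
      have h5 : (1 + 1 / (C : ℝ)) * ((S ^ n \ S ^ (n - 4 ^ j)).card : ℝ) ≤
          ((S ^ n \ S ^ (n - 4 ^ (j + 1))).card : ℝ) := by
        have h6 : 1 / (C : ℝ) * ((S ^ n \ S ^ (n - 4 ^ j)).card : ℝ) ≤
            (((S ^ n \ S ^ (n - 4 ^ (j + 1))).card : ℝ) - (S ^ n \ S ^ (n - 4 ^ j)).card) := by
          rw [one_div, inv_mul_le_iff₀ hCpos]
          exact h4
        linarith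
      calc (1 + 1 / (C : ℝ)) ^ (j + 1) * ((S ^ n \ S ^ (n - 1)).card : ℝ)
          = (1 + 1 / (C : ℝ)) * ((1 + 1 / (C : ℝ)) ^ j * ((S ^ n \ S ^ (n - 1)).card : ℝ)) := by
            rw [pow_succ]; ring
        _ ≤ (1 + 1 / (C : ℝ)) * ((S ^ n \ S ^ (n - 4 ^ j)).card : ℝ) :=
            mul_le_mul_of_nonneg_left h2 (by positivity)
        _ ≤ _ := h5
  have hCpos : (0 : ℝ) < C := by exact_mod_cast hC1
  obtain ⟨j, hj⟩ := pow_unbounded_of_one_lt (1 / ε) (show (1 : ℝ) < 1 + 1 / (C : ℝ) by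
    have : (0 : ℝ) < 1 / (C : ℝ) := by positivity
    linarith)
  refine ⟨4 ^ j, fun n hn => ?_⟩
  have h1 := hiter j n hn
  have h2 : ((S ^ n \ S ^ (n - 4 ^ j)).card : ℝ) ≤ (S ^ n).card := by
    exact_mod_cast Finset.card_le_card Finset.sdiff_subset
  have h3 : ((S ^ n \ S ^ (n - 1)).card : ℝ) = ((S ^ n).card : ℝ) - (S ^ (n - 1)).card := by
    have hs : S ^ (n - 1) ⊆ S ^ n := Finset.pow_subset_pow_right h1S (Nat.sub_le n 1)
    rw [Finset.card_sdiff_of_subset hs, Nat.cast_sub (Finset.card_le_card hs)]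
  rw [← h3]
  set a : ℝ := ((S ^ n \ S ^ (n - 1)).card : ℝ) with ha
  have ha0 : 0 ≤ a := by positivity
  have h4 : 1 / ε * a ≤ (S ^ n).card := by
    calc 1 / ε * a ≤ (1 + 1 / (C : ℝ)) ^ j * a := mul_le_mul_of_nonneg_right hj.le ha0
      _ ≤ _ := h1.trans h2
  rw [one_div, inv_mul_le_iff₀ hε] at h4
  exact h4

end annulus

end Pool.Agent.H31.CR
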