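import Mathlib
import Pool.Agent.H31.CR.Stable

set_option autoImplicit false

namespace Pool.Agent.H31.CR

open Finset Pointwise Filter Topology

section density
variable {G : Type*} [Group G] [DecidableEq G] {S : Finset G}

lemma ball_pos (h1S : (1 : G) ∈ S) (n : ℕ) : (0 : ℝ) < (S ^ n).card := by
  have : 0 < (S ^ n).card := Finset.card_pos.mpr ⟨1, Finset.one_mem_pow h1S⟩
  exact_mod_cast this

/-- stable growth, as a limit -/
def StableGrowth (S : Finset G) : Prop :=
  Tendsto (fun n : ℕ => ((S ^ n).card : ℝ) / (S ^ (n + 1)).card) atTop (𝓝 1)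

lemma stable_of (h1S : (1 : G) ∈ S)
    (h : ∀ ε : ℝ, 0 < ε → ∃ n0 : ℕ, ∀ n ≥ n0,
      ((S ^ n).card : ℝ) - (S ^ (n - 1)).card ≤ ε * (S ^ n).card) : StableGrowth S := by
  unfold StableGrowth
  rw [Metric.tendsto_atTop]
  intro ε hε
  obtain ⟨n0, hn0⟩ := h (ε / 2) (by positivity)
  refine ⟨n0, fun n hn => ?_⟩
  have h1 := hn0 (n + 1) (by omega)
  rw [Nat.add_sub_cancel] at h1
  have hpos := ball_pos h1S (n + 1)
  have hle : ((S ^ n).card : ℝ) ≤ (S ^ (n + 1)).card := by
    exact_mod_cast Finset.card_le_card (Finset.pow_subset_pow_right h1S (Nat.le_succ n))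
  rw [Real.dist_eq, abs_lt]
  constructor
  · rw [lt_sub_iff_add_lt, lt_div_iff₀ hpos]
    nlinarith
  · rw [sub_lt_iff_lt_add, div_lt_iff₀ hpos]
    nlinarith

lemma StableGrowth.ratio (h1S : (1 : G) ∈ S) (h : StableGrowth S) (r : ℕ) :
    Tendsto (fun n : ℕ => ((S ^ n).card : ℝ) / (S ^ (n + r)).card) atTop (𝓝 1) := by
  induction r with
  | zero =>
    have : (fun n : ℕ => ((S ^ n).card : ℝ) / (S ^ (n + 0)).card) = fun _ => 1 := by
      funext n
      rw [add_zero, div_self (ball_pos h1S n).ne']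
    rw [this]; exact tendsto_const_nhds
  | succ r ih =>
    have h1 : Tendsto (fun n : ℕ => ((S ^ (n + r)).card : ℝ) / (S ^ (n + r + 1)).card) atTop (𝓝 1) :=
      (tendsto_add_atTop_iff_nat (f := fun n : ℕ => ((S ^ n).card : ℝ) / (S ^ (n + 1)).card) r).mpr h
    have h2 := ih.mul h1
    rw [one_mul] at h2
    refine h2.congr (fun n => ?_)
    rw [div_mul_div_cancel₀ (ball_pos h1S (n + r)).ne', add_assoc]

lemma StableGrowth.up (h1S : (1 : G) ∈ S) (h : StableGrowth S) (r : ℕ) :
    Tendsto (fun n : ℕ => (((S ^ (n + r)).card : ℝ) - (S ^ n).card) / (S ^ n).card) atTop (𝓝 0) := by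
  have h1 := ((h.ratio h1S r).inv₀ one_ne_zero).sub_const 1
  rw [inv_one, sub_self] at h1
  refine h1.congr (fun n => ?_)
  have := (ball_pos h1S n).ne'
  rw [inv_div, sub_div, div_self this]

lemma StableGrowth.down (h1S : (1 : G) ∈ S) (h : StableGrowth S) (r : ℕ) :
    Tendsto (fun n : ℕ => (((S ^ n).card : ℝ) - (S ^ (n - r)).card) / (S ^ n).card) atTop (𝓝 0) := by
  rw [← tendsto_add_atTop_iff_nat r]
  have h1 := (h.ratio h1S r).const_sub 1
  rw [sub_self] at h1
  refine h1.congr (fun n => ?_)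
  have := (ball_pos h1S (n + r)).ne'
  rw [Nat.add_sub_cancel, sub_div, div_self this]

open Classical in
/-- Density of a coset is asymptotically that of the subgroup. -/
lemma coset_density (h1S : (1 : G) ∈ S) (hinv : S⁻¹ = S) (hgen : ∀ g : G, ∃ j, g ∈ S ^ j)
    (hst : StableGrowth S) (H : Subgroup G) (g : G) :
    Tendsto (fun n : ℕ => (((S ^ n).filter (fun x => g⁻¹ * x ∈ H)).card : ℝ) / (S ^ n).card -
      (((S ^ n).filter (fun x => x ∈ H)).card : ℝ) / (S ^ n).card) atTop (𝓝 0) := by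
  obtain ⟨r, hr⟩ := hgen g
  have hr' : g⁻¹ ∈ S ^ r := by
    have := Finset.inv_mem_inv hr
    rwa [← inv_pow, hinv] at this
  have hup : ∀ n : ℕ, (((S ^ n).filter (fun x => g⁻¹ * x ∈ H)).card : ℝ) ≤
      ((S ^ n).filter (fun x => x ∈ H)).card + (((S ^ (n + r)).card : ℝ) - (S ^ n).card) := by
    intro n
    have h1 : ((S ^ n).filter (fun x => g⁻¹ * x ∈ H)).card ≤
        ((S ^ (n + r)).filter (fun x => x ∈ H)).card := by
      apply Finset.card_le_card_of_injOn (fun x => g⁻¹ * x)
      · intro x hx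
        rw [Finset.mem_coe, Finset.mem_filter] at hx ⊢
        refine ⟨?_, hx.2⟩
        rw [add_comm, pow_add]
        exact Finset.mul_mem_mul hr' hx.1
      · intro x _ y _ hxy
        exact mul_left_cancel hxy
    have h2 : (S ^ (n + r)).filter (fun x => x ∈ H) ⊆
        (S ^ n).filter (fun x => x ∈ H) ∪ (S ^ (n + r) \ S ^ n) := by
      intro x hx
      rw [Finset.mem_filter] at hx
      rw [Finset.mem_union, Finset.mem_filter, Finset.mem_sdiff]
      by_cases hxn : x ∈ S ^ n
      · left; exact ⟨hxn, hx.2⟩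
      · right; exact ⟨hx.1, hxn⟩
    have h3 := (Finset.card_le_card h2).trans (Finset.card_union_le _ _)
    have hsub : S ^ n ⊆ S ^ (n + r) := Finset.pow_subset_pow_right h1S (Nat.le_add_right n r)
    have h4 : ((S ^ (n + r) \ S ^ n).card : ℝ) = ((S ^ (n + r)).card : ℝ) - (S ^ n).card := by
      rw [Finset.card_sdiff_of_subset hsub, Nat.cast_sub (Finset.card_le_card hsub)]
    rw [← h4]
    exact_mod_cast h1.trans h3
  have hdown : ∀ n : ℕ, r ≤ n → (((S ^ n).filter (fun x => x ∈ H)).card : ℝ) ≤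
      ((S ^ n).filter (fun x => g⁻¹ * x ∈ H)).card + (((S ^ n).card : ℝ) - (S ^ (n - r)).card) := by
    intro n hn
    have h1 : ((S ^ (n - r)).filter (fun x => x ∈ H)).card ≤
        ((S ^ n).filter (fun x => g⁻¹ * x ∈ H)).card := by
      apply Finset.card_le_card_of_injOn (fun x => g * x)
      · intro x hx
        rw [Finset.mem_coe, Finset.mem_filter] at hx ⊢
        refine ⟨?_, by simpa using hx.2⟩
        have h5 : S ^ n = S ^ r * S ^ (n - r) := by rw [← pow_add]; congr 1; omega
        rw [h5]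
        exact Finset.mul_mem_mul hr hx.1
      · intro x _ y _ hxy
        exact mul_left_cancel hxy
    have h2 : (S ^ n).filter (fun x => x ∈ H) ⊆
        (S ^ (n - r)).filter (fun x => x ∈ H) ∪ (S ^ n \ S ^ (n - r)) := by
      intro x hx
      rw [Finset.mem_filter] at hx
      rw [Finset.mem_union, Finset.mem_filter, Finset.mem_sdiff]
      by_cases hxn : x ∈ S ^ (n - r)
      · left; exact ⟨hxn, hx.2⟩
      · right; exact ⟨hx.1, hxn⟩
    have h3 := (Finset.card_le_card h2).trans (Finset.card_union_le _ _)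
    have hsub : S ^ (n - r) ⊆ S ^ n := Finset.pow_subset_pow_right h1S (Nat.sub_le n r)
    have h4 : ((S ^ n \ S ^ (n - r)).card : ℝ) = ((S ^ n).card : ℝ) - (S ^ (n - r)).card := by
      rw [Finset.card_sdiff_of_subset hsub, Nat.cast_sub (Finset.card_le_card hsub)]
    rw [← h4]
    have h6 : ((S ^ n).filter (fun x => x ∈ H)).card ≤
        ((S ^ n).filter (fun x => g⁻¹ * x ∈ H)).card + (S ^ n \ S ^ (n - r)).card := by omega
    exact_mod_cast h6
  have hlow : Tendsto (fun n : ℕ => -((((S ^ n).card : ℝ) - (S ^ (n - r)).card) / (S ^ n).card))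
      atTop (𝓝 0) := by
    have := (hst.down h1S r).neg
    rwa [neg_zero] at this
  refine tendsto_of_tendsto_of_tendsto_of_le_of_le' hlow (hst.up h1S r) ?_ ?_
  · filter_upwards [eventually_ge_atTop r] with n hn
    have hpos := ball_pos h1S n
    have := hdown n hn
    rw [← sub_div, ← neg_div]
    apply div_le_div_of_nonneg_right _ hpos.le
    linarith
  · filter_upwards with n
    have hpos := ball_pos h1S n
    have := hup n
    rw [← sub_div]
    apply div_le_div_of_nonneg_right _ hpos.le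
    linarith

open Classical in
/-- Subgroups have density the inverse of their index. -/
theorem subgroup_density (h1S : (1 : G) ∈ S) (hinv : S⁻¹ = S) (hgen : ∀ g : G, ∃ j, g ∈ S ^ j)
    (hst : StableGrowth S) (H : Subgroup G) :
    Tendsto (fun n : ℕ => (((S ^ n).filter (fun x => x ∈ H)).card : ℝ) / (S ^ n).card) atTop
      (𝓝 ((H.index : ℝ)⁻¹)) := by
  set ρ : ℕ → ℝ := fun n => (((S ^ n).filter (fun x => x ∈ H)).card : ℝ) / (S ^ n).card with hρ
  have hq : ∀ Q : Finset (G ⧸ H), Tendsto (fun n : ℕ =>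
      (((S ^ n).filter (fun x : G => (x : G ⧸ H) ∈ Q)).card : ℝ) / (S ^ n).card - Q.card * ρ n)
      atTop (𝓝 0) := by
    intro Q
    have h1 : Tendsto (fun n : ℕ => ∑ q ∈ Q,
        ((((S ^ n).filter (fun x => q.out⁻¹ * x ∈ H)).card : ℝ) / (S ^ n).card - ρ n))
        atTop (𝓝 (∑ q ∈ Q, 0)) := by
      apply tendsto_finsetSum
      intro q _
      exact coset_density h1S hinv hgen hst H q.out
    rw [Finset.sum_const_zero] at h1
    refine h1.congr (fun n => ?_)
    rw [Finset.sum_sub_distrib, Finset.sum_const, nsmul_eq_mul, ← Finset.sum_div]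
    congr 2
    have h2 : ((S ^ n).filter (fun x : G => (x : G ⧸ H) ∈ Q)).card =
        ∑ q ∈ Q, ((S ^ n).filter (fun x => q.out⁻¹ * x ∈ H)).card := by
      have hmaps : ∀ x ∈ (S ^ n).filter (fun x : G => (x : G ⧸ H) ∈ Q), (x : G ⧸ H) ∈ Q :=
        fun x hx => (Finset.mem_filter.mp hx).2
      rw [Finset.card_eq_sum_card_fiberwise hmaps]
      apply Finset.sum_congr rfl
      intro q hq
      congr 1
      ext x
      rw [Finset.mem_filter, Finset.mem_filter, Finset.mem_filter]
      have h3 : (x : G ⧸ H) = q ↔ q.out⁻¹ * x ∈ H := by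
        rw [← QuotientGroup.eq, QuotientGroup.out_eq']
        exact eq_comm
      rw [← h3]
      constructor
      · rintro ⟨⟨h4, _⟩, h5⟩; exact ⟨h4, h5⟩
      · rintro ⟨h4, h5⟩; exact ⟨⟨h4, by rw [h5]; exact hq⟩, h5⟩
    rw [h2]
    push_cast
    rfl
  by_cases hfin : H.index = 0
  · rw [hfin, Nat.cast_zero, inv_zero]
    have : Infinite (G ⧸ H) := by
      rw [← not_finite_iff_infinite]
      intro hf
      have := Subgroup.finiteIndex_of_finite_quotient (H := H)
      exact this.index_ne_zero hfin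
    rw [Metric.tendsto_atTop]
    intro ε hε
    obtain ⟨M, hM⟩ := exists_nat_gt (2 / ε)
    obtain ⟨Q, hQ⟩ := Infinite.exists_subset_card_eq (G ⧸ H) M
    have h1 := (Metric.tendsto_atTop.mp (hq Q)) 1 one_pos
    obtain ⟨n0, hn0⟩ := h1
    refine ⟨n0, fun n hn => ?_⟩
    have h2 := hn0 n hn
    rw [Real.dist_eq, sub_zero, abs_lt, hQ] at h2
    have hpos := ball_pos h1S n
    have h3 : (((S ^ n).filter (fun x : G => (x : G ⧸ H) ∈ Q)).card : ℝ) / (S ^ n).card ≤ 1 := by
      rw [div_le_one hpos]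
      exact_mod_cast Finset.card_filter_le _ _
    have h4 : (M : ℝ) * ρ n < 2 := by linarith [h2.1]
    have hM0 : (0 : ℝ) < M := lt_trans (by positivity) hM
    have hρ0 : 0 ≤ ρ n := by rw [hρ]; positivity
    rw [Real.dist_eq, sub_zero, abs_of_nonneg hρ0]
    have h5 : ρ n < 2 / M := by rw [lt_div_iff₀ hM0]; linarith
    have h6 : 2 / (M : ℝ) < ε := by
      rw [div_lt_iff₀ hM0]
      rw [div_lt_iff₀ hε] at hM
      linarith
    linarith
  · have hfi : H.FiniteIndex := ⟨hfin⟩
    have : Finite (G ⧸ H) := Subgroup.finite_quotient_of_finiteIndex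
    have := Fintype.ofFinite (G ⧸ H)
    have h1 := hq Finset.univ
    have h2 : ∀ n, (((S ^ n).filter (fun x : G => (x : G ⧸ H) ∈ (Finset.univ : Finset (G ⧸ H)))).card : ℝ) /
        (S ^ n).card = 1 := by
      intro n
      rw [Finset.filter_true_of_mem (fun x _ => Finset.mem_univ _), div_self (ball_pos h1S n).ne']
    simp only [h2] at h1
    have h3 : ((Finset.univ : Finset (G ⧸ H)).card : ℝ) = H.index := by
      rw [Finset.card_univ, Subgroup.index, Nat.card_eq_fintype_card]
    rw [h3] at h1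
    have h4 := (h1.const_sub 1).const_mul ((H.index : ℝ)⁻¹)
    have hne : (H.index : ℝ) ≠ 0 := by exact_mod_cast hfin
    rw [sub_zero, mul_one] at h4
    refine h4.congr (fun n => ?_)
    field_simp
    ring

end density

end Pool.Agent.H31.CR
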