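import Mathlib
import Pool.Agent.H31.CR.LemmaF
import Pool.Agent.H31.CR.Paths
import Pool.Agent.H31.CR.ClassEst
import Pool.Agent.H31.CR.Blocks
import Pool.Agent.H31.CR.Counting
import Pool.Agent.H31.CR.CaseOne
import Pool.Agent.H31.CR.CaseTwo

set_option autoImplicit false

namespace Pool.Agent.H31.CR

open Finset Pointwise Filter Topology

lemma poly_exp (D : ℕ) (A ε : ℝ) (hA : 0 < A) (hε : 0 < ε) :
    ∃ N0 : ℕ, ∀ N ≥ N0, A * ((N : ℝ) + 1) ^ D ≤ ε * 2 ^ N := by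
  have h1 := tendsto_pow_const_div_const_pow_of_one_lt D (r := (2 : ℝ)) (by norm_num)
  have h2 : Tendsto (fun n : ℕ => ((n + 1 : ℕ) : ℝ) ^ D / 2 ^ (n + 1)) atTop (𝓝 0) :=
    (tendsto_add_atTop_iff_nat (f := fun n : ℕ => (n : ℝ) ^ D / (2 : ℝ) ^ n) 1).mpr h1
  have h3 : ∀ᶠ n : ℕ in atTop, ((n + 1 : ℕ) : ℝ) ^ D / 2 ^ (n + 1) < ε / (2 * A) :=
    h2.eventually (gt_mem_nhds (by positivity))
  obtain ⟨N0, hN0⟩ := eventually_atTop.mp h3
  refine ⟨N0, fun N hN => ?_⟩
  have h4 := hN0 N hN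
  rw [div_lt_div_iff₀ (by positivity) (by positivity)] at h4
  push_cast at h4
  rw [pow_succ] at h4
  nlinarith [h4]

section
variable {G : Type*} [Group G] [DecidableEq G] {S : Finset G} {K Z : Subgroup G} {Ω : Finset G}

theorem case_two (h1S : (1 : G) ∈ S) (h1Ω : (1 : G) ∈ Ω)
    (hZ : ∀ z ∈ Z, ∀ x ∈ K, z * x = x * z) (hZK : Z ≤ K) (β : ℝ) (hβ : 1 < β)
    (hgrow : ∀ k : ℕ, β ^ k ≤ (S ^ k).card) (ε : ℝ) (hε : 0 < ε) :
    ∃ n0 : ℕ, ∀ n ≥ n0, ((Eset S K Z Ω n).card : ℝ) ≤ ε * (S ^ n).card := by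
  classical
  set R := ⌈6 * (Ω.card : ℝ) ^ 2 / ε⌉₊ + 1 with hR
  have hR1 : 1 ≤ R := by omega
  have hRε : 6 * (Ω.card : ℝ) ^ 2 ≤ ε * R := by
    have h1 : 6 * (Ω.card : ℝ) ^ 2 / ε ≤ R := by
      rw [hR]; push_cast
      have := Nat.le_ceil (6 * (Ω.card : ℝ) ^ 2 / ε)
      linarith
    rw [div_le_iff₀ hε] at h1
    linarith
  obtain ⟨k0, hk0⟩ := pow_unbounded_of_one_lt (4 * (R : ℝ)) hβ
  set k := k0 + 1 with hkdef
  have hk : 1 ≤ k := by omega
  have hkβ : 4 * (R : ℝ) ≤ β ^ k :=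
    hk0.le.trans (pow_le_pow_right₀ hβ.le (by omega))
  set T := (S ^ k).card + 1 with hT
  set C := (Cset S K Z Ω k).card with hC
  set D := (Dall S Z Ω k).card with hD
  set A : ℝ := 2 ^ C * (C + 1) ^ (C * T) * (Ω.card * (S ^ k).card) + 1 with hA
  have hApos : 0 < A := by positivity
  obtain ⟨N0, hN0⟩ := poly_exp D A (ε / 2) hApos (by positivity)
  refine ⟨k * (N0 + 1), fun n hn => ?_⟩
  have hN : N0 + 1 ≤ n / k := by
    rw [Nat.le_div_iff_mul_le (by omega), mul_comm]; exact hn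
  set N := n / k with hNdef
  have hnk : k * N + n % k = n := Nat.div_add_mod n k
  set s : ℝ := ((S ^ n).card : ℝ) with hs
  have hs0 : 0 ≤ s := by positivity
  have hmany : ((Emany S K Z Ω k T R n).card : ℝ) ≤ ε / 2 * s := by
    have h1 := Emany_card (S := S) (K := K) (Z := Z) (Ω := Ω) (k := k) T R n
    have h2 : (R : ℝ) * (Emany S K Z Ω k T R n).card ≤
        ∑ κ ∈ Cset S K Z Ω k, ((XC S K Z Ω k N (n % k) κ T).card : ℝ) := by
      exact_mod_cast h1
    have h3 : ∑ κ ∈ Cset S K Z Ω k, ((XC S K Z Ω k N (n % k) κ T).card : ℝ) ≤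
        ∑ κ ∈ Cset S K Z Ω k, 3 * s / nu S Z κ.2.1 k := by
      apply Finset.sum_le_sum
      intro κ hκ
      have h2 := XC_general (N := N) (r := n % k) hZ hZK hκ T (by omega) (by omega) (by omega)
      rw [hnk] at h2
      have h3 : (0 : ℝ) < nu S Z κ.2.1 k := by exact_mod_cast nu_pos h1S _ _
      rw [le_div_iff₀ h3, mul_comm, hs]
      exact_mod_cast h2
    have h4 := sum_class_le (Ω := Ω) (k := k) (K := K) (S := S) (Cset S K Z Ω k)
      (Finset.Subset.refl _)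
      (fun b => 3 * s / nu S Z b k) (fun b => (nu S Z b k : ℝ)) (fun b => by positivity)
      (fun a b => by exact_mod_cast fiber_card a b)
    have h5 : ∑ b ∈ Ω, (nu S Z b k : ℝ) * (3 * s / nu S Z b k) = Ω.card * (3 * s) := by
      rw [← nsmul_eq_mul, ← Finset.sum_const]
      apply Finset.sum_congr rfl
      intro b _
      have h3 : (0 : ℝ) < nu S Z b k := by exact_mod_cast nu_pos h1S _ _
      field_simp
    rw [h5] at h4
    have hRpos : (0 : ℝ) < R := by exact_mod_cast hR1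
    have h6 : (R : ℝ) * (Emany S K Z Ω k T R n).card ≤ R * (ε / 2 * s) := by
      calc _ ≤ (Ω.card : ℝ) * (Ω.card * (3 * s)) := h2.trans (h3.trans h4)
        _ = (6 * (Ω.card : ℝ) ^ 2) * (s / 2) := by ring
        _ ≤ (ε * R) * (s / 2) := mul_le_mul_of_nonneg_right hRε (by positivity)
        _ = _ := by ring
    exact le_of_mul_le_mul_left h6 hRpos
  have hfew : ((Efew S K Z Ω k T R n).card : ℝ) ≤ ε / 2 * s := by
    have h1 := Efew_card (S := S) (K := K) (Z := Z) (Ω := Ω) (k := k) h1S h1Ω hk hZ hZK T R n hR1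
    have h2 : ((Efew S K Z Ω k T R n).card : ℝ) ≤ 2 ^ C *
      ((2 * R) ^ N * (C + 1) ^ (C * T)) * ((N + 1) ^ D * (Ω.card * (S ^ k).card)) := by
      exact_mod_cast h1
    have h3 : (4 * (R : ℝ)) ^ N ≤ s := by
      calc (4 * (R : ℝ)) ^ N ≤ (β ^ k) ^ N := pow_le_pow_left₀ (by positivity) hkβ N
        _ = β ^ (k * N) := by rw [pow_mul]
        _ ≤ (S ^ (k * N)).card := hgrow _
        _ ≤ s := by
            rw [hs]
            exact_mod_cast Finset.card_le_card (Finset.pow_subset_pow_right h1S (by omega))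
    have h4 := hN0 N (by omega)
    calc ((Efew S K Z Ω k T R n).card : ℝ) ≤ _ := h2
      _ = (2 ^ C * (C + 1) ^ (C * T) * (Ω.card * (S ^ k).card)) * ((N : ℝ) + 1) ^ D * (2 * R) ^ N := by
          ring
      _ ≤ A * ((N : ℝ) + 1) ^ D * (2 * R) ^ N := by
          apply mul_le_mul_of_nonneg_right _ (by positivity)
          apply mul_le_mul_of_nonneg_right _ (by positivity)
          rw [hA]; linarith
      _ ≤ (ε / 2 * 2 ^ N) * (2 * R) ^ N := mul_le_mul_of_nonneg_right h4 (by positivity)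
      _ = ε / 2 * (4 * R) ^ N := by rw [mul_assoc, ← mul_pow]; ring
      _ ≤ ε / 2 * s := mul_le_mul_of_nonneg_left h3 (by positivity)
  have h := Eset_card_le (S := S) (K := K) (Z := Z) (Ω := Ω) hk T R n
  have h' : ((Eset S K Z Ω n).card : ℝ) ≤ (Emany S K Z Ω k T R n).card + (Efew S K Z Ω k T R n).card := by
    exact_mod_cast h
  linarith

lemma nu_unbounded (h1S : (1 : G) ∈ S) (hgen : ∀ g : G, ∃ j, g ∈ S ^ j) [Infinite (G ⧸ Z)] (M : ℕ) :
    ∃ j, M ≤ nu S Z 1 j := by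
  classical
  obtain ⟨F, hF⟩ := Infinite.exists_subset_card_eq (G ⧸ Z) M
  have h1 : ∀ q : G ⧸ Z, ∃ j, q ∈ nuset S Z 1 j := by
    intro q
    obtain ⟨j, hj⟩ := hgen q.out
    refine ⟨j, Finset.mem_image.mpr ⟨q.out, hj, ?_⟩⟩
    rw [inv_one, mul_one, QuotientGroup.out_eq']
  choose f hf using h1
  refine ⟨F.sup f, ?_⟩
  rw [← hF, nu_eq]
  apply Finset.card_le_card
  intro q hq
  exact nuset_mono h1S 1 (Finset.le_sup hq) (hf q)

/-- **Main counting theorem.** -/
theorem main_M (h1S : (1 : G) ∈ S) (hgen : ∀ g : G, ∃ j, g ∈ S ^ j) (h1Ω : (1 : G) ∈ Ω)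
    (hZ : ∀ z ∈ Z, ∀ x ∈ K, z * x = x * z) (hZK : Z ≤ K) [Infinite (G ⧸ Z)]
    (ε : ℝ) (hε : 0 < ε) :
    ∃ n0 : ℕ, ∀ n ≥ n0, ((Eset S K Z Ω n).card : ℝ) ≤ ε * (S ^ n).card := by
  classical
  by_cases hcase : ∀ δ : ℝ, 0 < δ → ∃ k : ℕ, 1 ≤ k ∧
      ∑ b ∈ Ω, ((nu S Z b k : ℝ) - nu S Z b (k - 1)) / nu S Z b k ≤ δ
  · set δ : ℝ := ε / (3 * Ω.card + 3) with hδ
    have hδpos : 0 < δ := by positivity
    obtain ⟨k, hk, hsum⟩ := hcase δ hδpos
    obtain ⟨n0, hn0⟩ := case_one (K := K) h1S h1Ω hk hZ hZK (nu_unbounded h1S hgen) δ hδpos hsum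
    refine ⟨n0, fun n hn => (hn0 n hn).trans (le_of_eq ?_)⟩
    congr 1
    rw [hδ]
    field_simp
  · push Not at hcase
    obtain ⟨δ, hδ, hk⟩ := hcase
    have hprod : ∀ k : ℕ, Real.exp (δ * k) ≤ ∏ b ∈ Ω, (nu S Z b k : ℝ) := by
      intro k
      induction k with
      | zero =>
        simp only [Nat.cast_zero, mul_zero, Real.exp_zero]
        have : ∀ b ∈ Ω, (1 : ℝ) ≤ nu S Z b 0 := fun b _ => by exact_mod_cast nu_pos h1S b 0
        calc (1 : ℝ) = ∏ b ∈ Ω, (1 : ℝ) := by simp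
          _ ≤ _ := Finset.prod_le_prod (fun _ _ => zero_le_one) this
      | succ k ih =>
        have h1 := hk (k + 1) (by omega)
        rw [Nat.add_sub_cancel] at h1
        set x : G → ℝ := fun b => ((nu S Z b (k + 1) : ℝ) - nu S Z b k) / nu S Z b (k + 1) with hx
        have h2 : ∀ b ∈ Ω, (nu S Z b k : ℝ) ≤ nu S Z b (k + 1) * Real.exp (-x b) := by
          intro b _
          have hpos : (0 : ℝ) < nu S Z b (k + 1) := by exact_mod_cast nu_pos h1S b (k + 1)
          have h3 : (nu S Z b k : ℝ) = nu S Z b (k + 1) * (1 - x b) := by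
            rw [hx]; field_simp; ring
          rw [h3]
          apply mul_le_mul_of_nonneg_left _ hpos.le
          have := Real.add_one_le_exp (-x b)
          linarith
        have h3 : ∏ b ∈ Ω, (nu S Z b k : ℝ) ≤
            (∏ b ∈ Ω, (nu S Z b (k + 1) : ℝ)) * Real.exp (-∑ b ∈ Ω, x b) := by
          rw [← Finset.sum_neg_distrib, Real.exp_sum, ← Finset.prod_mul_distrib]
          exact Finset.prod_le_prod (fun _ _ => by positivity) h2
        have h4 : Real.exp (-∑ b ∈ Ω, x b) ≤ Real.exp (-δ) := by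
          apply Real.exp_le_exp.mpr
          linarith
        have h5 : Real.exp (δ * k) ≤ (∏ b ∈ Ω, (nu S Z b (k + 1) : ℝ)) * Real.exp (-δ) :=
          (ih.trans h3).trans (mul_le_mul_of_nonneg_left h4 (by positivity))
        have h6 : Real.exp (δ * ((k + 1 : ℕ) : ℝ)) = Real.exp (δ * k) * Real.exp δ := by
          rw [← Real.exp_add]; congr 1; push_cast; ring
        rw [h6]
        calc Real.exp (δ * k) * Real.exp δ ≤
              ((∏ b ∈ Ω, (nu S Z b (k + 1) : ℝ)) * Real.exp (-δ)) * Real.exp δ :=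
              mul_le_mul_of_nonneg_right h5 (Real.exp_pos _).le
          _ = _ := by rw [mul_assoc, ← Real.exp_add]; simp
    have hΩpos : 0 < Ω.card := Finset.card_pos.mpr ⟨1, h1Ω⟩
    have hgrow : ∀ k : ℕ, (Real.exp (δ / Ω.card)) ^ k ≤ (S ^ k).card := by
      intro k
      have h1 : ((Real.exp (δ / Ω.card)) ^ k) ^ Ω.card ≤ ((S ^ k).card : ℝ) ^ Ω.card := by
        have h2 : ((Real.exp (δ / Ω.card)) ^ k) ^ Ω.card = Real.exp (δ * k) := by
          rw [← Real.exp_nat_mul, ← Real.exp_nat_mul]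
          congr 1
          have : (Ω.card : ℝ) ≠ 0 := by exact_mod_cast hΩpos.ne'
          field_simp
        rw [h2]
        refine (hprod k).trans ?_
        calc ∏ b ∈ Ω, (nu S Z b k : ℝ) ≤ ∏ b ∈ Ω, ((S ^ k).card : ℝ) :=
              Finset.prod_le_prod (fun _ _ => by positivity)
                (fun b _ => by exact_mod_cast nu_le b k)
          _ = _ := by rw [Finset.prod_const]
      exact (pow_le_pow_iff_left₀ (by positivity) (by positivity) hΩpos.ne').mp h1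
    exact case_two h1S h1Ω hZ hZK (Real.exp (δ / Ω.card))
      (Real.one_lt_exp_iff.mpr (by positivity)) hgrow ε hε

end

end Pool.Agent.H31.CR
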