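import Mathlib
import Pool.Agent.H31.CR.Blocks
import Pool.Agent.H31.CR.MainM

set_option autoImplicit false

namespace Pool.Agent.H31.CR

open Finset Pointwise Filter Topology

section
variable {G : Type*} [Group G] [DecidableEq G] {S : Finset G}

lemma exists_walk (n : ℕ) (x : G) (hx : x ∈ S ^ n) :
    ∃ u : ℕ → G, u 0 = 1 ∧ u n = x ∧ ∀ j < n, (u j)⁻¹ * u (j + 1) ∈ S := by
  induction n generalizing x with
  | zero =>
    rw [pow_zero, Finset.mem_one] at hx
    exact ⟨fun _ => 1, rfl, hx.symm, fun j hj => absurd hj (Nat.not_lt_zero j)⟩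
  | succ n ih =>
    rw [pow_succ] at hx
    obtain ⟨y, hy, s, hs, rfl⟩ := Finset.mem_mul.mp hx
    obtain ⟨u, h0, h1, h2⟩ := ih y hy
    refine ⟨fun j => if j ≤ n then u j else y * s, by simp [h0], by simp, ?_⟩
    intro j hj
    by_cases hjn : j < n
    · simp only [hjn.le, if_true, Nat.succ_le_of_lt hjn]
      exact h2 j hjn
    · have : j = n := by omega
      subst this
      simp [h1, hs]

lemma walk_mem {n : ℕ} {u : ℕ → G} (h : ∀ j < n, (u j)⁻¹ * u (j + 1) ∈ S) (i j : ℕ)
    (hij : i ≤ j) (hjn : j ≤ n) : (u i)⁻¹ * u j ∈ S ^ (j - i) := by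
  induction j, hij using Nat.le_induction with
  | base => simp
  | succ j hij ih =>
    have h1 : (u i)⁻¹ * u (j + 1) = ((u i)⁻¹ * u j) * ((u j)⁻¹ * u (j + 1)) := by group
    rw [h1, Nat.sub_add_comm hij, pow_succ]
    exact Finset.mul_mem_mul (ih (by omega)) (h j (by omega))

/-- Few rotations: all rotations are conjugates by short elements. -/
lemma short_conj (h1S : (1 : G) ∈ S) {n : ℕ} {u : ℕ → G} (h0 : u 0 = 1)
    (h : ∀ j < n, (u j)⁻¹ * u (j + 1) ∈ S) (x : G) (j : ℕ) (hj : j ≤ n) :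
    ∀ i ≤ j, ∃ g ∈ S ^ ((Finset.range (j + 1)).image (fun i => (u i)⁻¹ * x * u i)).card,
      (u i)⁻¹ * x * u i = g⁻¹ * x * g := by
  induction j with
  | zero =>
    intro i hi
    have : i = 0 := by omega
    subst this
    exact ⟨1, Finset.one_mem_pow h1S, by simp [h0]⟩
  | succ j ih =>
    have ih' := ih (by omega)
    have hins : (Finset.range (j + 1 + 1)).image (fun i => (u i)⁻¹ * x * u i) =
        insert ((u (j + 1))⁻¹ * x * u (j + 1))
          ((Finset.range (j + 1)).image (fun i => (u i)⁻¹ * x * u i)) := by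
      rw [Finset.range_add_one, Finset.image_insert]
    have hmono : ((Finset.range (j + 1)).image (fun i => (u i)⁻¹ * x * u i)).card ≤
        ((Finset.range (j + 1 + 1)).image (fun i => (u i)⁻¹ * x * u i)).card := by
      rw [hins]; exact Finset.card_le_card (Finset.subset_insert _ _)
    have hold : ∀ i ≤ j, ∃ g ∈ S ^ ((Finset.range (j + 1 + 1)).image
        (fun i => (u i)⁻¹ * x * u i)).card, (u i)⁻¹ * x * u i = g⁻¹ * x * g := by
      intro i hi
      obtain ⟨g, hg, he⟩ := ih' i hi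
      exact ⟨g, Finset.pow_subset_pow_right h1S hmono hg, he⟩
    intro i hi
    rcases Nat.lt_or_ge i (j + 1) with hlt | hge
    · exact hold i (by omega)
    · have hij : i = j + 1 := by omega
      subst hij
      by_cases hmem : (u (j + 1))⁻¹ * x * u (j + 1) ∈
          (Finset.range (j + 1)).image (fun i => (u i)⁻¹ * x * u i)
      · obtain ⟨i', hi', he⟩ := Finset.mem_image.mp hmem
        obtain ⟨g, hg, he'⟩ := hold i' (by have := Finset.mem_range.mp hi'; omega)
        exact ⟨g, hg, by rw [← he, ← he']⟩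
      · obtain ⟨g, hg, he⟩ := ih' j le_rfl
        refine ⟨g * ((u j)⁻¹ * u (j + 1)), ?_, ?_⟩
        · rw [hins, Finset.card_insert_of_notMem hmem, pow_succ]
          exact Finset.mul_mem_mul hg (h j (by omega))
        · calc (u (j + 1))⁻¹ * x * u (j + 1)
              = ((u j)⁻¹ * u (j + 1))⁻¹ * ((u j)⁻¹ * x * u j) * ((u j)⁻¹ * u (j + 1)) := by group
            _ = ((u j)⁻¹ * u (j + 1))⁻¹ * (g⁻¹ * x * g) * ((u j)⁻¹ * u (j + 1)) := by rw [he]
            _ = _ := by group

/-- subgroup generated by a finite set -/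
def Kof (Θ : Finset G) : Subgroup G := Subgroup.closure (Θ : Set G)

/-- its centre -/
def Zof (Θ : Finset G) : Subgroup G := Kof Θ ⊓ Subgroup.centralizer (Kof Θ : Set G)

omit [DecidableEq G] in
lemma Zof_le (Θ : Finset G) : Zof Θ ≤ Kof Θ := inf_le_left

omit [DecidableEq G] in
lemma Zof_comm (Θ : Finset G) : ∀ z ∈ Zof Θ, ∀ x ∈ Kof Θ, z * x = x * z := by
  intro z hz x hx
  exact (Subgroup.mem_centralizer_iff.mp hz.2 x hx).symm

/-- the finite set of possible differences -/
def Theta (S : Finset G) (m : ℕ) : Finset G := S ^ m * S * (S ^ m)⁻¹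

open Classical in
/-- Dichotomy for the elements of the ball. -/
lemma dichotomy (h1S : (1 : G) ∈ S) (m n : ℕ) (x : G) (hx : x ∈ S ^ n) :
    m ≤ ((S ^ n).filter (fun y => ConjClasses.mk y = ConjClasses.mk x)).card ∨
    ∃ Θ ⊆ Theta S m, ∃ y ∈ Eset S (Kof Θ) (Zof Θ) (S ^ m) n, (y : G) = x := by
  obtain ⟨u, h0, hn, h⟩ := exists_walk n x hx
  by_cases hcase : m ≤ ((Finset.range (n + 1)).image (fun i => (u i)⁻¹ * x * u i)).card
  · left
    refine hcase.trans (Finset.card_le_card ?_)
    intro y hy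
    obtain ⟨i, hi, rfl⟩ := Finset.mem_image.mp hy
    rw [Finset.mem_range] at hi
    rw [Finset.mem_filter]
    refine ⟨?_, ?_⟩
    · have h1 : (u i)⁻¹ * x * u i = ((u i)⁻¹ * u n) * ((u 0)⁻¹ * u i) := by rw [h0, hn]; group
      have h2 := walk_mem h i n (by omega) le_rfl
      have h3 := walk_mem h 0 i (by omega) (by omega)
      rw [h1]
      have h4 : S ^ n = S ^ (n - i) * S ^ (i - 0) := by
        rw [← pow_add]; congr 1; omega
      rw [h4]
      exact Finset.mul_mem_mul h2 h3
    · rw [ConjClasses.mk_eq_mk_iff_isConj]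
      refine isConj_iff.mpr ⟨u i, ?_⟩
      group
  · right
    push Not at hcase
    have hshort := short_conj h1S h0 h x n le_rfl
    have hg : ∀ i, ∃ g, i ≤ n → (g ∈ S ^ m ∧ (u i)⁻¹ * x * u i = g⁻¹ * x * g) := by
      intro i
      by_cases hi : i ≤ n
      · obtain ⟨g, hg1, hg2⟩ := hshort i hi
        exact ⟨g, fun _ => ⟨Finset.pow_subset_pow_right h1S hcase.le hg1, hg2⟩⟩
      · exact ⟨1, fun h => absurd h hi⟩
    choose g' hg' using hg
    -- modify so that g 0 = g n = 1
    set g : ℕ → G := fun i => if i = 0 ∨ i = n then 1 else g' i with hgdef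
    have hgs : ∀ i ≤ n, g i ∈ S ^ m ∧ (u i)⁻¹ * x * u i = (g i)⁻¹ * x * g i := by
      intro i hi
      rw [hgdef]
      by_cases hc : i = 0 ∨ i = n
      · simp only [hc, if_true]
        refine ⟨Finset.one_mem_pow h1S, ?_⟩
        rcases hc with rfl | rfl
        · simp [h0]
        · rw [hn]; simp
      · simp only [hc, if_false]
        exact hg' i hi
    set Θ : Finset G := (Theta S m).filter (fun d => d * x = x * d) with hΘ
    have hd : ∀ j < n, g j * ((u j)⁻¹ * u (j + 1)) * (g (j + 1))⁻¹ ∈ Θ := by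
      intro j hj
      rw [hΘ, Finset.mem_filter]
      obtain ⟨h1, h2⟩ := hgs j hj.le
      obtain ⟨h3, h4⟩ := hgs (j + 1) hj
      refine ⟨Finset.mul_mem_mul (Finset.mul_mem_mul h1 (h j hj)) (Finset.inv_mem_inv h3), ?_⟩
      have h5 : (g (j + 1))⁻¹ * x = ((u (j + 1))⁻¹ * x * u (j + 1)) * (g (j + 1))⁻¹ := by
        rw [h4]; group
      have h6 : u j * (g j)⁻¹ * x * (g j * (u j)⁻¹) = x := by
        have : x = u j * ((u j)⁻¹ * x * u j) * (u j)⁻¹ := by group
        rw [this, h2]
        have h7 : (u j) * (g j)⁻¹ * (u j * ((g j)⁻¹ * x * g j) * (u j)⁻¹) * (g j * (u j)⁻¹) =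
            (u j) * ((g j)⁻¹ * x * g j) * (u j)⁻¹ := by
          rw [← h2]
          have : u j * (g j)⁻¹ * (u j * ((u j)⁻¹ * x * u j) * (u j)⁻¹) * (g j * (u j)⁻¹) =
            u j * ((g j)⁻¹ * x * g j) * (u j)⁻¹ := by group
          rw [this, ← h2]
        exact h7
      have h8 : g j * ((u j)⁻¹ * u (j + 1)) * (g (j + 1))⁻¹ * x =
          g j * ((u j)⁻¹ * u (j + 1)) * (((u (j + 1))⁻¹ * x * u (j + 1)) * (g (j + 1))⁻¹) := by
        rw [← h5]; group
      rw [h8]
      have h9 : g j * ((u j)⁻¹ * u (j + 1)) * (((u (j + 1))⁻¹ * x * u (j + 1)) * (g (j + 1))⁻¹) =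
          (g j * (u j)⁻¹) * x * (u (j + 1) * (g (j + 1))⁻¹) := by group
      rw [h9]
      have h10 : (g j * (u j)⁻¹) * x = x * (g j * (u j)⁻¹) := by
        calc (g j * (u j)⁻¹) * x = (g j * (u j)⁻¹) * (u j * (g j)⁻¹ * x * (g j * (u j)⁻¹)) := by
              rw [h6]
          _ = x * (g j * (u j)⁻¹) := by group
      rw [h10]; group
    have hdK : ∀ j < n, g j * ((u j)⁻¹ * u (j + 1)) * (g (j + 1))⁻¹ ∈ Kof Θ := fun j hj =>
      Subgroup.subset_closure (by exact_mod_cast hd j hj)
    have hpath : ∀ j ≤ n, LPath S (Kof Θ) (S ^ m) j (g j) (u j) := by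
      intro j
      induction j with
      | zero =>
        intro _
        have : g 0 = 1 := by simp [hgdef]
        rw [this, h0]; exact LPath.nil
      | succ j ih =>
        intro hj
        have h1 := ih (by omega)
        have h2 : u (j + 1) = u j * ((u j)⁻¹ * u (j + 1)) := by group
        rw [h2]
        exact LPath.step h1 (h j (by omega)) (hdK j (by omega)) (hgs (j + 1) hj).1
    have hgn : g n = 1 := by simp [hgdef]
    have hpn := hpath n le_rfl
    rw [hgn, hn] at hpn
    have hxK : x ∈ Kof Θ := by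
      have : ∀ j ≤ n, u j * (g j)⁻¹ ∈ Kof Θ := by
        intro j
        induction j with
        | zero =>
          intro _
          have : g 0 = 1 := by simp [hgdef]
          rw [this, h0]; simp
        | succ j ih =>
          intro hj
          have h1 := (Kof Θ).mul_mem (ih (by omega)) (hdK j (by omega))
          have h2 : u (j + 1) * (g (j + 1))⁻¹ =
            u j * (g j)⁻¹ * (g j * ((u j)⁻¹ * u (j + 1)) * (g (j + 1))⁻¹) := by group
          rw [h2]; exact h1
      have h1 := this n le_rfl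
      rw [hgn, hn] at h1
      simpa using h1
    have hxC : x ∈ Subgroup.centralizer (Kof Θ : Set G) := by
      unfold Kof
      rw [Subgroup.centralizer_closure]
      rw [Subgroup.mem_centralizer_iff]
      intro d hd
      have hd' : d ∈ Θ := by exact_mod_cast hd
      rw [hΘ, Finset.mem_filter] at hd'
      exact hd'.2
    refine ⟨Θ, Finset.filter_subset _ _, ⟨x, hxK, hxC⟩, ?_, rfl⟩
    unfold Eset
    rw [Finset.mem_filter, Finset.mem_subtype]
    exact ⟨hx, hpn⟩

open Classical in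
lemma class_count (h1S : (1 : G) ∈ S) (m n : ℕ) (hm : 1 ≤ m) :
    (((S ^ n).image ConjClasses.mk).card : ℝ) ≤ (S ^ n).card / m +
      ∑ Θ ∈ (Theta S m).powerset, ((Eset S (Kof Θ) (Zof Θ) (S ^ m) n).card : ℝ) := by
  set A := ((S ^ n).image ConjClasses.mk).filter
    (fun κ => m ≤ ((S ^ n).filter (fun y => ConjClasses.mk y = κ)).card) with hA
  set B := (Theta S m).powerset.biUnion (fun Θ =>
    (Eset S (Kof Θ) (Zof Θ) (S ^ m) n).image (fun y : Zof Θ => ConjClasses.mk (y : G))) with hB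
  have hsub : (S ^ n).image ConjClasses.mk ⊆ A ∪ B := by
    intro κ hκ
    obtain ⟨x, hx, rfl⟩ := Finset.mem_image.mp hκ
    rcases dichotomy h1S m n x hx with h | ⟨Θ, hΘ, y, hy, he⟩
    · exact Finset.mem_union_left _ (Finset.mem_filter.mpr ⟨hκ, h⟩)
    · refine Finset.mem_union_right _ (Finset.mem_biUnion.mpr ⟨Θ, Finset.mem_powerset.mpr hΘ, ?_⟩)
      exact Finset.mem_image.mpr ⟨y, hy, by rw [he]⟩
  have hAc : (A.card : ℝ) ≤ (S ^ n).card / m := by
    have h1 : m * A.card ≤ (S ^ n).card := by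
      rw [Finset.card_eq_sum_card_image ConjClasses.mk (S ^ n)]
      calc m * A.card = ∑ κ ∈ A, m := by rw [Finset.sum_const, smul_eq_mul, mul_comm]
        _ ≤ ∑ κ ∈ A, ((S ^ n).filter (fun y => ConjClasses.mk y = κ)).card :=
            Finset.sum_le_sum (fun κ hκ => (Finset.mem_filter.mp hκ).2)
        _ ≤ _ := Finset.sum_le_sum_of_subset (Finset.filter_subset _ _)
    have hm' : (0 : ℝ) < m := by exact_mod_cast hm
    rw [le_div_iff₀ hm', mul_comm]
    exact_mod_cast h1
  have hBc : (B.card : ℝ) ≤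
      ∑ Θ ∈ (Theta S m).powerset, ((Eset S (Kof Θ) (Zof Θ) (S ^ m) n).card : ℝ) := by
    have h1 : B.card ≤ ∑ Θ ∈ (Theta S m).powerset, (Eset S (Kof Θ) (Zof Θ) (S ^ m) n).card :=
      Finset.card_biUnion_le.trans (Finset.sum_le_sum (fun Θ _ => Finset.card_image_le))
    exact_mod_cast h1
  have h2 : (((S ^ n).image ConjClasses.mk).card : ℝ) ≤ A.card + B.card := by
    exact_mod_cast (Finset.card_le_card hsub).trans (Finset.card_union_le _ _)
  linarith

open Classical in
/-- Groups which are not virtually abelian have conjugacy ratio zero, with an actual limit. -/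
theorem tendsto_zero (h1S : (1 : G) ∈ S) (hgen : ∀ g : G, ∃ j, g ∈ S ^ j)
    (hva : ¬ ∃ H : Subgroup G, H.FiniteIndex ∧ ∀ a ∈ H, ∀ b ∈ H, a * b = b * a) :
    Tendsto (fun n => (((S ^ n).image ConjClasses.mk).card : ℝ) / (S ^ n).card) atTop (𝓝 0) := by
  rw [Metric.tendsto_atTop]
  intro ε hε
  obtain ⟨m, hm⟩ := exists_nat_gt (2 / ε)
  have hmpos : 1 ≤ m := by
    by_contra hcon
    have : m = 0 := by omega
    subst this
    have : (0 : ℝ) < 2 / ε := by positivity
    push_cast at hm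
    linarith
  have hmε : 1 / (m : ℝ) < ε / 2 := by
    have hm' : (0 : ℝ) < m := by exact_mod_cast hmpos
    rw [div_lt_iff₀ hε] at hm
    rw [div_lt_iff₀ hm']
    linarith
  set P := (Theta S m).powerset with hP
  have hPpos : (0 : ℝ) < P.card := by
    have : 0 < P.card := Finset.card_pos.mpr ⟨∅, Finset.empty_mem_powerset _⟩
    exact_mod_cast this
  have hex : ∀ Θ ∈ P, ∃ n0 : ℕ, ∀ n ≥ n0, ((Eset S (Kof Θ) (Zof Θ) (S ^ m) n).card : ℝ) ≤
      (ε / (2 * P.card)) * (S ^ n).card := by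
    intro Θ _
    have : Infinite (G ⧸ Zof Θ) := by
      rw [← not_finite_iff_infinite]
      intro hfin
      apply hva
      refine ⟨Zof Θ, Subgroup.finiteIndex_of_finite_quotient, ?_⟩
      intro a ha b hb
      exact Zof_comm Θ a ha b (Zof_le Θ hb)
    exact main_M h1S hgen (Finset.one_mem_pow h1S) (Zof_comm Θ) (Zof_le Θ) _ (by positivity)
  choose! f hf using hex
  refine ⟨P.sup f, fun n hn => ?_⟩
  have hs : (0 : ℝ) < (S ^ n).card := by
    have : 0 < (S ^ n).card := Finset.card_pos.mpr ⟨1, Finset.one_mem_pow h1S⟩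
    exact_mod_cast this
  have h1 := class_count h1S m n hmpos
  have h2 : ∑ Θ ∈ P, ((Eset S (Kof Θ) (Zof Θ) (S ^ m) n).card : ℝ) ≤ ε / 2 * (S ^ n).card := by
    calc _ ≤ ∑ Θ ∈ P, (ε / (2 * P.card)) * (S ^ n).card :=
          Finset.sum_le_sum (fun Θ hΘ => hf Θ hΘ n ((Finset.le_sup hΘ).trans hn))
      _ = _ := by
          rw [Finset.sum_const, nsmul_eq_mul]
          field_simp
  rw [dist_zero_right, Real.norm_of_nonneg (by positivity), div_lt_iff₀ hs]
  calc _ ≤ _ := h1
    _ ≤ ((S ^ n).card : ℝ) / m + ε / 2 * (S ^ n).card := by linarith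
    _ = (1 / (m : ℝ) + ε / 2) * (S ^ n).card := by ring
    _ < (ε / 2 + ε / 2) * (S ^ n).card := by
        apply mul_lt_mul_of_pos_right _ hs
        linarith
    _ = ε * (S ^ n).card := by ring

end

end Pool.Agent.H31.CR
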