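import Mathlib
import Pool.Agent.H31.CR.Stable
import Pool.Agent.H31.CR.Density

set_option autoImplicit false

namespace Pool.Agent.H31.CR

open Finset Pointwise Filter Topology

lemma mem_cj {G : Type*} [Group G] {x y : G} : y ∈ conjugatesOf x ↔ ∃ c, c * x * c⁻¹ = y :=
  isConj_iff

section classes
variable {G : Type*} [Group G] [DecidableEq G] {S : Finset G}

omit [DecidableEq G] in
/-- inverse of the size of the conjugacy class, zero if the class is infinite -/
noncomputable def kinv (x : G) : ℝ := ((conjugatesOf x).ncard : ℝ)⁻¹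

omit [DecidableEq G] in
lemma card_image_eq_sum {α β : Type*} [DecidableEq β] (s : Finset α) (φ : α → β) :
    ((s.image φ).card : ℝ) = ∑ x ∈ s, (((s.filter (fun y => φ y = φ x)).card : ℝ))⁻¹ := by
  have hmaps : ∀ x ∈ s, φ x ∈ s.image φ := fun x hx => Finset.mem_image_of_mem _ hx
  rw [← Finset.sum_fiberwise_of_maps_to hmaps]
  rw [Finset.card_eq_sum_ones]
  push_cast
  apply Finset.sum_congr rfl
  intro κ hκ
  obtain ⟨x, hx, rfl⟩ := Finset.mem_image.mp hκ
  have h1 : ∀ y ∈ s.filter (fun y => φ y = φ x),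
      (((s.filter (fun z => φ z = φ y)).card : ℝ))⁻¹ =
      (((s.filter (fun z => φ z = φ x)).card : ℝ))⁻¹ := by
    intro y hy
    rw [(Finset.mem_filter.mp hy).2]
  rw [Finset.sum_congr rfl h1, Finset.sum_const, nsmul_eq_mul]
  have h2 : ((s.filter (fun z => φ z = φ x)).card : ℝ) ≠ 0 := by
    have : 0 < (s.filter (fun z => φ z = φ x)).card :=
      Finset.card_pos.mpr ⟨x, Finset.mem_filter.mpr ⟨hx, rfl⟩⟩
    exact_mod_cast this.ne'
  rw [mul_inv_cancel₀ h2]

open Classical in
lemma kinv_le (x : G) (n : ℕ) (hx : x ∈ S ^ n) :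
    kinv x ≤ (((S ^ n).filter (fun y => ConjClasses.mk y = ConjClasses.mk x)).card : ℝ)⁻¹ := by
  unfold kinv
  by_cases hfin : (conjugatesOf x).Finite
  · have h1 : ((S ^ n).filter (fun y => ConjClasses.mk y = ConjClasses.mk x)).card ≤
        (conjugatesOf x).ncard := by
      rw [← Set.ncard_coe_finset]
      apply Set.ncard_le_ncard _ hfin
      intro y hy
      rw [Finset.mem_coe, Finset.mem_filter, ConjClasses.mk_eq_mk_iff_isConj] at hy
      exact hy.2.symm
    have h2 : 0 < ((S ^ n).filter (fun y => ConjClasses.mk y = ConjClasses.mk x)).card :=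
      Finset.card_pos.mpr ⟨x, Finset.mem_filter.mpr ⟨hx, rfl⟩⟩
    apply inv_anti₀
    · exact_mod_cast h2
    · exact_mod_cast h1
  · rw [Set.Infinite.ncard hfin, Nat.cast_zero, inv_zero]
    positivity

/-- conjugates by elements of `S^i` -/
def Wset (S : Finset G) (x : G) (i : ℕ) : Finset G := (S ^ i).image (fun g => g⁻¹ * x * g)

lemma Wset_mono (h1S : (1 : G) ∈ S) (x : G) {i j : ℕ} (h : i ≤ j) : Wset S x i ⊆ Wset S x j :=
  Finset.image_subset_image (Finset.pow_subset_pow_right h1S h)

lemma Wset_stable (h1S : (1 : G) ∈ S) (hgen : ∀ g : G, ∃ j, g ∈ S ^ j) (x : G) (i : ℕ)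
    (h : Wset S x i = Wset S x (i + 1)) : conjugatesOf x = (Wset S x i : Set G) := by
  have h1 : ∀ j, ∀ g ∈ S ^ j, g⁻¹ * x * g ∈ Wset S x i := by
    intro j
    induction j with
    | zero =>
      intro g hg
      rw [pow_zero, Finset.mem_one] at hg
      subst hg
      exact Finset.mem_image.mpr ⟨1, Finset.one_mem_pow h1S, rfl⟩
    | succ j ih =>
      intro g hg
      rw [pow_succ] at hg
      obtain ⟨g', hg', s, hs, rfl⟩ := Finset.mem_mul.mp hg
      obtain ⟨g'', hg'', he⟩ := Finset.mem_image.mp (ih g' hg')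
      rw [h]
      refine Finset.mem_image.mpr ⟨g'' * s, by rw [pow_succ]; exact Finset.mul_mem_mul hg'' hs, ?_⟩
      calc (g'' * s)⁻¹ * x * (g'' * s) = s⁻¹ * (g''⁻¹ * x * g'') * s := by group
        _ = s⁻¹ * (g'⁻¹ * x * g') * s := by rw [he]
        _ = _ := by group
  ext y
  rw [mem_cj, Finset.mem_coe]
  constructor
  · rintro ⟨c, rfl⟩
    obtain ⟨j, hj⟩ := hgen c⁻¹
    have := h1 j c⁻¹ hj
    simpa using this
  · intro hy
    obtain ⟨g, _, rfl⟩ := Finset.mem_image.mp hy
    exact ⟨g⁻¹, by group⟩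

open Classical in
lemma le_kinv (h1S : (1 : G) ∈ S) (hinv : S⁻¹ = S) (hgen : ∀ g : G, ∃ j, g ∈ S ^ j)
    (m n : ℕ) (hm : 1 ≤ m) (hn : 2 * m ≤ n) (x : G) (hx : x ∈ S ^ (n - 2 * m)) :
    (((S ^ n).filter (fun y => ConjClasses.mk y = ConjClasses.mk x)).card : ℝ)⁻¹ ≤
      kinv x + 1 / m := by
  have hk0 : 0 ≤ kinv x := by unfold kinv; positivity
  have hW : ∀ i ≤ m, Wset S x i ⊆ (S ^ n).filter (fun y => ConjClasses.mk y = ConjClasses.mk x) := by
    intro i hi y hy
    obtain ⟨g, hg, rfl⟩ := Finset.mem_image.mp hy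
    rw [Finset.mem_filter]
    constructor
    · have hg' : g⁻¹ ∈ S ^ i := by
        have := Finset.inv_mem_inv hg
        rwa [← inv_pow, hinv] at this
      have h1 : S ^ i * S ^ (n - 2 * m) * S ^ i ⊆ S ^ n := by
        rw [← pow_add, ← pow_add]
        exact Finset.pow_subset_pow_right h1S (by omega)
      exact h1 (Finset.mul_mem_mul (Finset.mul_mem_mul hg' hx) hg)
    · rw [ConjClasses.mk_eq_mk_iff_isConj]
      exact isConj_iff.mpr ⟨g, by group⟩
  by_cases hcase : ∃ i < m, Wset S x i = Wset S x (i + 1)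
  · obtain ⟨i, hi, he⟩ := hcase
    have h1 := Wset_stable h1S hgen x i he
    have h2 : kinv x = ((Wset S x i).card : ℝ)⁻¹ := by
      unfold kinv
      rw [h1, Set.ncard_coe_finset]
    have h3 : 0 < (Wset S x i).card :=
      Finset.card_pos.mpr ⟨x, Finset.mem_image.mpr ⟨1, Finset.one_mem_pow h1S, by simp⟩⟩
    have h4 := Finset.card_le_card (hW i hi.le)
    have h5 : (((S ^ n).filter (fun y => ConjClasses.mk y = ConjClasses.mk x)).card : ℝ)⁻¹ ≤ kinv x := by
      rw [h2]
      apply inv_anti₀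
      · exact_mod_cast h3
      · exact_mod_cast h4
    have : (0 : ℝ) ≤ 1 / m := by positivity
    linarith
  · push Not at hcase
    have h1 : ∀ i ≤ m, i + 1 ≤ (Wset S x i).card := by
      intro i
      induction i with
      | zero =>
        intro _
        exact Finset.card_pos.mpr ⟨x, Finset.mem_image.mpr ⟨1, Finset.one_mem_pow h1S, by simp⟩⟩
      | succ i ih =>
        intro hi
        have h2 := ih (by omega)
        have h3 : Wset S x i ⊂ Wset S x (i + 1) :=
          Finset.ssubset_iff_subset_ne.mpr ⟨Wset_mono h1S x (Nat.le_succ i), hcase i (by omega)⟩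
        have := Finset.card_lt_card h3
        omega
    have h2 := (h1 m le_rfl).trans (Finset.card_le_card (hW m le_rfl))
    have h3 : (((S ^ n).filter (fun y => ConjClasses.mk y = ConjClasses.mk x)).card : ℝ)⁻¹ ≤
        1 / m := by
      rw [one_div]
      apply inv_anti₀
      · exact_mod_cast hm
      · have : m ≤ ((S ^ n).filter (fun y => ConjClasses.mk y = ConjClasses.mk x)).card := by omega
        exact_mod_cast this
    linarith

open Classical in
/-- the number of classes is asymptotic to the sum of the inverse class sizes -/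
theorem classes_vs_kinv (h1S : (1 : G) ∈ S) (hinv : S⁻¹ = S) (hgen : ∀ g : G, ∃ j, g ∈ S ^ j)
    (hst : StableGrowth S) :
    Tendsto (fun n : ℕ => (((S ^ n).image ConjClasses.mk).card : ℝ) / (S ^ n).card -
      (∑ x ∈ S ^ n, kinv x) / (S ^ n).card) atTop (𝓝 0) := by
  have hlow : ∀ n : ℕ, (∑ x ∈ S ^ n, kinv x) ≤ (((S ^ n).image ConjClasses.mk).card : ℝ) := by
    intro n
    rw [card_image_eq_sum]
    exact Finset.sum_le_sum (fun x hx => kinv_le x n hx)
  rw [Metric.tendsto_atTop]
  intro ε hε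
  obtain ⟨m, hm⟩ := exists_nat_gt (2 / ε)
  have hm0 : (0 : ℝ) < m := lt_trans (by positivity) hm
  have hm1 : 1 ≤ m := by exact_mod_cast hm0
  have hmε : 1 / (m : ℝ) < ε / 2 := by
    rw [div_lt_iff₀ hε] at hm
    rw [div_lt_iff₀ hm0]
    linarith
  obtain ⟨n0, hn0⟩ := (Metric.tendsto_atTop.mp (hst.down h1S (2 * m))) (ε / 2) (by positivity)
  refine ⟨max n0 (2 * m), fun n hn => ?_⟩
  have hn1 : n0 ≤ n := (le_max_left _ _).trans hn
  have hn2 : 2 * m ≤ n := (le_max_right _ _).trans hn
  have hpos := ball_pos h1S n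
  have h1 := hn0 n hn1
  rw [Real.dist_eq, sub_zero] at h1
  have h2 := lt_of_le_of_lt (le_abs_self _) h1
  rw [div_lt_iff₀ hpos] at h2
  have hsub : S ^ (n - 2 * m) ⊆ S ^ n := Finset.pow_subset_pow_right h1S (Nat.sub_le _ _)
  have hup : (((S ^ n).image ConjClasses.mk).card : ℝ) ≤ (∑ x ∈ S ^ n, kinv x) +
      (1 / m) * (S ^ n).card + (((S ^ n).card : ℝ) - (S ^ (n - 2 * m)).card) := by
    rw [card_image_eq_sum, ← Finset.sum_sdiff hsub]
    have h3 : ∑ x ∈ S ^ n \ S ^ (n - 2 * m),
        (((S ^ n).filter (fun y => ConjClasses.mk y = ConjClasses.mk x)).card : ℝ)⁻¹ ≤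
        (((S ^ n).card : ℝ) - (S ^ (n - 2 * m)).card) := by
      calc _ ≤ ∑ x ∈ S ^ n \ S ^ (n - 2 * m), (1 : ℝ) := by
            apply Finset.sum_le_sum
            intro x hx
            apply inv_le_one_of_one_le₀
            have : 0 < ((S ^ n).filter (fun y => ConjClasses.mk y = ConjClasses.mk x)).card :=
              Finset.card_pos.mpr ⟨x, Finset.mem_filter.mpr ⟨(Finset.mem_sdiff.mp hx).1, rfl⟩⟩
            exact_mod_cast this
        _ = _ := by
            rw [Finset.sum_const, nsmul_eq_mul, mul_one, Finset.card_sdiff_of_subset hsub,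
              Nat.cast_sub (Finset.card_le_card hsub)]
    have h4 : ∑ x ∈ S ^ (n - 2 * m),
        (((S ^ n).filter (fun y => ConjClasses.mk y = ConjClasses.mk x)).card : ℝ)⁻¹ ≤
        (∑ x ∈ S ^ n, kinv x) + (1 / m) * (S ^ n).card := by
      calc _ ≤ ∑ x ∈ S ^ (n - 2 * m), (kinv x + 1 / m) :=
            Finset.sum_le_sum (fun x hx => le_kinv h1S hinv hgen m n hm1 hn2 x hx)
        _ = ∑ x ∈ S ^ (n - 2 * m), kinv x + (1 / m) * (S ^ (n - 2 * m)).card := by
            rw [Finset.sum_add_distrib, Finset.sum_const, nsmul_eq_mul]; ring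
        _ ≤ _ := by
            apply add_le_add
            · exact Finset.sum_le_sum_of_subset_of_nonneg hsub
                (fun x _ _ => by unfold kinv; positivity)
            · apply mul_le_mul_of_nonneg_left _ (by positivity)
              exact_mod_cast Finset.card_le_card hsub
    linarith
  rw [Real.dist_eq, sub_zero, ← sub_div, abs_of_nonneg
    (div_nonneg (sub_nonneg.mpr (hlow n)) hpos.le), div_lt_iff₀ hpos]
  have h5 : (1 / (m : ℝ)) * (S ^ n).card < ε / 2 * (S ^ n).card :=
    mul_lt_mul_of_pos_right hmε hpos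
  linarith

end classes

section fc
variable (G : Type*) [Group G]

/-- the subgroup of elements with finitely many conjugates -/
def FCc : Subgroup G where
  carrier := {x | (conjugatesOf x).Finite}
  one_mem' := by
    have : conjugatesOf (1 : G) = {1} := by
      ext y
      rw [mem_cj, Set.mem_singleton_iff]
      constructor
      · rintro ⟨c, rfl⟩; group
      · rintro rfl; exact ⟨1, by group⟩
    change (conjugatesOf (1 : G)).Finite
    rw [this]; exact Set.finite_singleton _
  mul_mem' := by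
    intro x y hx hy
    change (conjugatesOf (x * y)).Finite
    refine (Set.Finite.mul hx hy).subset ?_
    intro z hz
    rw [mem_cj] at hz
    obtain ⟨c, rfl⟩ := hz
    refine Set.mem_mul.mpr ⟨c * x * c⁻¹, ?_, c * y * c⁻¹, ?_, by group⟩
    · rw [mem_cj]; exact ⟨c, rfl⟩
    · rw [mem_cj]; exact ⟨c, rfl⟩
  inv_mem' := by
    intro x hx
    change (conjugatesOf x⁻¹).Finite
    refine (Set.Finite.inv hx).subset ?_
    intro z hz
    rw [mem_cj] at hz
    obtain ⟨c, rfl⟩ := hz
    rw [Set.mem_inv, mem_cj]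
    exact ⟨c, by group⟩

variable {G}

lemma mem_FCc {x : G} : x ∈ FCc G ↔ (conjugatesOf x).Finite := Iff.rfl

/-- a finite index subgroup which centralizes an element forces finitely many conjugates -/
lemma finite_conj_of (H : Subgroup G) [H.FiniteIndex] (x : G) (hx : ∀ h ∈ H, h * x = x * h) :
    (conjugatesOf x).Finite := by
  have : Finite (G ⧸ H) := Subgroup.finite_quotient_of_finiteIndex
  refine (Set.finite_range (fun q : G ⧸ H => q.out * x * q.out⁻¹)).subset ?_
  intro y hy
  rw [mem_cj] at hy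
  obtain ⟨c, rfl⟩ := hy
  refine ⟨(c : G ⧸ H), ?_⟩
  have h1 : ((c : G ⧸ H).out)⁻¹ * c ∈ H := by
    rw [← QuotientGroup.eq, QuotientGroup.out_eq']
  have h2 := hx _ h1
  simp only
  calc (c : G ⧸ H).out * x * ((c : G ⧸ H).out)⁻¹
      = (c : G ⧸ H).out * (x * (((c : G ⧸ H).out)⁻¹ * c)) * c⁻¹ := by group
    _ = (c : G ⧸ H).out * ((((c : G ⧸ H).out)⁻¹ * c) * x) * c⁻¹ := by rw [h2]
    _ = _ := by group

lemma centralizer_finiteIndex (x : G) (hx : (conjugatesOf x).Finite) :
    (Subgroup.centralizer ({x} : Set G)).FiniteIndex := by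
  have : Finite (conjugatesOf x) := hx
  have hinj : Function.Injective (fun q : G ⧸ Subgroup.centralizer ({x} : Set G) =>
      (⟨q.out * x * q.out⁻¹, by rw [mem_cj]; exact ⟨_, rfl⟩⟩ :
        conjugatesOf x)) := by
    intro q q' h
    rw [Subtype.mk.injEq] at h
    have h1 : q.out⁻¹ * q'.out ∈ Subgroup.centralizer ({x} : Set G) := by
      rw [Subgroup.mem_centralizer_singleton_iff]
      calc q.out⁻¹ * q'.out * x = q.out⁻¹ * (q'.out * x * q'.out⁻¹) * q'.out := by group
        _ = q.out⁻¹ * (q.out * x * q.out⁻¹) * q'.out := by rw [h]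
        _ = _ := by group
    rw [← QuotientGroup.eq, QuotientGroup.out_eq', QuotientGroup.out_eq'] at h1
    exact h1
  have := Finite.of_injective _ hinj
  exact Subgroup.finiteIndex_of_finite_quotient

/-- the conjugacy class size through a finite index subgroup centralizing the element -/
lemma class_size (H : Subgroup G) [H.FiniteIndex] (x : G) (hx : ∀ h ∈ H, h * x = x * h)
    [Fintype (G ⧸ H)] [DecidablePred fun q : G ⧸ H => q.out * x = x * q.out] :
    (conjugatesOf x).ncard * (Finset.univ.filter (fun q : G ⧸ H => q.out * x = x * q.out)).card =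
      Fintype.card (G ⧸ H) := by
  classical
  have hfin := finite_conj_of H x hx
  set W := hfin.toFinset with hW
  have hWc : (conjugatesOf x).ncard = W.card := Set.ncard_eq_toFinset_card _ hfin
  rw [hWc, ← Finset.card_univ]
  have hmaps : ∀ q ∈ (Finset.univ : Finset (G ⧸ H)), q.out * x * q.out⁻¹ ∈ W := by
    intro q _
    rw [hW, Set.Finite.mem_toFinset, mem_cj]
    exact ⟨_, rfl⟩
  rw [Finset.card_eq_sum_card_fiberwise hmaps]
  have hfib : ∀ y ∈ W, (Finset.univ.filter (fun q : G ⧸ H => q.out * x * q.out⁻¹ = y)).card =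
      (Finset.univ.filter (fun q : G ⧸ H => q.out * x = x * q.out)).card := by
    intro y hy
    rw [hW, Set.Finite.mem_toFinset, mem_cj] at hy
    obtain ⟨c, rfl⟩ := hy
    have hkey : ∀ (g : G) (q : G ⧸ H), (g : G ⧸ H) = q →
        q.out * x * q.out⁻¹ = g * x * g⁻¹ := by
      intro g q hgq
      have h1 : q.out⁻¹ * g ∈ H := by
        rw [← QuotientGroup.eq, QuotientGroup.out_eq']; exact hgq.symm
      have h2 := hx _ h1
      calc q.out * x * q.out⁻¹ = q.out * (x * (q.out⁻¹ * g)) * g⁻¹ := by group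
        _ = q.out * ((q.out⁻¹ * g) * x) * g⁻¹ := by rw [h2]
        _ = _ := by group
    symm
    refine Finset.card_bij' (fun q _ => c • q) (fun q _ => c⁻¹ • q) ?_ ?_
      (fun q _ => by simp) (fun q _ => by simp)
    · intro q hq
      rw [Finset.mem_filter] at hq ⊢
      refine ⟨Finset.mem_univ _, ?_⟩
      have h1 : ((c * q.out : G) : G ⧸ H) = c • q := by
        conv_rhs => rw [← QuotientGroup.out_eq' q]
        rw [MulAction.Quotient.smul_coe, smul_eq_mul]
      rw [hkey _ _ h1]
      calc c * q.out * x * (c * q.out)⁻¹ = c * (q.out * x) * (q.out⁻¹ * c⁻¹) := by group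
        _ = c * (x * q.out) * (q.out⁻¹ * c⁻¹) := by rw [hq.2]
        _ = _ := by group
    · intro q hq
      rw [Finset.mem_filter] at hq ⊢
      refine ⟨Finset.mem_univ _, ?_⟩
      have h1 : ((c⁻¹ * q.out : G) : G ⧸ H) = c⁻¹ • q := by
        conv_rhs => rw [← QuotientGroup.out_eq' q]
        rw [MulAction.Quotient.smul_coe, smul_eq_mul]
      have h2 := hkey _ _ h1
      have h3 : (c⁻¹ • q).out * x * ((c⁻¹ • q).out)⁻¹ = x := by
        rw [h2]
        calc c⁻¹ * q.out * x * (c⁻¹ * q.out)⁻¹ = c⁻¹ * (q.out * x * q.out⁻¹) * c := by group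
          _ = c⁻¹ * (c * x * c⁻¹) * c := by rw [hq.2]
          _ = x := by group
      calc (c⁻¹ • q).out * x = ((c⁻¹ • q).out * x * ((c⁻¹ • q).out)⁻¹) * (c⁻¹ • q).out := by group
        _ = _ := by rw [h3]
  rw [Finset.sum_congr rfl hfib, Finset.sum_const, smul_eq_mul]

end fc

section va
variable {G : Type*} [Group G] [DecidableEq G]

open Classical in
/-- Virtually abelian groups: the quotient has a limit independent of the generating set. -/
theorem va_limit (S0 : Finset G) (hgen0 : ∀ g : G, ∃ j, g ∈ S0 ^ j)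
    (A : Subgroup G) [A.FiniteIndex] (hA : ∀ a ∈ A, ∀ b ∈ A, a * b = b * a) :
    ∃ L : ℝ, ∀ S : Finset G, (1 : G) ∈ S → S⁻¹ = S → (∀ g : G, ∃ j, g ∈ S ^ j) →
      Tendsto (fun n : ℕ => (((S ^ n).image ConjClasses.mk).card : ℝ) / (S ^ n).card) atTop (𝓝 L) := by
  -- G is finitely generated
  have hfg : Group.FG G := by
    rw [Group.fg_iff]
    refine ⟨(S0 : Set G), ?_, S0.finite_toSet⟩
    rw [eq_top_iff]
    intro g _
    obtain ⟨j, hj⟩ := hgen0 g
    have : ∀ j : ℕ, ∀ g ∈ S0 ^ j, g ∈ Subgroup.closure (S0 : Set G) := by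
      intro j
      induction j with
      | zero =>
        intro g hg
        rw [pow_zero, Finset.mem_one] at hg
        rw [hg]; exact Subgroup.one_mem _
      | succ j ih =>
        intro g hg
        rw [pow_succ] at hg
        obtain ⟨g', hg', s, hs, rfl⟩ := Finset.mem_mul.mp hg
        exact Subgroup.mul_mem _ (ih g' hg') (Subgroup.subset_closure hs)
    exact this j g hj
  -- FC centre of finite index
  have hAF : A ≤ FCc G := by
    intro a ha
    rw [mem_FCc]
    exact finite_conj_of A a (fun h hh => hA h hh a ha)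
  have hFfi : (FCc G).FiniteIndex := Subgroup.finiteIndex_of_le hAF
  have hFfg : (FCc G).FG :=
    (Group.fg_iff_subgroup_fg (FCc G)).mp (Subgroup.fg_of_index_ne_zero (FCc G))
  obtain ⟨X, hX⟩ := hFfg
  set A0 : Subgroup G := Subgroup.centralizer (FCc G : Set G) with hA0
  have hA0fi : A0.FiniteIndex := by
    have h1 : A0 = ⨅ x : X, Subgroup.centralizer ({(x : G)} : Set G) := by
      rw [hA0, ← hX, Subgroup.centralizer_closure]
      ext g
      simp only [Subgroup.mem_iInf, Subgroup.mem_centralizer_iff, Set.mem_singleton_iff,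
        Finset.mem_coe, forall_eq]
      exact ⟨fun h x => h x x.2, fun h x hx => h ⟨x, hx⟩⟩
    rw [h1]
    apply Subgroup.finiteIndex_iInf
    intro x
    apply centralizer_finiteIndex
    have : (x : G) ∈ FCc G := by
      rw [← hX]; exact Subgroup.subset_closure x.2
    exact this
  have hA0comm : ∀ x ∈ FCc G, ∀ h ∈ A0, h * x = x * h := by
    intro x hx h hh
    exact (Subgroup.mem_centralizer_iff.mp hh x hx).symm
  have : Finite (G ⧸ A0) := Subgroup.finite_quotient_of_finiteIndex
  have := Fintype.ofFinite (G ⧸ A0)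
  have hcardpos : (0 : ℝ) < Fintype.card (G ⧸ A0) := by
    have : 0 < Fintype.card (G ⧸ A0) := Fintype.card_pos
    exact_mod_cast this
  have hkinv : ∀ x : G, kinv x = ∑ q : G ⧸ A0,
      (Fintype.card (G ⧸ A0) : ℝ)⁻¹ *
        (if x ∈ FCc G ⊓ Subgroup.centralizer ({q.out} : Set G) then 1 else 0) := by
    intro x
    rw [← Finset.mul_sum, Finset.sum_boole]
    by_cases hx : x ∈ FCc G
    · have h1 : (Finset.univ.filter (fun q : G ⧸ A0 =>
          x ∈ FCc G ⊓ Subgroup.centralizer ({q.out} : Set G))) =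
          Finset.univ.filter (fun q : G ⧸ A0 => q.out * x = x * q.out) := by
        apply Finset.filter_congr
        intro q _
        rw [Subgroup.mem_inf, Subgroup.mem_centralizer_singleton_iff]
        exact ⟨fun h => h.2.symm, fun h => ⟨hx, h.symm⟩⟩
      rw [h1]
      have h2 := class_size A0 x (hA0comm x hx)
      have h3 : ((conjugatesOf x).ncard : ℝ) *
          (Finset.univ.filter (fun q : G ⧸ A0 => q.out * x = x * q.out)).card =
          Fintype.card (G ⧸ A0) := by exact_mod_cast h2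
      have h4 : ((conjugatesOf x).ncard : ℝ) ≠ 0 := by
        intro h0
        rw [h0, zero_mul] at h3
        exact hcardpos.ne h3
      unfold kinv
      rw [← h3, mul_inv]
      have h5 : ((Finset.univ.filter (fun q : G ⧸ A0 => q.out * x = x * q.out)).card : ℝ) ≠ 0 := by
        intro h0
        rw [h0, mul_zero] at h3
        exact hcardpos.ne h3
      rw [mul_assoc, inv_mul_cancel₀ h5, mul_one]
    · have h1 : (Finset.univ.filter (fun q : G ⧸ A0 =>
          x ∈ FCc G ⊓ Subgroup.centralizer ({q.out} : Set G))) = ∅ := by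
        apply Finset.filter_false_of_mem
        intro q _ h
        exact hx h.1
      rw [h1, Finset.card_empty, Nat.cast_zero, mul_zero]
      unfold kinv
      rw [Set.Infinite.ncard (show (conjugatesOf x).Infinite from hx), Nat.cast_zero, inv_zero]
  refine ⟨∑ q : G ⧸ A0, (Fintype.card (G ⧸ A0) : ℝ)⁻¹ *
    (((FCc G ⊓ Subgroup.centralizer ({q.out} : Set G)).index : ℝ)⁻¹), ?_⟩
  intro S h1S hinv hgen
  obtain ⟨C, hC1, hC⟩ := doubling h1S hgen A hA
  have hst : StableGrowth S := stable_of h1S (stable h1S hinv C hC1 hC)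
  have h1 := classes_vs_kinv h1S hinv hgen hst
  have h2 : Tendsto (fun n : ℕ => (∑ x ∈ S ^ n, kinv x) / (S ^ n).card) atTop
      (𝓝 (∑ q : G ⧸ A0, (Fintype.card (G ⧸ A0) : ℝ)⁻¹ *
        (((FCc G ⊓ Subgroup.centralizer ({q.out} : Set G)).index : ℝ)⁻¹))) := by
    have h3 : Tendsto (fun n : ℕ => ∑ q : G ⧸ A0, (Fintype.card (G ⧸ A0) : ℝ)⁻¹ *
        ((((S ^ n).filter (fun x => x ∈ FCc G ⊓ Subgroup.centralizer ({q.out} : Set G))).card : ℝ) /
          (S ^ n).card)) atTop
        (𝓝 (∑ q : G ⧸ A0, (Fintype.card (G ⧸ A0) : ℝ)⁻¹ *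
        (((FCc G ⊓ Subgroup.centralizer ({q.out} : Set G)).index : ℝ)⁻¹))) := by
      apply tendsto_finsetSum
      intro q _
      apply Tendsto.const_mul
      exact subgroup_density h1S hinv hgen hst _
    refine h3.congr (fun n => ?_)
    rw [Finset.sum_congr rfl (fun x _ => hkinv x), Finset.sum_comm, Finset.sum_div]
    apply Finset.sum_congr rfl
    intro q _
    rw [← Finset.mul_sum, Finset.sum_boole, mul_div_assoc]
  have h4 := h1.add h2
  rw [zero_add] at h4
  refine h4.congr (fun n => ?_)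
  ring

end va

end Pool.Agent.H31.CR
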