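import Mathlib
import Pool.Agent.H31.CR.Defs
import Pool.Agent.H31.CR.Reduction
import Pool.Agent.H31.CR.VirtAb

set_option autoImplicit false

namespace Pool.Agent.H31.CR

open Finset Pointwise Filter Topology Pool.Agent.H31.ConjRatio

section
variable {G : Type*} [Group G]

open Classical in
/-- the symmetric generating set -/
noncomputable def symm (X : Finset G) : Finset G := insert 1 (X ∪ X⁻¹)

open Classical in
lemma one_mem_symm (X : Finset G) : (1 : G) ∈ symm X := Finset.mem_insert_self _ _

open Classical in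
lemma mem_symm {X : Finset G} {s : G} : s ∈ symm X ↔ s = 1 ∨ s ∈ X ∨ s⁻¹ ∈ X := by
  unfold symm
  rw [Finset.mem_insert, Finset.mem_union, Finset.mem_inv']

open Classical in
lemma symm_inv (X : Finset G) : (symm X)⁻¹ = symm X := by
  ext s
  rw [Finset.mem_inv', mem_symm, mem_symm, inv_inv, inv_eq_one]
  tauto

open Classical in
lemma ball_eq (X : Finset G) (n : ℕ) : ball (X : Set G) n = ((symm X ^ n : Finset G) : Set G) := by
  have h1S := one_mem_symm X
  ext g
  rw [Finset.mem_coe]
  constructor
  · rintro ⟨l, hl, hs, rfl⟩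
    have h1 : ∀ l : List G, (∀ s ∈ l, s ∈ (X : Set G) ∨ s⁻¹ ∈ (X : Set G)) →
        l.prod ∈ symm X ^ l.length := by
      intro l
      induction l with
      | nil => intro _; simp
      | cons a l ih =>
        intro h
        rw [List.prod_cons, List.length_cons, pow_succ']
        refine Finset.mul_mem_mul ?_ (ih (fun s hs => h s (List.mem_cons_of_mem _ hs)))
        rw [mem_symm]
        right
        simpa using h a List.mem_cons_self
    exact Finset.pow_subset_pow_right h1S hl (h1 l hs)
  · intro hg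
    induction n generalizing g with
    | zero =>
      rw [pow_zero, Finset.mem_one] at hg
      exact ⟨[], by simp, by simp, by simp [hg]⟩
    | succ n ih =>
      rw [pow_succ] at hg
      obtain ⟨g', hg', s, hs, rfl⟩ := Finset.mem_mul.mp hg
      obtain ⟨l, hl, hls, rfl⟩ := ih g' hg'
      rw [mem_symm] at hs
      rcases hs with rfl | hs
      · exact ⟨l, by omega, hls, by simp⟩
      · refine ⟨l ++ [s], by simp; omega, ?_, by simp⟩
        intro t ht
        rcases List.mem_append.mp ht with ht | ht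
        · exact hls t ht
        · rw [List.mem_singleton] at ht
          subst ht
          simpa using hs

open Classical in
lemma symm_gen (X : Finset G) (h : Subgroup.closure (X : Set G) = ⊤) (g : G) :
    ∃ j, g ∈ symm X ^ j := by
  have hg : g ∈ Subgroup.closure (X : Set G) := by rw [h]; exact Subgroup.mem_top g
  induction hg using Subgroup.closure_induction with
  | mem x hx => exact ⟨1, by rw [pow_one, mem_symm]; right; left; exact_mod_cast hx⟩
  | one => exact ⟨0, by simp⟩
  | mul x y _ _ hx hy =>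
    obtain ⟨i, hi⟩ := hx
    obtain ⟨j, hj⟩ := hy
    exact ⟨i + j, by rw [pow_add]; exact Finset.mul_mem_mul hi hj⟩
  | inv x _ hx =>
    obtain ⟨i, hi⟩ := hx
    refine ⟨i, ?_⟩
    have := Finset.inv_mem_inv hi
    rwa [← inv_pow, symm_inv] at this

open Classical in
lemma ratio_eq (X : Finset G) : ratio (X : Set G) = fun n : ℕ =>
    (((symm X ^ n).image ConjClasses.mk).card : ℝ) / (symm X ^ n).card := by
  funext n
  unfold ratio
  rw [ball_eq, ← Finset.coe_image, Set.ncard_coe_finset, Set.ncard_coe_finset]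

/-- groups that are not virtually abelian -/
theorem ratio_tendsto_zero (X : Set G) (hX : X.Finite) (hgen : Subgroup.closure X = ⊤)
    (hva : ¬ ∃ H : Subgroup G, H.FiniteIndex ∧ ∀ a ∈ H, ∀ b ∈ H, a * b = b * a) :
    Tendsto (ratio X) atTop (𝓝 0) := by
  classical
  obtain ⟨X, rfl⟩ := hX.exists_finset_coe
  rw [ratio_eq]
  exact tendsto_zero (one_mem_symm X) (symm_gen X hgen) hva

/-- the ratio converges, to a limit that does not depend on the generating set -/
theorem ratio_limit (X : Set G) (hX : X.Finite) (hgen : Subgroup.closure X = ⊤) :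
    ∃ L : ℝ, ∀ Y : Set G, Y.Finite → Subgroup.closure Y = ⊤ → Tendsto (ratio Y) atTop (𝓝 L) := by
  classical
  by_cases hva : ∃ H : Subgroup G, H.FiniteIndex ∧ ∀ a ∈ H, ∀ b ∈ H, a * b = b * a
  · obtain ⟨A, hfi, hA⟩ := hva
    obtain ⟨X, rfl⟩ := hX.exists_finset_coe
    obtain ⟨L, hL⟩ := va_limit (symm X) (symm_gen X hgen) A hA
    refine ⟨L, fun Y hY hYgen => ?_⟩
    obtain ⟨Y, rfl⟩ := hY.exists_finset_coe
    rw [ratio_eq]
    exact hL (symm Y) (one_mem_symm Y) (symm_inv Y) (symm_gen Y hYgen)
  · exact ⟨0, fun Y hY hYgen => ratio_tendsto_zero Y hY hYgen hva⟩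

theorem CR_indep (X Y : Set G) (hX : X.Finite) (hY : Y.Finite) (hgX : Subgroup.closure X = ⊤)
    (hgY : Subgroup.closure Y = ⊤) : conjugacyRatio X = conjugacyRatio Y := by
  obtain ⟨L, hL⟩ := ratio_limit X hX hgX
  unfold conjugacyRatio
  rw [(hL X hX hgX).limsup_eq, (hL Y hY hgY).limsup_eq]

theorem CR_zero (X : Set G) (hX : X.Finite) (hgen : Subgroup.closure X = ⊤)
    (hva : ¬ ∃ H : Subgroup G, H.FiniteIndex ∧ ∀ a ∈ H, ∀ b ∈ H, a * b = b * a) : conjugacyRatio X = 0 :=
  (ratio_tendsto_zero X hX hgen hva).limsup_eq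

end

end Pool.Agent.H31.CR
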